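import Mathlib

/-!
Algebraic lemmas.
-/

set_option autoImplicit false

namespace Pool.Agent.W328.OD

theorem ring_key {E : Type*} [Ring E] (h2 : ∀ e : E, e + e = 0 → e = 0)
    {k k' k3 k3' θ θ' τ τ' : E} (hk' : k' * k = 1)
    (h3' : k3' * k3 = 1) (hθ : θ' * θ = 1) (hτ : τ' * τ = 1)
    (c1 : k * θ = θ * k) (c3 : k3 * θ = θ * k3)
    (a1 : k * θ * (k - 1) = k - 1) (a3 : k3 * θ * (k3 - 1) = k3 - 1)
    (b : k3 - 1 = -(τ * (k - 1))) (c : ((1 - k') + (1 - k3')) * (τ - 1) = 0) :
    (k - 1) * (k - 1) * (k - 1) = 0 := by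
  set n := k - 1 with hn
  set n3 := k3 - 1 with hn3
  have s1 : θ * n = 1 - k' := by
    have : k' * (k * θ * n) = (k' * k) * (θ * n) := by noncomm_ring
    rw [hk', one_mul, a1] at this
    rw [← this, hn, mul_sub, hk', mul_one]
  have s3 : θ * n3 = 1 - k3' := by
    have : k3' * (k3 * θ * n3) = (k3' * k3) * (θ * n3) := by noncomm_ring
    rw [h3', one_mul, a3] at this
    rw [← this, hn3, mul_sub, h3', mul_one]
  have hX : (τ - 1) * n * (τ - 1) = 0 := by
    have h1 : θ' * (((1 - k') + (1 - k3')) * (τ - 1)) = 0 := by rw [c, mul_zero]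
    rw [← s1, ← s3, b] at h1
    have e : θ' * ((θ * n + θ * -(τ * n)) * (τ - 1)) = (θ' * θ) * (-((τ - 1) * n * (τ - 1))) := by
      noncomm_ring
    rw [e, hθ, one_mul] at h1
    exact neg_eq_zero.1 h1
  have hnθ : n * θ = θ * n := by rw [hn, sub_mul, mul_sub, c1, one_mul, mul_one]
  have hn3θ : n3 * θ = θ * n3 := by rw [hn3, sub_mul, mul_sub, c3, one_mul, mul_one]
  have s4 : θ * τ * n = τ * θ * n := by
    rw [b] at hn3θ
    have e1 : -(τ * n) * θ = -(τ * (n * θ)) := by noncomm_ring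
    have e2 : θ * -(τ * n) = -(θ * τ * n) := by noncomm_ring
    rw [e1, e2, hnθ, neg_inj] at hn3θ
    rw [← hn3θ]; noncomm_ring
  have hk : k = 1 + n := by rw [hn]; noncomm_ring
  have hk3 : k3 = 1 - τ * n := by
    have : k3 = 1 + n3 := by rw [hn3]; noncomm_ring
    rw [this, b]; noncomm_ring
  have s5 : (1 - τ * n) * τ * (1 - k') = τ * n := by
    have h1 : (1 - τ * n) * (θ * τ * n) = τ * n := by
      have := a3
      rw [b, hk3] at this
      have e : (1 - τ * n) * θ * -(τ * n) = -((1 - τ * n) * (θ * τ * n)) := by noncomm_ring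
      rw [e, neg_inj] at this
      exact this
    rw [s4] at h1
    have e : (1 - τ * n) * τ * (θ * n) = (1 - τ * n) * (τ * θ * n) := by noncomm_ring
    rw [← s1, e, h1]
  have s5' : (1 - τ * n) * τ * n = τ * n * k := by
    have e : (1 - τ * n) * τ * (1 - k') * k = (1 - τ * n) * τ * (k - k' * k) := by noncomm_ring
    rw [s5, hk'] at e
    rw [e]
  have hY : n * τ * n + n * n = 0 := by
    have h1 : τ' * ((1 - τ * n) * τ * n - τ * n * k) = 0 := by rw [s5', sub_self, mul_zero]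
    have e : τ' * ((1 - τ * n) * τ * n - τ * n * k) =
        (τ' * τ) * (n - n * τ * n - n * k) := by noncomm_ring
    rw [e, hτ, one_mul, hk] at h1
    have e2 : n * τ * n + n * n = -(n - n * τ * n - n * (1 + n)) := by noncomm_ring
    rw [e2, h1, neg_zero]
  have s6 : (τ - 1) * (n * n) = 0 := by
    apply h2
    have e : (τ - 1) * (n * n) + (τ - 1) * (n * n) =
        (τ - 1) * (n * τ * n + n * n) - (τ - 1) * n * (τ - 1) * n := by noncomm_ring
    rw [e, hX, hY]; simp
  apply h2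
  have e : n * n * n + n * n * n = (n * τ * n + n * n) * n - n * ((τ - 1) * (n * n)) := by
    noncomm_ring
  rw [e, hY, s6]; simp

/-- `(1 + n) ^ p = 1` if `n ^ 3 = 0` in odd characteristic `p` -/
theorem pow_eq_one_of_cube {E : Type*} [Ring E] {p : ℕ} (hp : p.Prime) (hp2 : 3 ≤ p)
    (hpE : (p : E) = 0) {k : E} (h : (k - 1) * (k - 1) * (k - 1) = 0) : k ^ p = 1 := by
  by_cases hE : Subsingleton E
  · exact Subsingleton.elim _ _
  · have : Nontrivial E := not_subsingleton_iff_nontrivial.1 hE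
    have hc : CharP E p := (CharP.charP_iff_prime_eq_zero hp).2 hpE
    have hf : Fact p.Prime := ⟨hp⟩
    have h1 := sub_pow_char_of_commute (p := p) (x := k) (y := 1) (Commute.one_right k)
    rw [one_pow] at h1
    have h2 : (k - 1) ^ p = 0 := by
      obtain ⟨m, rfl⟩ := Nat.exists_eq_add_of_le hp2
      rw [pow_add]
      have : (k - 1) ^ 3 = 0 := by rw [← h]; noncomm_ring
      rw [this, zero_mul]
    rw [h2] at h1
    exact (sub_eq_zero.1 h1.symm)

/-- commuting unipotent endomorphisms of a finite abelian group have a common fixed vector -/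
theorem unip_common {V : Type*} [AddCommGroup V] [Finite V] (S : Set (AddMonoid.End V))
    (hc : ∀ a ∈ S, ∀ b ∈ S, a * b = b * a) (hs : ∀ a ∈ S, ∃ n : ℕ, (a - 1) ^ n = 0)
    (hne : ∃ v : V, v ≠ 0) : ∃ v : V, v ≠ 0 ∧ ∀ a ∈ S, a v = v := by
  have : Finite (AddMonoid.End V) := Finite.of_injective (fun f : AddMonoid.End V => (f : V → V))
    (fun f g h => DFunLike.coe_injective h)
  obtain ⟨v, hv, hmax⟩ := Set.exists_max_image {v : V | v ≠ 0}
    (fun v => Set.ncard {a ∈ S | a v = v}) (Set.toFinite _) hne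
  refine ⟨v, hv, fun a ha => ?_⟩
  by_contra hi
  obtain ⟨n, hn⟩ := hs a ha
  -- the last nonzero iterate
  have hex : ∃ m : ℕ, ((a - 1) ^ m) v = 0 := ⟨n, by rw [hn]; rfl⟩
  classical
  set m := Nat.find hex with hm
  have hm0 : ((a - 1) ^ m) v = 0 := Nat.find_spec hex
  have hmpos : m ≠ 0 := by
    intro h0
    rw [h0, pow_zero] at hm0
    exact hv hm0
  obtain ⟨j, hj⟩ := Nat.exists_eq_succ_of_ne_zero hmpos
  have hj0 : ((a - 1) ^ j) v ≠ 0 := Nat.find_min hex (by omega)
  have hj1 : (a - 1) (((a - 1) ^ j) v) = 0 := by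
    rw [hj, Nat.succ_eq_add_one, pow_succ'] at hm0
    exact hm0
  have h1 := hmax (((a - 1) ^ j) v) hj0
  have hlt : {b ∈ S | b v = v} ⊂ {b ∈ S | b (((a - 1) ^ j) v) = ((a - 1) ^ j) v} := by
    constructor
    · rintro b ⟨hb, hbv⟩
      refine ⟨hb, ?_⟩
      have hcomm : Commute b (a - 1) := by
        change b * (a - 1) = (a - 1) * b
        rw [mul_sub, sub_mul, hc b hb a ha, mul_one, one_mul]
      have h2 : (b * (a - 1) ^ j) v = ((a - 1) ^ j * b) v := by rw [(hcomm.pow_right j).eq]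
      change b (((a - 1) ^ j) v) = ((a - 1) ^ j) (b v) at h2
      rw [h2, hbv]
    · intro hsub
      have h3 : a ∈ {b ∈ S | b (((a - 1) ^ j) v) = ((a - 1) ^ j) v} := by
        refine ⟨ha, ?_⟩
        have : a (((a - 1) ^ j) v) - ((a - 1) ^ j) v = 0 := hj1
        exact sub_eq_zero.1 this
      exact hi (hsub h3).2
  have h4 := Set.ncard_lt_ncard hlt (Set.toFinite _)
  omega

end Pool.Agent.W328.OD
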