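import Pool.Agent.H361R3.AL.Final
import Pool.Agent.H687R3.ALG.Gen

/-!
Automorphic loops of odd order: a minimal normal elementary abelian subgroup `W` of the core
group, the abelian group `F` and the action of `Gh Q` on it.
-/

set_option autoImplicit false

namespace Pool.Agent.W328.OD

open H361AL

universe u

/-- a minimal elementary abelian subgroup of `N Q` normalised by `Gh Q` -/
structure Dat (Q : Type u) [Loop Q] [Automorphic Q] where
  W : Subgroup (Equiv.Perm Q)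
  p : ℕ
  hp : p.Prime
  le_N : W ≤ N Q
  comm : ∀ v ∈ W, ∀ w ∈ W, v * w = w * v
  exp : ∀ w ∈ W, w ^ p = 1
  conj : ∀ g ∈ Gh Q, ∀ w ∈ W, g * w * g⁻¹ ∈ W
  ne : ∃ w ∈ W, w ≠ 1
  min : ∀ U : Subgroup (Equiv.Perm Q), U ≤ W → (∀ g ∈ Gh Q, ∀ w ∈ U, g * w * g⁻¹ ∈ U) →
    (∃ w ∈ U, w ≠ 1) → W ≤ U

variable {Q : Type u} [Loop Q] [Automorphic Q]

theorem mlt_conj {g : Equiv.Perm Q} (hg : g ∈ Gh Q) : ∀ m ∈ Mlt Q, g * m * g⁻¹ ∈ Mlt Q := by
  have hJ : ∀ m ∈ Mlt Q, J * m * J ∈ Mlt Q := by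
    intro m hm
    induction hm using Subgroup.closure_induction with
    | mem m hm =>
      rcases hm with ⟨x, rfl⟩ | ⟨x, rfl⟩
      · rw [JLJ]; exact R_mem _
      · rw [JRJ]; exact L_mem _
    | one => rw [mul_one, J_mul_J]; exact one_mem _
    | mul a b _ _ iha ihb =>
      have : J * (a * b) * J = (J * a * J) * (J * b * J) := by
        have : (J * a * J) * (J * b * J) = J * a * (J * J) * b * J := by group
        rw [this, J_mul_J]; group
      rw [this]; exact mul_mem iha ihb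
    | inv a _ ih =>
      have : J * a⁻¹ * J = (J * a * J)⁻¹ := by
        rw [mul_inv_rev, mul_inv_rev, J_inv, mul_assoc]
      rw [this]; exact inv_mem ih
  have hle : Gh Q ≤ Subgroup.normalizer (Mlt Q : Set (Equiv.Perm Q)) := by
    rw [Gh, Subgroup.closure_le]
    rintro g (hg | hg)
    · exact Subgroup.le_normalizer hg
    · rw [Set.mem_singleton_iff] at hg
      rw [hg, SetLike.mem_coe, Subgroup.mem_normalizer_iff]
      intro m
      rw [J_inv]
      refine ⟨hJ m, fun h => ?_⟩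
      have := hJ _ h
      have e : J * (J * m * J) * J = (J * J) * m * (J * J) := by group
      rwa [e, J_mul_J, one_mul, mul_one] at this
  intro m hm
  exact (Subgroup.mem_normalizer_iff.1 (hle hg) m).1 hm

/-- the group of all `g` centralising `W` and preserving all `W`-orbits -/
def Dat.F (D : Dat Q) : Subgroup (Equiv.Perm Q) where
  carrier := {g | g ∈ Mlt Q ∧ (∀ y, ∃ w ∈ D.W, g y = w y) ∧ ∀ w ∈ D.W, g * w = w * g}
  one_mem' := ⟨one_mem _, fun y => ⟨1, one_mem _, rfl⟩, fun w _ => by rw [mul_one, one_mul]⟩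
  mul_mem' := by
    rintro g h ⟨hg1, hg2, hg3⟩ ⟨hh1, hh2, hh3⟩
    refine ⟨mul_mem hg1 hh1, ?_, ?_⟩
    · intro y
      obtain ⟨w, hw, hw'⟩ := hh2 y
      obtain ⟨v, hv, hv'⟩ := hg2 (h y)
      refine ⟨v * w, mul_mem hv hw, ?_⟩
      rw [Equiv.Perm.mul_apply, Equiv.Perm.mul_apply, hv', hw']
    · intro w hw
      rw [mul_assoc, hh3 w hw, ← mul_assoc, hg3 w hw, mul_assoc]
  inv_mem' := by
    rintro g ⟨hg1, hg2, hg3⟩
    refine ⟨inv_mem hg1, ?_, ?_⟩
    · intro y
      obtain ⟨w, hw, hw'⟩ := hg2 (g⁻¹ y)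
      refine ⟨w⁻¹, inv_mem hw, ?_⟩
      have e : g (g⁻¹ y) = y := g.apply_symm_apply y
      rw [e] at hw'
      exact (Equiv.Perm.inv_eq_iff_eq.2 hw').symm
    · intro w hw
      have : Commute g w := hg3 w hw
      exact this.inv_left

namespace Dat

variable (D : Dat Q)

theorem mem_F {g : Equiv.Perm Q} : g ∈ D.F ↔
    g ∈ Mlt Q ∧ (∀ y, ∃ w ∈ D.W, g y = w y) ∧ ∀ w ∈ D.W, g * w = w * g := Iff.rfl

theorem F_comm {g h : Equiv.Perm Q} (hg : g ∈ D.F) (hh : h ∈ D.F) : g * h = h * g := by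
  obtain ⟨hg1, hg2, hg3⟩ := hg
  obtain ⟨hh1, hh2, hh3⟩ := hh
  ext y
  obtain ⟨w, hw, hw'⟩ := hh2 y
  obtain ⟨v, hv, hv'⟩ := hg2 y
  have e1 : g (w y) = w (g y) := by
    have := congrArg (fun f : Equiv.Perm Q => f y) (hg3 w hw)
    simpa only [Equiv.Perm.mul_apply] using this
  have e2 : h (v y) = v (h y) := by
    have := congrArg (fun f : Equiv.Perm Q => f y) (hh3 v hv)
    simpa only [Equiv.Perm.mul_apply] using this
  have e3 : w (v y) = v (w y) := by
    have := congrArg (fun f : Equiv.Perm Q => f y) (D.comm w hw v hv)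
    simpa only [Equiv.Perm.mul_apply] using this
  rw [Equiv.Perm.mul_apply, Equiv.Perm.mul_apply, hw', hv', e1, e2, hw', hv', e3]

theorem W_mlt {w : Equiv.Perm Q} (hw : w ∈ D.W) : w ∈ Mlt Q := N_le_mlt (D.le_N hw)

theorem W_le_F : D.W ≤ D.F := fun w hw =>
  ⟨D.W_mlt hw, fun _ => ⟨w, hw, rfl⟩, fun v hv => D.comm w hw v hv⟩

theorem F_le : D.F ≤ Gh Q := fun _ hg => mlt_le hg.1

theorem F_conj {g : Equiv.Perm Q} (hg : g ∈ Gh Q) {f : Equiv.Perm Q} (hf : f ∈ D.F) :
    g * f * g⁻¹ ∈ D.F := by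
  obtain ⟨hf1, hf2, hf3⟩ := hf
  refine ⟨mlt_conj hg f hf1, ?_, ?_⟩
  · intro y
    obtain ⟨w, hw, hw'⟩ := hf2 (g⁻¹ y)
    refine ⟨g * w * g⁻¹, D.conj g hg w hw, ?_⟩
    simp only [Equiv.Perm.mul_apply]
    rw [hw']
  · intro w hw
    have h1 : g⁻¹ * w * g ∈ D.W := by
      have := D.conj g⁻¹ (inv_mem hg) w hw
      rwa [inv_inv] at this
    have h2 := hf3 _ h1
    have e1 : g * f * g⁻¹ * w = g * (f * (g⁻¹ * w * g)) * g⁻¹ := by group
    have e2 : w * (g * f * g⁻¹) = g * ((g⁻¹ * w * g) * f) * g⁻¹ := by group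
    rw [e1, e2, h2]

/-- `F`, written additively -/
def A : Type u := Additive ↥D.F

noncomputable instance : AddCommGroup D.A :=
  letI : CommGroup ↥D.F :=
    { (inferInstance : Group ↥D.F) with
      mul_comm := fun a b => Subtype.ext (D.F_comm a.2 b.2) }
  inferInstanceAs (AddCommGroup (Additive ↥D.F))

/-- the permutation of an element of `A` -/
def pm {D : Dat Q} (a : D.A) : Equiv.Perm Q := (Additive.toMul (α := ↥D.F) a).1

theorem pm_mem {D : Dat Q} (a : D.A) : pm a ∈ D.F := (Additive.toMul (α := ↥D.F) a).2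

theorem pm_mlt {D : Dat Q} (a : D.A) : pm a ∈ Mlt Q := (pm_mem a).1

theorem pm_gh {D : Dat Q} (a : D.A) : pm a ∈ Gh Q := mlt_le (pm_mlt a)

variable {D}

theorem pm_inj {a b : D.A} (h : pm a = pm b) : a = b := Subtype.ext h
theorem pm_add (a b : D.A) : pm (a + b) = pm a * pm b := rfl
theorem pm_neg (a : D.A) : pm (-a) = (pm a)⁻¹ := rfl
theorem pm_zero : pm (0 : D.A) = 1 := rfl
theorem pm_sub (a b : D.A) : pm (a - b) = pm a * (pm b)⁻¹ := by
  rw [sub_eq_add_neg, pm_add, pm_neg]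

variable (D) in
/-- the element of `A` given by a permutation in `F` -/
def el (g : Equiv.Perm Q) (hg : g ∈ D.F) : D.A := Additive.ofMul (α := ↥D.F) ⟨g, hg⟩

theorem pm_el {g : Equiv.Perm Q} (hg : g ∈ D.F) : pm (D.el g hg) = g := rfl

theorem el_pm (a : D.A) : D.el (pm a) (pm_mem a) = a := pm_inj rfl

open Classical in
variable (D) in
/-- total version -/
noncomputable def toA (g : Equiv.Perm Q) : D.A := if h : g ∈ D.F then D.el g h else 0

theorem pm_toA {g : Equiv.Perm Q} (hg : g ∈ D.F) : pm (D.toA g) = g := by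
  rw [toA, dif_pos hg, pm_el]

noncomputable instance : SMul (Gh Q) D.A where
  smul g a := D.el (g.1 * pm a * g.1⁻¹) (D.F_conj g.2 (pm_mem a))

theorem pm_smul (g : Gh Q) (a : D.A) : pm (g • a) = g.1 * pm a * g.1⁻¹ := rfl

noncomputable instance : DistribMulAction (Gh Q) D.A where
  one_smul a := pm_inj (by
    rw [pm_smul]
    change 1 * pm a * 1⁻¹ = pm a
    group)
  mul_smul g h a := pm_inj (by
    rw [pm_smul, pm_smul, pm_smul]
    change g.1 * h.1 * pm a * (g.1 * h.1)⁻¹ = _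
    group)
  smul_zero g := pm_inj (by
    rw [pm_smul, pm_zero]
    group)
  smul_add g a b := pm_inj (by
    rw [pm_smul, pm_add, pm_add, pm_smul, pm_smul]
    group)

/-- reflections as elements of `Gh Q` -/
noncomputable def sg (x : Q) : Gh Q := ⟨s x, s_mem x⟩
/-- `J` as an element of `Gh Q` -/
noncomputable def Jg : Gh Q := ⟨J, J_mem⟩

theorem sg_one : sg (1 : Q) = Jg := Subtype.ext s_one

theorem sg_mul_sg (x : Q) : sg x * sg x = 1 := Subtype.ext (s_mul_s x)

theorem sg_inv (x : Q) : (sg x)⁻¹ = sg x := by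
  rw [inv_eq_iff_mul_eq_one]; exact sg_mul_sg x

theorem conj_sg (g : Gh Q) (x : Q) : g * sg x * g⁻¹ = sg (g.1 x) :=
  Subtype.ext (conj_s g.2 x)

theorem mul_sg (g : Gh Q) (x : Q) : g * sg x = sg (g.1 x) * g := by
  rw [← conj_sg]; group

theorem sg_smul_smul (x : Q) (a : D.A) : sg x • sg x • a = a := by
  rw [← mul_smul, sg_mul_sg, one_smul]

theorem smul_sg (g : Gh Q) (x : Q) (a : D.A) : g • sg x • a = sg (g.1 x) • g • a := by
  rw [← mul_smul, mul_sg, mul_smul]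

/-- `W` as a subgroup of `A` -/
def WA (D : Dat Q) : AddSubgroup D.A where
  carrier := {a | pm a ∈ D.W}
  zero_mem' := by
    change pm (0 : D.A) ∈ D.W
    rw [pm_zero]; exact one_mem _
  add_mem' := by
    intro a b ha hb
    change pm (a + b) ∈ D.W
    rw [pm_add]; exact mul_mem ha hb
  neg_mem' := by
    intro a ha
    change pm (-a) ∈ D.W
    rw [pm_neg]; exact inv_mem ha

theorem mem_WA {a : D.A} : a ∈ D.WA ↔ pm a ∈ D.W := Iff.rfl

theorem smul_WA (g : Gh Q) {a : D.A} (ha : a ∈ D.WA) : g • a ∈ D.WA := by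
  rw [mem_WA, pm_smul]; exact D.conj _ g.2 _ ha

theorem smul_WA_iff (g : Gh Q) {a : D.A} : g • a ∈ D.WA ↔ a ∈ D.WA := by
  refine ⟨fun h => ?_, smul_WA g⟩
  have := smul_WA g⁻¹ h
  rwa [inv_smul_smul] at this

/-- elements of `F` act trivially on `A` -/
theorem smul_F {g : Gh Q} (hg : g.1 ∈ D.F) (a : D.A) : g • a = a := by
  apply pm_inj
  rw [pm_smul, D.F_comm hg (pm_mem a)]; group

theorem min' (D : Dat Q) (U : AddSubgroup D.A) (hU : U ≤ D.WA)
    (hinv : ∀ g : Gh Q, ∀ a ∈ U, g • a ∈ U) (hne : ∃ a ∈ U, a ≠ 0) : D.WA ≤ U := by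
  let U' : Subgroup (Equiv.Perm Q) :=
    { carrier := {g | ∃ a ∈ U, pm a = g}
      one_mem' := ⟨0, zero_mem _, pm_zero⟩
      mul_mem' := by
        rintro _ _ ⟨a, ha, rfl⟩ ⟨b, hb, rfl⟩
        exact ⟨a + b, add_mem ha hb, pm_add a b⟩
      inv_mem' := by
        rintro _ ⟨a, ha, rfl⟩
        exact ⟨-a, neg_mem ha, pm_neg a⟩ }
  have h1 : D.W ≤ U' := by
    apply D.min U'
    · rintro _ ⟨a, ha, rfl⟩
      exact hU ha
    · rintro g hg _ ⟨a, ha, rfl⟩
      exact ⟨(⟨g, hg⟩ : Gh Q) • a, hinv _ a ha, pm_smul _ _⟩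
    · obtain ⟨a, ha, hne⟩ := hne
      refine ⟨pm a, ⟨a, ha, rfl⟩, fun h => hne (pm_inj (h.trans pm_zero.symm))⟩
  intro a ha
  obtain ⟨b, hb, hab⟩ := h1 ha
  rwa [← pm_inj hab]

/-- `η y a = a - s y a` -/
noncomputable def eta (y : Q) (a : D.A) : D.A := a - sg y • a

theorem eta_add (y : Q) (a b : D.A) : eta y (a + b) = eta y a + eta y b := by
  simp only [eta, smul_add]; abel

theorem eta_neg (y : Q) (a : D.A) : eta y (-a) = - eta y a := by
  simp only [eta, smul_neg]; abel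

theorem eta_sub (y : Q) (a b : D.A) : eta y (a - b) = eta y a - eta y b := by
  simp only [eta, smul_sub]; abel

theorem eta_zero (y : Q) : eta y (0 : D.A) = 0 := by
  simp only [eta, smul_zero, sub_zero]

theorem pm_eta (y : Q) (a : D.A) : pm (eta y a) = s (pm a y) * s y := by
  rw [eta, pm_sub, pm_smul, ← conj_s (pm_gh a)]
  change pm a * (s y * pm a * (s y)⁻¹)⁻¹ = pm a * s y * (pm a)⁻¹ * s y
  rw [mul_inv_rev, mul_inv_rev, inv_inv, s_inv]
  group

theorem smul_eta (g : Gh Q) (y : Q) (a : D.A) : g • eta y a = eta (g.1 y) (g • a) := by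
  simp only [eta, smul_sub, smul_sg]

/-- `V_y` -/
def Vy (D : Dat Q) (y : Q) : AddSubgroup D.A where
  carrier := {a | a ∈ D.WA ∧ sg y • a = -a}
  zero_mem' := ⟨zero_mem _, by rw [smul_zero, neg_zero]⟩
  add_mem' := by
    rintro a b ⟨ha1, ha2⟩ ⟨hb1, hb2⟩
    refine ⟨add_mem ha1 hb1, ?_⟩
    rw [smul_add, ha2, hb2]; abel
  neg_mem' := by
    rintro a ⟨ha1, ha2⟩
    refine ⟨neg_mem ha1, ?_⟩
    rw [smul_neg, ha2]

theorem mem_Vy {y : Q} {a : D.A} : a ∈ D.Vy y ↔ a ∈ D.WA ∧ sg y • a = -a := Iff.rfl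

theorem smul_Vy (g : Gh Q) {y : Q} {a : D.A} (ha : a ∈ D.Vy y) : g • a ∈ D.Vy (g.1 y) := by
  refine ⟨smul_WA g ha.1, ?_⟩
  rw [← smul_sg, ha.2, smul_neg]

theorem eta_of_Vy {y : Q} {a : D.A} (ha : a ∈ D.Vy y) : eta y a = a + a := by
  rw [eta, ha.2]; abel

variable [Finite Q]

instance : Finite D.A := inferInstanceAs (Finite (Additive ↥D.F))

theorem eta_ext (hodd : Odd (Nat.card Q)) {a b : D.A} (h : ∀ y, eta y a = eta y b) : a = b := by
  apply pm_inj
  ext y
  have h1 := congrArg pm (h y)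
  rw [pm_eta, pm_eta] at h1
  exact s_inj hodd (mul_right_cancel h1)

theorem eta_pt (hodd : Odd (Nat.card Q)) {a b : D.A} {y : Q} :
    eta y a = eta y b ↔ pm a y = pm b y := by
  constructor
  · intro h
    have h1 := congrArg pm h
    rw [pm_eta, pm_eta] at h1
    exact s_inj hodd (mul_right_cancel h1)
  · intro h
    apply pm_inj
    rw [pm_eta, pm_eta, h]

theorem eta_pt_zero (hodd : Odd (Nat.card Q)) {a : D.A} {y : Q} :
    eta y a = 0 ↔ pm a y = y := by
  rw [← eta_zero (D := D) y, eta_pt hodd, pm_zero]; rfl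

theorem eta_mem (hodd : Odd (Nat.card Q)) (y : Q) (a : D.A) : eta y a ∈ D.Vy y := by
  obtain ⟨w, hw, hw'⟩ := (pm_mem a).2.1 y
  have h1 : eta y a = eta y (D.el w (D.W_le_F hw)) := by
    rw [eta_pt hodd, pm_el, hw']
  have hW : D.el w (D.W_le_F hw) ∈ D.WA := hw
  rw [h1]
  refine ⟨?_, ?_⟩
  · rw [eta]; exact sub_mem hW (smul_WA _ hW)
  · rw [eta, smul_sub, sg_smul_smul]; abel

theorem p_smul (hodd : Odd (Nat.card Q)) (a : D.A) : D.p • a = 0 := by
  apply eta_ext hodd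
  intro y
  have h1 : ∀ n : ℕ, eta y (n • a) = n • eta y a := by
    intro n
    induction n with
    | zero => rw [zero_smul, zero_smul, eta_zero]
    | succ n ih => rw [succ_nsmul, succ_nsmul, eta_add, ih]
  rw [h1, eta_zero]
  apply pm_inj
  have h2 : pm (D.p • eta y a) = (pm (eta y a)) ^ D.p := rfl
  rw [h2, D.exp _ (eta_mem hodd y a).1]; rfl

theorem p_odd (D : Dat Q) (hodd : Odd (Nat.card Q)) : Odd D.p := by
  apply D.hp.odd_of_ne_two
  intro h2
  have hW2 : IsPGroup 2 D.W := by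
    rintro ⟨w, hw⟩
    refine ⟨1, Subtype.ext ?_⟩
    have := D.exp w hw
    rw [h2] at this
    simpa using this
  obtain ⟨z, hz⟩ := exists_fixed hodd hW2
  obtain ⟨w, hw, hne⟩ := D.ne
  apply hne
  ext y
  have hg : L z * (L y)⁻¹ ∈ Gh Q := mul_mem (mlt_le (L_mem z)) (inv_mem (mlt_le (L_mem y)))
  have h1 := hz _ (D.conj _ hg w hw)
  have hy : (L y)⁻¹ y = 1 := by rw [Equiv.Perm.inv_eq_iff_eq, L_one']
  have hz' : (L z)⁻¹ z = 1 := by rw [Equiv.Perm.inv_eq_iff_eq, L_one']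
  rw [mul_inv_rev, inv_inv] at h1
  simp only [Equiv.Perm.mul_apply] at h1
  rw [hz', L_one'] at h1
  have h3 : (L y)⁻¹ (w y) = 1 := (L z).injective (h1.trans (L_one' z).symm)
  rw [Equiv.Perm.inv_eq_iff_eq, L_one'] at h3
  exact h3

theorem two (hodd : Odd (Nat.card Q)) {a : D.A} (h : a + a = 0) : a = 0 := by
  obtain ⟨m, hm⟩ := D.p_odd hodd
  have h1 := p_smul hodd a
  rw [hm, add_smul, mul_comm, mul_smul, two_smul, h, smul_zero, zero_add, one_smul] at h1
  exact h1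

theorem two_inj (hodd : Odd (Nat.card Q)) {a b : D.A} (h : a + a = b + b) : a = b := by
  have : (a - b) + (a - b) = 0 := by
    have : (a - b) + (a - b) = (a + a) - (b + b) := by abel
    rw [this, h, sub_self]
  exact sub_eq_zero.1 (two hodd this)

/-- halving inside any subgroup -/
theorem half (hodd : Odd (Nat.card Q)) (U : AddSubgroup D.A) {a : D.A} (ha : a ∈ U) :
    ∃ b ∈ U, b + b = a := by
  obtain ⟨m, hm⟩ := D.p_odd hodd
  refine ⟨(m + 1) • a, nsmul_mem ha _, ?_⟩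
  rw [← add_smul]
  have : m + 1 + (m + 1) = D.p + 1 := by omega
  rw [this, add_smul, p_smul hodd, zero_add, one_smul]

theorem free (hodd : Odd (Nat.card Q)) {y z : Q} {a : D.A} (ha : a ∈ D.Vy y)
    (hz : pm a z = z) : a = 0 := by
  obtain ⟨b, hb, hba⟩ := half hodd _ ha
  have h1 : eta y b = a := by rw [eta_of_Vy hb, hba]
  have h2 : pm a = s (pm b y) * s y := by rw [← h1, pm_eta]
  rw [h2] at hz
  have h3 := semireg hodd hz
  rw [h3, s_mul_s] at h2
  exact pm_inj h2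

theorem free2 (hodd : Odd (Nat.card Q)) {y z : Q} {a b : D.A} (ha : a ∈ D.Vy y)
    (hb : b ∈ D.Vy y) (hz : pm a z = pm b z) : a = b := by
  have h1 : pm (-b + a) z = z := by
    rw [pm_add, pm_neg, Equiv.Perm.mul_apply, hz]
    exact (pm b).symm_apply_apply z
  have h2 := free hodd (add_mem (neg_mem hb) ha) h1
  rw [neg_add_eq_zero] at h2
  exact h2.symm

/-- every point of the orbit of `y` is reached by an element of `V_y` -/
theorem exists_Vy (hodd : Odd (Nat.card Q)) (y : Q) (a : D.A) :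
    ∃ v ∈ D.Vy y, pm v y = pm a y ∧ v + v = eta y a := by
  obtain ⟨b, hb, hba⟩ := half hodd _ (eta_mem hodd y a)
  refine ⟨b, hb, ?_, hba⟩
  rw [← eta_pt hodd, eta_of_Vy hb, hba]

theorem V_ne (D : Dat Q) (hodd : Odd (Nat.card Q)) (y : Q) : ∃ v ∈ D.Vy y, v ≠ 0 := by
  by_contra hcon
  push Not at hcon
  obtain ⟨w, hw, hne⟩ := D.ne
  apply hne
  have h1 : ∀ w ∈ D.W, w y = y := by
    intro w hw
    have h2 := hcon _ (eta_mem hodd y (D.el w (D.W_le_F hw)))
    rw [eta_pt_zero hodd] at h2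
    exact h2
  ext z
  have hg : L y * (L z)⁻¹ ∈ Gh Q := mul_mem (mlt_le (L_mem y)) (inv_mem (mlt_le (L_mem z)))
  have h2 := h1 _ (D.conj _ hg w hw)
  have hy : (L y)⁻¹ y = 1 := by rw [Equiv.Perm.inv_eq_iff_eq, L_one']
  rw [mul_inv_rev, inv_inv] at h2
  simp only [Equiv.Perm.mul_apply] at h2
  rw [hy, L_one'] at h2
  have h3 : (L z)⁻¹ (w z) = 1 := (L y).injective (h2.trans (L_one' y).symm)
  rw [Equiv.Perm.inv_eq_iff_eq, L_one'] at h3
  exact h3

/-- `η y` maps `V_z` onto `V_y` -/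
theorem eta_surj (hodd : Odd (Nat.card Q)) (z y : Q) {a : D.A} (ha : a ∈ D.Vy y) :
    ∃ v ∈ D.Vy z, eta y v = a := by
  let g : Gh Q := ⟨L z * (L y)⁻¹, mul_mem (mlt_le (L_mem z)) (inv_mem (mlt_le (L_mem y)))⟩
  have hgy : g.1 y = z := by
    change (L z * (L y)⁻¹) y = z
    have hy : (L y)⁻¹ y = 1 := by rw [Equiv.Perm.inv_eq_iff_eq, L_one']
    rw [Equiv.Perm.mul_apply, hy, L_one']
  let f : D.Vy y → D.Vy y := fun v => ⟨eta y (g • v.1), eta_mem hodd y _⟩
  have hf : Function.Injective f := by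
    intro v w h
    have h1 : eta y (g • v.1) = eta y (g • w.1) := congrArg Subtype.val h
    rw [eta_pt hodd] at h1
    have hv : g • v.1 ∈ D.Vy z := by rw [← hgy]; exact smul_Vy g v.2
    have hw : g • w.1 ∈ D.Vy z := by rw [← hgy]; exact smul_Vy g w.2
    have h2 := free2 hodd hv hw h1
    exact Subtype.ext (smul_left_cancel g h2)
  obtain ⟨v, hv⟩ := Finite.surjective_of_injective hf ⟨a, ha⟩
  refine ⟨g • v.1, ?_, congrArg Subtype.val hv⟩
  rw [← hgy]; exact smul_Vy g v.2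

/-- the groups `V_y` generate `W` -/
theorem gen (hodd : Odd (Nat.card Q)) (X : AddSubgroup D.A) (hX : ∀ y, D.Vy y ≤ X) :
    D.WA ≤ X := by
  have h1 : D.WA ≤ ⨆ y, D.Vy y := by
    apply D.min'
    · exact iSup_le fun y a ha => ha.1
    · intro g a ha
      induction ha using AddSubgroup.iSup_induction' with
      | hp y a ha =>
        exact (le_iSup (fun y => D.Vy y) (g.1 y)) (smul_Vy g ha)
      | h1 => rw [smul_zero]; exact zero_mem _
      | hadd a b _ _ iha ihb => rw [smul_add]; exact add_mem iha ihb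
    · obtain ⟨v, hv, hne⟩ := D.V_ne hodd 1
      exact ⟨v, (le_iSup (fun y => D.Vy y) 1) hv, hne⟩
  exact h1.trans (iSup_le hX)

/-- the key criterion for centralising `W` -/
theorem fact2 (hodd : Odd (Nat.card Q)) (b : Gh Q) (z : Q) (hV : ∀ v ∈ D.Vy z, b • v = v)
    (hs : ∀ y, ∀ a ∈ D.WA, sg (b.1 y) • a = sg y • a) : ∀ a ∈ D.WA, b • a = a := by
  let X : AddSubgroup D.A :=
    { carrier := {a | b • a = a}
      zero_mem' := smul_zero _
      add_mem' := by
        intro a c ha hc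
        change b • (a + c) = a + c
        rw [smul_add, ha, hc]
      neg_mem' := by
        intro a ha
        change b • (-a) = -a
        rw [smul_neg, ha] }
  have h1 : D.WA ≤ X := by
    apply gen hodd
    intro y a ha
    obtain ⟨v, hv, hva⟩ := eta_surj hodd z y ha
    change b • a = a
    rw [← hva, smul_eta, hV v hv, eta, eta, hs y v hv.1]
  exact h1

omit [Finite Q] in
/-- reflections at points of the same `W`-orbit act in the same way -/
theorem sg_orbit (y : Q) (b : D.A) {a : D.A} :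
    sg (pm b y) • a = sg y • a := by
  have h1 : sg (pm b y) = (⟨pm (eta y b), pm_gh _⟩ : Gh Q) * sg y := by
    apply Subtype.ext
    change s (pm b y) = pm (eta y b) * s y
    rw [pm_eta, mul_assoc, s_mul_s, mul_one]
  rw [h1, mul_smul, smul_F (pm_mem _)]

omit [Finite Q] in
theorem Vy_orbit (y : Q) (b : D.A) {a : D.A} :
    a ∈ D.Vy (pm b y) ↔ a ∈ D.Vy y := by
  rw [mem_Vy, mem_Vy, sg_orbit]

end Dat

end Pool.Agent.W328.OD
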