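import Pool.Agent.W328.OD.Main3

/-!
The induction.
-/

set_option autoImplicit false
set_option linter.unusedSectionVars false

namespace Pool.Agent.W328.OD

open H361AL
open scoped commutatorElement

universe u

section exi

variable {Q : Type u} [Loop Q] [Automorphic Q]

theorem exists_Dat [Finite Q] (hodd : Odd (Nat.card Q)) (hs : Group.IsSolvable (N Q))
    (hcard : 1 < Nat.card Q) : Nonempty (Dat Q) := by
  have hN : ∃ g ∈ N Q, g ≠ 1 := by
    rw [Finite.one_lt_card_iff_nontrivial] at hcard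
    obtain ⟨a, ha⟩ := exists_ne (1 : Q)
    refine ⟨s a * s 1, P_mem_N a, fun h => ha ?_⟩
    rw [mul_eq_one_iff_eq_inv, s_inv] at h
    exact s_inj hodd h
  let S : Set (Subgroup (Equiv.Perm Q)) :=
    {H | H ≤ N Q ∧ (∃ g ∈ H, g ≠ 1) ∧ ∀ g ∈ Gh Q, ∀ k ∈ H, g * k * g⁻¹ ∈ H}
  have hS : S.Nonempty := ⟨N Q, le_rfl, hN, fun g hg k hk => N_conj hg hk⟩
  obtain ⟨W, ⟨hW1, hW2, hW3⟩, hmin⟩ := Set.exists_min_image S
    (fun H => Nat.card H) (Set.toFinite _) hS
  have hmin' : ∀ U : Subgroup (Equiv.Perm Q), U ≤ W →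
      (∀ g ∈ Gh Q, ∀ w ∈ U, g * w * g⁻¹ ∈ U) → (∃ w ∈ U, w ≠ 1) → W ≤ U := by
    intro U hU hinv hne
    have h1 := hmin U ⟨hU.trans hW1, hne, hinv⟩
    exact (Subgroup.eq_of_le_of_card_ge hU h1).ge
  have hcomm : ∀ v ∈ W, ∀ w ∈ W, v * w = w * v := by
    by_contra hcon
    push Not at hcon
    obtain ⟨v, hv, w, hw, hvw⟩ := hcon
    have h1 : W ≤ ⁅W, W⁆ := by
      apply hmin'
      · rw [Subgroup.commutator_le]
        intro a ha b hb
        rw [commutatorElement_def]
        exact mul_mem (mul_mem (mul_mem ha hb) (inv_mem ha)) (inv_mem hb)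
      · intro g hg k hk
        have hle : (⁅W, W⁆).map (MulAut.conj g).toMonoidHom ≤ ⁅W, W⁆ := by
          rw [Subgroup.map_commutator]
          have hWg : W.map (MulAut.conj g).toMonoidHom ≤ W := by
            rintro _ ⟨x, hx, rfl⟩
            exact hW3 g hg x hx
          exact Subgroup.commutator_mono hWg hWg
        exact hle ⟨k, hk, rfl⟩
      · refine ⟨⁅v, w⁆, Subgroup.commutator_mem_commutator hv hw, fun h => hvw ?_⟩
        rwa [commutatorElement_eq_one_iff_mul_comm] at h
    have hsW : Group.IsSolvable W :=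
      Group.isSolvable_of_isSolvable_injective (Subgroup.inclusion_injective hW1)
    have hntW : Nontrivial W := by
      obtain ⟨g, hg, hg1⟩ := hW2
      exact ⟨⟨g, hg⟩, 1, fun h => hg1 (congrArg Subtype.val h)⟩
    have h2 := Group.IsSolvable.commutator_lt_top_of_nontrivial W
    apply h2.ne
    rw [eq_top_iff]
    intro x _
    have h3 : x.1 ∈ (commutator W).map W.subtype := by
      rw [Subgroup.map_subtype_commutator]
      exact h1 x.2
    obtain ⟨y, hy, hyx⟩ := h3
    have : y = x := Subtype.ext hyx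
    rwa [← this]
  have hcW : 1 < Nat.card W := by
    rw [Finite.one_lt_card_iff_nontrivial]
    obtain ⟨g, hg, hg1⟩ := hW2
    exact ⟨⟨g, hg⟩, 1, fun h => hg1 (congrArg Subtype.val h)⟩
  obtain ⟨p, hp, hpW⟩ := Nat.exists_prime_and_dvd hcW.ne'
  have hfp : Fact p.Prime := ⟨hp⟩
  obtain ⟨c, hc⟩ := exists_prime_orderOf_dvd_card' p hpW
  let U : Subgroup (Equiv.Perm Q) :=
    { carrier := {w | w ∈ W ∧ w ^ p = 1}
      one_mem' := ⟨one_mem _, one_pow _⟩
      mul_mem' := by
        rintro a b ⟨ha, ha'⟩ ⟨hb, hb'⟩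
        refine ⟨mul_mem ha hb, ?_⟩
        have : Commute a b := hcomm a ha b hb
        rw [this.mul_pow, ha', hb', one_mul]
      inv_mem' := by
        rintro a ⟨ha, ha'⟩
        exact ⟨inv_mem ha, by rw [inv_pow, ha', inv_one]⟩ }
  have hU : W ≤ U := by
    apply hmin' U (fun w hw => hw.1)
    · rintro g hg w ⟨hw, hw'⟩
      refine ⟨hW3 g hg w hw, ?_⟩
      rw [conj_pow, hw']; group
    · refine ⟨c.1, ⟨c.2, ?_⟩, ?_⟩
      · have : c ^ p = 1 := by rw [← hc]; exact pow_orderOf_eq_one c
        exact congrArg Subtype.val this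
      · intro h
        have : c = 1 := Subtype.ext h
        rw [this, orderOf_one] at hc
        exact hp.one_lt.ne hc
  exact ⟨{ W := W, p := p, hp := hp, le_N := hW1, comm := hcomm, exp := fun w hw => (hU hw).2,
           conj := hW3, ne := hW2, min := hmin' }⟩

end exi

section card

variable {Q : Type u} [Loop Q] [Automorphic Q] {K : Subgroup (Equiv.Perm Q)} (h : NK K)

instance [Finite Q] : Finite (QT h) := Finite.of_surjective _ (qm_surj h)

theorem card_QT : Nat.card Q = Nat.card (QT h) * Nat.card {y : Q // qm h y = 1} := by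
  have e1 : Q ≃ Σ a : QT h, {x : Q // qm h x = a} := (Equiv.sigmaFiberEquiv (qm h)).symm
  have e2 : ∀ a : QT h, {x : Q // qm h x = a} ≃ {y : Q // qm h y = 1} := by
    intro a
    have hx : qm h (Function.surjInv (qm_surj h) a) = a := Function.surjInv_eq (qm_surj h) a
    set x := Function.surjInv (qm_surj h) a with hxdef
    refine
      { toFun := fun z => ⟨(L x)⁻¹ z.1, ?_⟩
        invFun := fun y => ⟨x * y.1, ?_⟩
        left_inv := ?_
        right_inv := ?_ }
    · have h1 : qm h (x * (L x)⁻¹ z.1) = a := by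
        have : x * (L x)⁻¹ z.1 = z.1 := (L x).apply_symm_apply z.1
        rw [this]; exact z.2
      rw [qm_mul, hx] at h1
      apply (bij_left a).1
      change a * _ = a * 1
      rw [h1, Loop.mul_one']
    · rw [qm_mul, hx, y.2, Loop.mul_one']
    · intro z
      exact Subtype.ext ((L x).apply_symm_apply z.1)
    · intro y
      exact Subtype.ext ((L x).symm_apply_apply y.1)
  rw [Nat.card_congr (e1.trans ((Equiv.sigmaCongrRight e2).trans (Equiv.sigmaEquivProd _ _))),
    Nat.card_prod]

end card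

namespace Dat

variable {Q : Type u} [Loop Q] [Automorphic Q] {D : Dat Q}

theorem NK_P0 (D : Dat Q) : NK D.P0 := ⟨fun _ hc => P0_mlt hc, fun _ hg _ hk => P0_conj hg hk⟩

/-- the quotient by `P0` -/
def qd (D : Dat Q) : QD D (QT D.NK_P0) where
  f := qm D.NK_P0
  π := qpi D.NK_P0
  surj := qm_surj _
  f_mul _ _ := rfl
  fib _ _ := qm_eq _
  π_f _ _ := rfl

theorem main (n : ℕ) : ∀ (Q : Type u) [Loop Q] [Automorphic Q] [Finite Q], Nat.card Q ≤ n →
    Odd (Nat.card Q) → Group.IsSolvable (N Q) →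
    ∀ D : Dat Q, ∀ w ∈ D.Vy 1, ∀ X, lam X w = 0 := by
  induction n with
  | zero =>
    intro Q _ _ _ h0 hodd
    have : Nat.card Q = 0 := by omega
    rw [this] at hodd
    exact absurd hodd (by decide)
  | succ n ihn =>
    intro Q _ _ _ hcard hodd hs D
    by_cases hnc : ∀ a : D.A, (∀ g : Gh Q, g • a ∈ D.Vy 1) → a = 0
    · have hcq := card_QT D.NK_P0
      set k := Nat.card {y : Q // qm D.NK_P0 y = 1} with hk
      have hodd' : Odd (Nat.card (QT D.NK_P0)) := by
        rw [hcq] at hodd
        exact Nat.Odd.of_mul_left hodd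
      obtain ⟨v, hv, hv0⟩ := D.V_ne hodd 1
      have hk2 : 2 ≤ k := by
        have : Nontrivial {y : Q // qm D.NK_P0 y = 1} := by
          refine ⟨⟨pm v 1, ?_⟩, ⟨1, rfl⟩, ?_⟩
          · rw [← qm_one, qm_eq]
            exact ⟨(pm v)⁻¹, inv_mem (D.W_le_P0 hv.1), (pm v).symm_apply_apply 1⟩
          · intro h
            exact hv0 (free hodd hv (congrArg Subtype.val h))
        exact Finite.one_lt_card_iff_nontrivial.2 this
      have hpos : 0 < Nat.card (QT D.NK_P0) := Nat.card_pos
      have hle : Nat.card (QT D.NK_P0) ≤ n := by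
        have : Nat.card (QT D.NK_P0) * 2 ≤ Nat.card (QT D.NK_P0) * k :=
          Nat.mul_le_mul_left _ hk2
        omega
      have hcq1 : 1 < Nat.card (QT D.NK_P0) := by
        by_contra hcon
        have h1 : Nat.card (QT D.NK_P0) = 1 := by omega
        have hsub : Subsingleton (QT D.NK_P0) := (Nat.card_eq_one_iff_unique.1 h1).1
        apply hv0
        apply hnc
        intro g
        have h2 := smul_Vy g hv
        have h3 : qm D.NK_P0 1 = qm D.NK_P0 (g.1 1) := Subsingleton.elim _ _
        rw [qm_eq] at h3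
        obtain ⟨c, hc, hc1⟩ := h3
        refine ⟨h2.1, ?_⟩
        rw [← hc1] at h2
        rw [← h2.2, sg_P0 hc 1 h2.1]
      have hs' := solv_QT D.NK_P0 hs
      obtain ⟨D'⟩ := exists_Dat hodd' hs' hcq1
      have h1 := ihn (QT D.NK_P0) hle hodd' hs' D'
      exact D.qd.nc_main hodd hodd' hnc D'
        (fun v hv => (lam_iff hodd' hv).1 (h1 v hv))
    · push Not at hnc
      obtain ⟨a, ha, hne⟩ := hnc
      let U : AddSubgroup D.A :=
        { carrier := {a | ∀ g : Gh Q, g • a ∈ D.Vy 1}
          zero_mem' := fun g => by rw [smul_zero]; exact zero_mem _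
          add_mem' := by
            intro a b ha hb g
            rw [smul_add]; exact add_mem (ha g) (hb g)
          neg_mem' := by
            intro a ha g
            rw [smul_neg]; exact neg_mem (ha g) }
      have hU : D.WA ≤ U := by
        apply D.min'
        · intro b hb
          have := hb 1
          rw [one_smul] at this
          exact this.1
        · intro g b hb g'
          rw [← mul_smul]; exact hb (g' * g)
        · exact ⟨a, ha, hne⟩
      apply c_main hodd
      intro b hb y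
      have h1 := hU hb (Lg y)⁻¹
      have h2 := Lg_Vy y h1
      rwa [smul_inv_smul] at h2

end Dat

/-- the main theorem -/
theorem middle (Q : Type u) [Loop Q] [Automorphic Q] [Finite Q] (hodd : Odd (Nat.card Q))
    (hcard : 1 < Nat.card Q) (hs : Group.IsSolvable (N Q)) :
    ∃ a : Q, a ≠ 1 ∧ ∀ x y : Q, (x * a) * y = x * (a * y) := by
  obtain ⟨D⟩ := exists_Dat hodd hs hcard
  obtain ⟨v, hv, hv0⟩ := D.V_ne hodd 1
  refine ⟨Dat.pm v 1, fun h => hv0 (Dat.free hodd hv h), ?_⟩
  exact (Dat.lam_iff hodd hv).1 (Dat.main (Nat.card Q) Q le_rfl hodd hs D v hv)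

end Pool.Agent.W328.OD
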