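import Pool.Agent.W328.OD.Basic

/-!
Irreducibility of `V_1` under the inner mappings, and `L_{u 1}` centralises `W`.
-/

set_option autoImplicit false

namespace Pool.Agent.W328.OD

open H361AL

universe u

variable {Q : Type u} [Loop Q] [Automorphic Q]

namespace Dat

variable {D : Dat Q}

/-- the permutation of `a` as an element of `Gh Q` -/
def pg (a : D.A) : Gh Q := ⟨pm a, pm_gh a⟩

theorem pg_smul (a b : D.A) : pg a • b = b := smul_F (pm_mem a) b

theorem ap_pm (g : Gh Q) (u : D.A) (y : Q) : g.1 (pm u y) = pm (g • u) (g.1 y) := by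
  rw [pm_smul, Equiv.Perm.mul_apply, Equiv.Perm.mul_apply]
  have : (g.1)⁻¹ (g.1 y) = y := g.1.symm_apply_apply y
  rw [this]

theorem Jg_V {u : D.A} (hu : u ∈ D.Vy 1) : (Jg : Gh Q) • u = -u := by
  rw [← sg_one]; exact hu.2

/-- elements fixing `1` preserve `V` -/
theorem smul_V (g : Gh Q) (hg : g.1 1 = 1) {u : D.A} (hu : u ∈ D.Vy 1) : g • u ∈ D.Vy 1 := by
  have := smul_Vy g hu
  rwa [hg] at this

theorem iv_V {u : D.A} (hu : u ∈ D.Vy 1) : iv (pm u 1) = pm (-u) 1 := by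
  have h1 := ap_pm (D := D) Jg u 1
  rw [Jg_V hu] at h1
  have h2 : (Jg : Gh Q).1 = J := rfl
  rw [h2, J_apply, J_apply, iv_one] at h1
  exact h1

/-- the inner mapping part of `g ∘ L y` -/
noncomputable def inn (g : Gh Q) (y : Q) : Gh Q := (Lg (g.1 y))⁻¹ * g * Lg y

theorem inn_one (g : Gh Q) (y : Q) : (inn g y).1 1 = 1 := by
  change ((L (g.1 y))⁻¹ * g.1 * L y) 1 = 1
  rw [Equiv.Perm.mul_apply, Equiv.Perm.mul_apply, L_one', Equiv.Perm.inv_eq_iff_eq, L_one']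

theorem inn_mlt {g : Gh Q} (hg : g.1 ∈ Mlt Q) (y : Q) : (inn g y).1 ∈ Mlt Q :=
  mul_mem (mul_mem (inv_mem (L_mem _)) hg) (L_mem _)

theorem inn_eq (g : Gh Q) (y z : Q) : g.1 (y * z) = g.1 y * (inn g y).1 z := by
  have : g * Lg y = Lg (g.1 y) * inn g y := by rw [inn]; group
  have h := congrArg (fun f : Gh Q => f.1 z) this
  exact h

section irr

variable (U : AddSubgroup D.A)

/-- `z ∈ y U` -/
def rel (y z : Q) : Prop := ∃ u ∈ U, z = y * pm u 1

variable (hU : U ≤ D.Vy 1)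
  (hinv : ∀ g : Gh Q, g.1 ∈ Mlt Q → g.1 1 = 1 → ∀ u ∈ U, g • u ∈ U)

theorem rel_refl (y : Q) : rel U y y := by
  refine ⟨0, zero_mem _, ?_⟩
  change y = y * 1
  rw [Loop.mul_one']

include hinv in
theorem rel_mlt {g : Gh Q} (hg : g.1 ∈ Mlt Q) {y z : Q} (h : rel U y z) :
    rel U (g.1 y) (g.1 z) := by
  obtain ⟨u, hu, rfl⟩ := h
  refine ⟨inn g y • u, hinv _ (inn_mlt hg y) (inn_one g y) u hu, ?_⟩
  rw [inn_eq, ap_pm, inn_one]

include hinv in
theorem rel_mul {u : D.A} (hu : u ∈ U) (y : Q) : rel U y (pm u 1 * y) := by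
  have h1 : rel U 1 (pm u 1) := ⟨u, hu, (Loop.one_mul' _).symm⟩
  have h2 := rel_mlt U hinv (g := Rg y) (R_mem y) h1
  change rel U (1 * y) (pm u 1 * y) at h2
  rwa [Loop.one_mul'] at h2

include hU hinv in
theorem rel_symm {y z : Q} (h : rel U y z) : rel U z y := by
  obtain ⟨u, hu, rfl⟩ := h
  have h1 : rel U (pm u 1) 1 := ⟨-u, neg_mem hu, by rw [← iv_V (hU hu), mul_iv]⟩
  have h2 := rel_mlt U hinv (g := Lg y) (L_mem y) h1
  change rel U (y * pm u 1) (y * 1) at h2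
  rwa [Loop.mul_one'] at h2

include hinv in
theorem rel_trans {x y z : Q} (hxy : rel U x y) (hyz : rel U y z) : rel U x z := by
  obtain ⟨u, hu, rfl⟩ := hxy
  obtain ⟨v, hv, rfl⟩ := hyz
  let g : Gh Q := (Lg x)⁻¹
  let φ : Gh Q := (pg u)⁻¹ * ((Lg x)⁻¹ * Lg (x * pm u 1))
  have hφ1 : φ.1 1 = 1 := by
    change ((pm u)⁻¹ * ((L x)⁻¹ * L (x * pm u 1))) 1 = 1
    rw [Equiv.Perm.mul_apply, Equiv.Perm.mul_apply, L_one', Equiv.Perm.inv_eq_iff_eq,
      Equiv.Perm.inv_eq_iff_eq, H361AL.L_apply]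
  have hφm : φ.1 ∈ Mlt Q :=
    mul_mem (inv_mem (pm_mlt u)) (mul_mem (inv_mem (L_mem _)) (L_mem _))
  refine ⟨u + φ • v, add_mem hu (hinv φ hφm hφ1 v hv), ?_⟩
  have h1 : Lg (x * pm u 1) = Lg x * (pg u * φ) := by
    change _ = Lg x * (pg u * ((pg u)⁻¹ * ((Lg x)⁻¹ * Lg (x * pm u 1))))
    group
  have h2 := congrArg (fun f : Gh Q => f.1 (pm v 1)) h1
  change x * pm u 1 * pm v 1 = x * pm u (φ.1 (pm v 1)) at h2
  rw [h2, ap_pm, hφ1, pm_add, Equiv.Perm.mul_apply]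

include hU hinv in
theorem rel_iv {y z : Q} (h : rel U y z) : rel U (iv y) (iv z) := by
  obtain ⟨u, hu, rfl⟩ := h
  rw [aaip, iv_V (hU hu)]
  exact rel_mul U hinv (neg_mem hu) _

include hU hinv in
theorem rel_gh {g : Equiv.Perm Q} (hg : g ∈ Gh Q) : ∀ y z : Q, rel U y z ↔ rel U (g y) (g z) := by
  induction hg using Subgroup.closure_induction with
  | mem g hg =>
    intro y z
    rcases hg with hg | hg
    · refine ⟨fun h => rel_mlt U hinv (g := ⟨g, mlt_le hg⟩) hg h, fun h => ?_⟩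
      have h2 := rel_mlt U hinv (g := ⟨g⁻¹, mlt_le (inv_mem hg)⟩) (inv_mem hg) h
      change rel U (g⁻¹ (g y)) (g⁻¹ (g z)) at h2
      have e : ∀ x, g⁻¹ (g x) = x := fun x => g.symm_apply_apply x
      rwa [e, e] at h2
    · rw [Set.mem_singleton_iff] at hg
      rw [hg, J_apply, J_apply]
      refine ⟨rel_iv U hU hinv, fun h => ?_⟩
      have := rel_iv U hU hinv h
      rwa [iv_iv, iv_iv] at this
  | one => intro y z; exact Iff.rfl
  | mul g h _ _ ihg ihh =>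
    intro y z
    rw [Equiv.Perm.mul_apply, Equiv.Perm.mul_apply, ← ihg, ← ihh]
  | inv g _ ih =>
    intro y z
    rw [ih (g⁻¹ y) (g⁻¹ z)]
    have e : ∀ x, g (g⁻¹ x) = x := fun x => g.apply_symm_apply x
    rw [e, e]

variable [Finite Q]

/-- `V` is irreducible under the inner mappings -/
theorem irr (hodd : Odd (Nat.card Q)) (U : AddSubgroup D.A) (hU : U ≤ D.Vy 1)
    (hinv : ∀ g : Gh Q, g.1 ∈ Mlt Q → g.1 1 = 1 → ∀ u ∈ U, g • u ∈ U)
    (hne : ∃ u ∈ U, u ≠ 0) : D.Vy 1 ≤ U := by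
  let X : AddSubgroup D.A :=
    { carrier := {a | a ∈ D.WA ∧ ∀ y, rel U y (pm a y)}
      zero_mem' := ⟨zero_mem _, fun y => rel_refl U y⟩
      add_mem' := by
        rintro a b ⟨ha, ha'⟩ ⟨hb, hb'⟩
        refine ⟨add_mem ha hb, fun y => ?_⟩
        rw [pm_add, Equiv.Perm.mul_apply]
        exact rel_trans U hinv (hb' y) (ha' _)
      neg_mem' := by
        rintro a ⟨ha, ha'⟩
        refine ⟨neg_mem ha, fun y => ?_⟩
        have h := ha' (pm (-a) y)
        rw [pm_neg] at h ⊢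
        have e : pm a ((pm a)⁻¹ y) = y := (pm a).apply_symm_apply y
        rw [e] at h
        exact rel_symm U hU hinv h }
  have h1 : D.WA ≤ X := by
    apply D.min'
    · exact fun a ha => ha.1
    · rintro g a ⟨ha, ha'⟩
      refine ⟨smul_WA g ha, fun y => ?_⟩
      have h := (rel_gh U hU hinv g.2 _ _).1 (ha' (g⁻¹.1 y))
      rw [ap_pm] at h
      have e : g.1 (g⁻¹.1 y) = y := g.1.apply_symm_apply y
      rwa [e] at h
    · obtain ⟨u, hu, hne⟩ := hne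
      refine ⟨u, ⟨(hU hu).1, fun y => ?_⟩, hne⟩
      obtain ⟨b, hb, hbu⟩ := half hodd U hu
      have h1 : pm u = s (pm b 1) * s 1 := by
        rw [← pm_eta, eta_of_Vy (hU hb), hbu]
      set z := (R (iv (pm b 1)))⁻¹ y with hz
      have h2 : y = z * pm (-b) 1 := by
        rw [← iv_V (hU hb)]
        have : R (iv (pm b 1)) z = y := (R (iv (pm b 1))).apply_symm_apply y
        exact this.symm
      have h3 : pm u y = pm b 1 * z := by
        rw [h1, P_eq]; rfl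
      rw [h3]
      exact rel_trans U hinv (rel_symm U hU hinv ⟨-b, neg_mem hb, h2⟩) (rel_mul U hinv hb z)
  intro v hv
  obtain ⟨_, h2⟩ := h1 hv.1
  obtain ⟨u, hu, h3⟩ := h2 1
  rw [Loop.one_mul'] at h3
  rw [free2 hodd hv (hU hu) h3]
  exact hu

end irr

/-- the bracket on `V` -/
noncomputable def Bf (u v : D.A) : D.A := Lg (pm u 1) • v - v

theorem Lg_V (u : D.A) (v : D.A) : Lg (pm u 1) • v = v + Bf u v := by rw [Bf]; abel

/-- the inner mapping `u⁻¹ L_{u 1}` -/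
noncomputable def ph (u : D.A) : Gh Q := (pg u)⁻¹ * Lg (pm u 1)

theorem ph_one (u : D.A) : (ph u).1 1 = 1 := by
  change ((pm u)⁻¹ * L (pm u 1)) 1 = 1
  rw [Equiv.Perm.mul_apply, L_one', Equiv.Perm.inv_eq_iff_eq]

theorem ph_mlt (u : D.A) : (ph u).1 ∈ Mlt Q := mul_mem (inv_mem (pm_mlt u)) (L_mem _)

theorem ph_smul (u v : D.A) : ph u • v = v + Bf u v := by
  rw [← Lg_V, ph, mul_smul]
  exact smul_F (inv_mem (pm_mem u)) _

theorem Bf_mem {u v : D.A} (hv : v ∈ D.Vy 1) : Bf u v ∈ D.Vy 1 := by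
  have h := smul_V (ph u) (ph_one u) hv
  rw [ph_smul] at h
  have := sub_mem h hv
  rwa [add_sub_cancel_left] at this

theorem Bf_add (u v w : D.A) : Bf u (v + w) = Bf u v + Bf u w := by
  simp only [Bf, smul_add]; abel

theorem Bf_neg (u v : D.A) : Bf u (-v) = - Bf u v := by
  simp only [Bf, smul_neg]; abel

theorem Bf_zero (u : D.A) : Bf u 0 = 0 := by
  simp only [Bf, smul_zero, sub_zero]

theorem mul_pm (x : Q) (u : D.A) (y : Q) : x * pm u y = pm (Lg x • u) (x * y) :=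
  ap_pm (Lg x) u y

theorem pm_mul (x : Q) (u : D.A) (y : Q) : pm u y * x = pm (Rg x • u) (y * x) :=
  ap_pm (Rg x) u y

theorem Jg_mul_Jg : (Jg : Gh Q) * Jg = 1 := Subtype.ext J_mul_J

theorem Rg_eq (x : Q) : (Rg x : Gh Q) = Jg * Lg (iv x) * Jg := by
  apply Subtype.ext
  change R x = J * L (iv x) * J
  rw [JLJ, iv_iv]

theorem Lg_eq (x : Q) : (Lg x : Gh Q) = Jg * Rg (iv x) * Jg := by
  apply Subtype.ext
  change L x = J * R (iv x) * J
  rw [JRJ, iv_iv]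

theorem Rg_V {u v : D.A} (hu : u ∈ D.Vy 1) (hv : v ∈ D.Vy 1) :
    Rg (pm v 1) • u = u + Bf (-v) u := by
  rw [Rg_eq, iv_V hv, mul_smul, mul_smul, Jg_V hu, smul_neg, smul_neg, Lg_V,
    Jg_V (add_mem hu (Bf_mem hu))]
  abel

variable [Finite Q]

theorem Bf_symm (hodd : Odd (Nat.card Q)) {u v : D.A} (hu : u ∈ D.Vy 1) (hv : v ∈ D.Vy 1) :
    Bf u v = Bf (-v) u := by
  have h1 : pm u 1 * pm v 1 = pm (v + Bf u v + u) 1 := by
    rw [mul_pm, Loop.mul_one', Lg_V, pm_add (v + Bf u v), Equiv.Perm.mul_apply]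
  have h2 : pm u 1 * pm v 1 = pm (u + Bf (-v) u + v) 1 := by
    rw [pm_mul, Loop.one_mul', Rg_V hu hv, pm_add (u + Bf (-v) u), Equiv.Perm.mul_apply]
  rw [h1] at h2
  have h3 := free2 hodd (add_mem (add_mem hv (Bf_mem hv)) hu)
    (add_mem (add_mem hu (Bf_mem hu)) hv) h2
  have h4 : Bf u v = (v + Bf u v + u) - u - v := by abel
  rw [h4, h3]; abel

theorem Bf_add_left (hodd : Odd (Nat.card Q)) {u u' v : D.A} (hu : u ∈ D.Vy 1)
    (hu' : u' ∈ D.Vy 1) (hv : v ∈ D.Vy 1) : Bf (u + u') v = Bf u v + Bf u' v := by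
  rw [Bf_symm hodd (add_mem hu hu') hv, Bf_symm hodd hu hv, Bf_symm hodd hu' hv, Bf_add]

theorem Bf_zero_left (hodd : Odd (Nat.card Q)) {v : D.A} (hv : v ∈ D.Vy 1) : Bf 0 v = 0 := by
  rw [Bf_symm hodd (zero_mem _) hv, Bf_zero]

theorem Bf_neg_left (hodd : Odd (Nat.card Q)) {u v : D.A} (hu : u ∈ D.Vy 1)
    (hv : v ∈ D.Vy 1) : Bf (-u) v = - Bf u v := by
  have h := Bf_add_left hodd hu (neg_mem hu) hv
  rw [add_neg_cancel, Bf_zero_left hodd hv] at h
  exact (neg_eq_of_add_eq_zero_right h.symm).symm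

theorem Bf_anti (hodd : Odd (Nat.card Q)) {u v : D.A} (hu : u ∈ D.Vy 1) (hv : v ∈ D.Vy 1) :
    Bf u v = - Bf v u := by
  rw [Bf_symm hodd hu hv, Bf_neg_left hodd hv hu]

omit [Finite Q] in
theorem smul_Bf {φ : Gh Q} (hm : φ.1 ∈ Mlt Q) (h1 : φ.1 1 = 1) (u v : D.A) :
    φ • Bf u v = Bf (φ • u) (φ • v) := by
  have e : φ * Lg (pm u 1) = Lg (pm (φ • u) 1) * φ := by
    apply Subtype.ext
    change φ.1 * L (pm u 1) = L (pm (φ • u) 1) * φ.1
    rw [autL hm h1, ap_pm, h1]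
  rw [Bf, smul_sub, Bf, ← mul_smul, ← mul_smul, e]

theorem Bf_meta (hodd : Odd (Nat.card Q)) {a b c d : D.A} (ha : a ∈ D.Vy 1) (hb : b ∈ D.Vy 1)
    (hc : c ∈ D.Vy 1) (hd : d ∈ D.Vy 1) : Bf (Bf a b) (Bf c d) = 0 := by
  let B' : D.Vy 1 → D.Vy 1 → D.Vy 1 := fun u v => ⟨Bf u.1 v.1, Bf_mem v.2⟩
  have h := lie_metabelian (V := D.Vy 1) (fun v hv => Subtype.ext (two hodd
      (congrArg Subtype.val hv))) B'
    (fun u v w => Subtype.ext (Bf_add _ _ _))
    (fun u v => Subtype.ext (Bf_anti hodd u.2 v.2))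
    (fun v w u => Subtype.ext (by
      have h := smul_Bf (ph_mlt v.1) (ph_one v.1) w.1 u.1
      rw [ph_smul, ph_smul, ph_smul] at h
      exact h.symm))
    ⟨a, ha⟩ ⟨b, hb⟩ ⟨c, hc⟩ ⟨d, hd⟩
  exact congrArg Subtype.val h

theorem Bf_eq_zero (hodd : Odd (Nat.card Q)) {a b : D.A} (ha : a ∈ D.Vy 1) (hb : b ∈ D.Vy 1) :
    Bf a b = 0 := by
  by_contra hne
  let U : AddSubgroup D.A :=
    AddSubgroup.closure {c | ∃ a ∈ D.Vy 1, ∃ b ∈ D.Vy 1, c = Bf a b}
  have hUV : U ≤ D.Vy 1 := by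
    rw [AddSubgroup.closure_le]
    rintro _ ⟨a, _, b, hb, rfl⟩
    exact Bf_mem hb
  have h1 : D.Vy 1 ≤ U := by
    apply irr hodd U hUV
    · intro g hg h1 u hu
      induction hu using AddSubgroup.closure_induction with
      | mem c hc =>
        obtain ⟨a, ha, b, hb, rfl⟩ := hc
        rw [smul_Bf hg h1]
        exact AddSubgroup.subset_closure ⟨_, smul_V g h1 ha, _, smul_V g h1 hb, rfl⟩
      | zero => rw [smul_zero]; exact zero_mem _
      | add c d _ _ hc hd => rw [smul_add]; exact add_mem hc hd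
      | neg c _ hc => rw [smul_neg]; exact neg_mem hc
    · exact ⟨Bf a b, AddSubgroup.subset_closure ⟨a, ha, b, hb, rfl⟩, hne⟩
  have h2 : ∀ x ∈ U, ∀ y ∈ U, Bf x y = 0 := by
    intro x hx
    induction hx using AddSubgroup.closure_induction with
    | mem c hc =>
      obtain ⟨a, ha, b, hb, rfl⟩ := hc
      intro y hy
      induction hy using AddSubgroup.closure_induction with
      | mem d hd =>
        obtain ⟨a', ha', b', hb', rfl⟩ := hd
        exact Bf_meta hodd ha hb ha' hb'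
      | zero => exact Bf_zero _
      | add c d _ _ hc hd => rw [Bf_add, hc, hd, add_zero]
      | neg c _ hc => rw [Bf_neg, hc, neg_zero]
    | zero => intro y hy; exact Bf_zero_left hodd (hUV hy)
    | add c d hc' hd' hc hd =>
      intro y hy
      rw [Bf_add_left hodd (hUV hc') (hUV hd') (hUV hy), hc y hy, hd y hy, add_zero]
    | neg c hc' hc =>
      intro y hy
      rw [Bf_neg_left hodd (hUV hc') (hUV hy), hc y hy, neg_zero]
  exact hne (h2 a (h1 ha) b (h1 hb))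

/-- `L_{u 1}` centralises `W` -/
theorem Lg_smul (hodd : Odd (Nat.card Q)) {u : D.A} (hu : u ∈ D.Vy 1) {a : D.A}
    (ha : a ∈ D.WA) : Lg (pm u 1) • a = a := by
  apply fact2 hodd (Lg (pm u 1)) 1 ?_ ?_ a ha
  · intro v hv
    rw [Lg_V, Bf_eq_zero hodd hu hv, add_zero]
  · intro y a _
    have h1 : (Lg (pm u 1)).1 y = pm (Rg y • u) y := by
      change pm u 1 * y = _
      rw [pm_mul, Loop.one_mul']
    rw [h1, sg_orbit]

theorem L_mem_F (hodd : Odd (Nat.card Q)) {u : D.A} (hu : u ∈ D.Vy 1) : L (pm u 1) ∈ D.F := by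
  refine ⟨L_mem _, ?_, ?_⟩
  · intro y
    refine ⟨pm (Rg y • u), smul_WA _ hu.1, ?_⟩
    rw [H361AL.L_apply, pm_mul, Loop.one_mul']
  · intro w hw
    have h1 : D.el w (D.W_le_F hw) ∈ D.WA := hw
    have h2 := congrArg pm (Lg_smul hodd hu h1)
    rw [pm_smul, pm_el, mul_inv_eq_iff_eq_mul] at h2
    exact h2

theorem R_mem_F (hodd : Odd (Nat.card Q)) {u : D.A} (hu : u ∈ D.Vy 1) : R (pm u 1) ∈ D.F := by
  have h1 := D.F_conj J_mem (L_mem_F hodd (neg_mem hu))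
  rw [J_inv, JLJ, iv_V (neg_mem hu), neg_neg] at h1
  exact h1

end Dat

end Pool.Agent.W328.OD
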