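import Pool.Agent.W328.OD.Nc
import Pool.Agent.W328.OD.Alg

/-!
The non-central case, with a quotient in which the lower theorem holds.
-/

set_option autoImplicit false
set_option linter.unusedSectionVars false

namespace Pool.Agent.W328.OD

open H361AL

universe u

variable {Q : Type u} [Loop Q] [Automorphic Q]

namespace Dat

/-- a quotient by the orbits of `P0` -/
structure QD (D : Dat Q) (Q' : Type u) [Loop Q'] [Automorphic Q'] where
  f : Q → Q'
  π : Gh Q →* Gh Q'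
  surj : Function.Surjective f
  f_mul : ∀ x y, f (x * y) = f x * f y
  fib : ∀ x y, f x = f y ↔ ∃ c ∈ D.P0, c x = y
  π_f : ∀ g x, (π g).1 (f x) = f (g.1 x)

namespace QD

variable {D : Dat Q} {Q' : Type u} [Loop Q'] [Automorphic Q'] (E : QD D Q')

theorem f_one : E.f 1 = 1 := by
  have h : E.f 1 * E.f 1 = E.f 1 * 1 := by rw [← E.f_mul, Loop.mul_one', Loop.mul_one']
  exact (bij_left (E.f 1)).1 h

theorem f_iv (x : Q) : E.f (iv x) = iv (E.f x) := by
  apply iv_unique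
  rw [← E.f_mul, mul_iv, f_one]

theorem ext {g g' : Gh Q'} (h : ∀ x, g.1 (E.f x) = g'.1 (E.f x)) : g = g' := by
  apply Subtype.ext
  apply Equiv.ext
  intro a
  obtain ⟨x, rfl⟩ := E.surj a
  exact h x

theorem π_Lg (x : Q) : E.π (Lg x) = Lg (E.f x) := by
  apply E.ext
  intro y
  rw [E.π_f]
  exact E.f_mul x y

theorem π_Rg (x : Q) : E.π (Rg x) = Rg (E.f x) := by
  apply E.ext
  intro y
  rw [E.π_f]
  exact E.f_mul y x

theorem π_Jg : E.π Jg = Jg := by
  apply E.ext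
  intro y
  rw [E.π_f]
  exact E.f_iv y

theorem sg_eq (x : Q) : (sg x : Gh Q) = Lg x * Jg * (Lg x)⁻¹ := rfl

theorem π_sg (x : Q) : E.π (sg x) = sg (E.f x) := by
  rw [sg_eq, map_mul, map_mul, map_inv, E.π_Lg, E.π_Jg, sg_eq]

theorem π_kap (x y : Q) : E.π (kap x y) = kap (E.f x) (E.f y) := by
  rw [kap, map_mul, map_mul, map_mul, map_inv, map_inv, E.π_Lg, E.π_Rg, kap]

variable [Finite Q] [Finite Q'] (hodd : Odd (Nat.card Q)) (hodd' : Odd (Nat.card Q'))
  (hnc : ∀ a : D.A, (∀ g : Gh Q, g • a ∈ D.Vy 1) → a = 0)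

omit [Finite Q'] in
include hodd hnc in
theorem sig_Lg {x y : Q} (h : E.f x = E.f y) : D.sig (Lg x) = D.sig (Lg y) := by
  rw [E.fib] at h
  obtain ⟨c, hc, rfl⟩ := h
  rw [sig_eq_iff]
  intro a ha
  exact (Lg_P0 hodd hnc hc x ha).symm

omit [Finite Q'] in
include hodd hnc in
theorem sig_Rg {x y : Q} (h : E.f x = E.f y) : D.sig (Rg x) = D.sig (Rg y) := by
  rw [E.fib] at h
  obtain ⟨c, hc, rfl⟩ := h
  rw [sig_eq_iff]
  intro a ha
  exact (Rg_P0 hodd hnc hc x ha).symm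

include hodd hnc in
/-- inner mappings trivial on the quotient act centrally on `W` -/
theorem central_inn {z : Gh Q} (hm : z.1 ∈ Mlt Q) (h1 : z.1 1 = 1)
    (hz : ∀ x, E.f (z.1 x) = E.f x) (g : Gh Q) : D.sig z * D.sig g = D.sig g * D.sig z := by
  let K : Subgroup (Equiv.Perm Q) :=
    ((Subgroup.centralizer {D.sig z}).comap D.sig).map (Gh Q).subtype
  have hK : ∀ g : Gh Q, D.sig z * D.sig g = D.sig g * D.sig z → g.1 ∈ K := by
    intro g hg
    refine ⟨g, ?_, rfl⟩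
    change D.sig g ∈ Subgroup.centralizer {D.sig z}
    rw [Subgroup.mem_centralizer_singleton_iff]
    exact hg.symm
  have hK' : Gh Q ≤ K := by
    rw [Gh, Subgroup.closure_le]
    rintro k (hk | hk)
    · have : Mlt Q ≤ K := by
        rw [Mlt, Subgroup.closure_le]
        rintro k (⟨x, rfl⟩ | ⟨x, rfl⟩)
        · apply hK (Lg x)
          rw [← map_mul, mul_Lg hm h1, map_mul, E.sig_Lg hodd hnc (hz x)]
        · apply hK (Rg x)
          rw [← map_mul, mul_Rg hm h1, map_mul, E.sig_Rg hodd hnc (hz x)]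
      exact this hk
    · rw [Set.mem_singleton_iff] at hk
      rw [hk]
      apply hK Jg
      rw [← map_mul, mul_Jg hm h1, map_mul]
  obtain ⟨g', hg', hgg⟩ := hK' g.2
  have : g' = g := Subtype.ext hgg
  rw [this] at hg'
  change D.sig g ∈ Subgroup.centralizer {D.sig z} at hg'
  rw [Subgroup.mem_centralizer_singleton_iff] at hg'
  exact hg'.symm

include hodd hnc in
/-- elements of `Mlt Q` trivial on the quotient act centrally on `W` -/
theorem central {z : Gh Q} (hm : z.1 ∈ Mlt Q)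
    (hz : ∀ x, E.f (z.1 x) = E.f x) (g : Gh Q) : D.sig z * D.sig g = D.sig g * D.sig z := by
  have h1 := hz 1
  rw [E.fib] at h1
  obtain ⟨c, hc, hc1⟩ := h1
  let cg : Gh Q := ⟨c, P0_gh hc⟩
  have hcg : D.sig cg = 1 := by
    rw [sig_one_iff]
    intro a ha
    exact P0_smul (c := cg) hc ha
  have h2 := E.central_inn hodd hnc (z := cg * z) (mul_mem (P0_mlt hc) hm) hc1 (fun x => by
    change E.f (c (z.1 x)) = E.f x
    rw [← hz x, E.fib]
    exact ⟨c⁻¹, inv_mem hc, c.symm_apply_apply _⟩) g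
  rw [map_mul, hcg, one_mul] at h2
  exact h2

include hodd in
/-- simultaneous unipotence -/
theorem fix_all (S : Set (Gh Q)) (hc : ∀ x ∈ S, ∀ y ∈ S, D.sig x * D.sig y = D.sig y * D.sig x)
    (hp : ∀ x ∈ S, D.sig x ^ D.p = 1)
    (hinv : ∀ g : Gh Q, ∀ a ∈ D.WA, (∀ x ∈ S, x • a = a) → ∀ x ∈ S, x • g • a = g • a) :
    ∀ x ∈ S, ∀ a ∈ D.WA, x • a = a := by
  let τ : Gh Q →* AddMonoid.End D.WA := DistribMulAction.toAddMonoidEnd (Gh Q) D.WA
  have hτ : ∀ (g : Gh Q) (a : D.WA), (τ g a).1 = g • a.1 := fun g a => rfl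
  have hτσ : ∀ g h : Gh Q, D.sig g = D.sig h → τ g = τ h := by
    intro g h e
    rw [sig_eq_iff] at e
    refine DFunLike.ext _ _ fun a => Subtype.ext ?_
    rw [hτ, hτ]
    exact e a.1 a.2
  have hpE : ((D.p : ℕ) : AddMonoid.End D.WA) = 0 := by
    refine DFunLike.ext _ _ fun a => ?_
    rw [AddMonoid.End.natCast_apply]
    apply Subtype.ext
    change (D.p • a).1 = 0
    rw [AddSubgroup.coe_nsmul]
    exact p_smul hodd a.1
  have hne : ∃ v : D.WA, v ≠ 0 := by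
    obtain ⟨v, hv, hv0⟩ := D.V_ne hodd 1
    exact ⟨⟨v, hv.1⟩, fun h => hv0 (congrArg Subtype.val h)⟩
  have hnt : Nontrivial (AddMonoid.End D.WA) := by
    obtain ⟨v, hv⟩ := hne
    refine ⟨⟨0, 1, fun h => hv ?_⟩⟩
    have := congrArg (fun k : AddMonoid.End D.WA => k v) h
    exact this.symm
  have hc' : CharP (AddMonoid.End D.WA) D.p := (CharP.charP_iff_prime_eq_zero D.hp).2 hpE
  have hf : Fact D.p.Prime := ⟨D.hp⟩
  obtain ⟨v, hv0, hv⟩ := unip_common (V := D.WA) (τ '' S)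
    (by
      rintro _ ⟨x, hx, rfl⟩ _ ⟨y, hy, rfl⟩
      rw [← map_mul, ← map_mul]
      apply hτσ
      rw [map_mul, map_mul, hc x hx y hy])
    (by
      rintro _ ⟨x, hx, rfl⟩
      refine ⟨D.p, ?_⟩
      rw [sub_pow_char_of_commute (p := D.p) (x := τ x) (y := 1) (Commute.one_right _), one_pow,
        ← map_pow, sub_eq_zero, ← map_one τ]
      apply hτσ
      rw [map_pow, hp x hx, map_one]) hne
  let X : AddSubgroup D.A :=
    { carrier := {a | a ∈ D.WA ∧ ∀ x ∈ S, x • a = a}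
      zero_mem' := ⟨zero_mem _, fun x _ => smul_zero x⟩
      add_mem' := by
        rintro a b ⟨ha, ha'⟩ ⟨hb, hb'⟩
        refine ⟨add_mem ha hb, fun x hx => ?_⟩
        rw [smul_add, ha' x hx, hb' x hx]
      neg_mem' := by
        rintro a ⟨ha, ha'⟩
        refine ⟨neg_mem ha, fun x hx => ?_⟩
        rw [smul_neg, ha' x hx] }
  have hX : D.WA ≤ X := by
    apply D.min'
    · exact fun a ha => ha.1
    · rintro g a ⟨ha, ha'⟩
      exact ⟨smul_WA g ha, hinv g a ha ha'⟩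
    · refine ⟨v.1, ⟨v.2, fun x hx => ?_⟩, fun h => hv0 (Subtype.ext h)⟩
      have := hv (τ x) ⟨x, hx, rfl⟩
      exact congrArg Subtype.val this
  intro x hx a ha
  exact (hX ha).2 x hx

include hodd in
theorem central_p {z : Gh Q} (hz : ∀ g : Gh Q, D.sig z * D.sig g = D.sig g * D.sig z)
    (hp : D.sig z ^ D.p = 1) : D.sig z = 1 := by
  rw [sig_one_iff]
  intro a ha
  apply fix_all hodd {z} ?_ ?_ ?_ z rfl a ha
  · rintro x hx y hy
    rw [Set.mem_singleton_iff] at hx hy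
    rw [hx, hy]
  · rintro x hx
    rw [Set.mem_singleton_iff] at hx
    rw [hx]; exact hp
  · intro g a ha h x hx
    have h1 := h x hx
    rw [Set.mem_singleton_iff] at hx
    rw [hx] at h1 ⊢
    have h2 := hz g
    rw [← map_mul, ← map_mul, sig_eq_iff] at h2
    have h3 := h2 a ha
    rw [mul_smul, mul_smul, h1] at h3
    exact h3

section T

variable (D' : Dat Q')

/-- the elements mapped to the orbit of `1` under `W'` -/
def T : Set Q := {t | ∃ v ∈ D'.Vy 1, E.f t = pm v 1}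

theorem T_one' : (1 : Q) ∈ E.T D' := ⟨0, zero_mem _, by rw [E.f_one]; rfl⟩

theorem T_iv {t : Q} (ht : t ∈ E.T D') : iv t ∈ E.T D' := by
  obtain ⟨v, hv, hvt⟩ := ht
  exact ⟨-v, neg_mem hv, by rw [E.f_iv, hvt, iv_V hv]⟩

include hodd' in
theorem V_mul {D' : Dat Q'} {u v : D'.A} (hu : u ∈ D'.Vy 1) (hv : v ∈ D'.Vy 1) :
    pm u 1 * pm v 1 = pm (v + u) 1 := by
  rw [mul_pm, Loop.mul_one', Lg_smul hodd' hu hv.1, pm_add, Equiv.Perm.mul_apply]

include hodd' in
theorem T_mul {t t' : Q} (ht : t ∈ E.T D') (ht' : t' ∈ E.T D') : t * t' ∈ E.T D' := by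
  obtain ⟨v, hv, hvt⟩ := ht
  obtain ⟨w, hw, hwt⟩ := ht'
  exact ⟨w + v, add_mem hw hv, by rw [E.f_mul, hvt, hwt, V_mul hodd' hv hw]⟩

/-- `P_t` on the quotient -/
theorem π_P {t : Q} {v : D'.A} (hv : v ∈ D'.Vy 1) (hvt : E.f t = pm v 1) :
    E.π (sg t * sg 1) = pg (v + v) := by
  apply Subtype.ext
  rw [map_mul, E.π_sg, E.π_sg, E.f_one, hvt]
  change s (pm v 1) * s 1 = pm (v + v)
  rw [← eta_of_Vy hv, pm_eta]

omit [Finite Q'] in
theorem pg_pow {D' : Dat Q'} (a : D'.A) (n : ℕ) : (pg a : Gh Q') ^ n = pg (n • a) := by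
  induction n with
  | zero => rw [pow_zero, zero_smul]; rfl
  | succ n ih => rw [pow_succ, ih, add_smul, one_smul]; rfl

omit [Finite Q'] in
theorem pg_add {D' : Dat Q'} (a b : D'.A) : pg (a + b) = (pg a : Gh Q') * pg b := rfl

omit [Finite Q'] in
theorem pg_conj {D' : Dat Q'} (g : Gh Q') (a : D'.A) : pg (g • a) = g * pg a * g⁻¹ := rfl

include hodd' in
/-- `P_t ^ r` is trivial on the quotient -/
theorem P_pow_triv {t : Q} (ht : t ∈ E.T D') (x : Q) :
    E.f (((sg t * sg 1 : Gh Q) ^ D'.p).1 x) = E.f x := by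
  obtain ⟨v, hv, hvt⟩ := ht
  rw [← E.π_f, map_pow, E.π_P D' hv hvt, pg_pow, p_smul hodd']
  rfl

omit [Finite Q] in
theorem Jg_P (t : Q) : (Jg : Gh Q) * (sg t * sg 1) = (sg t * sg 1)⁻¹ * Jg := by
  rw [mul_inv_rev, sg_inv, sg_inv, sg_one]
  group

include hodd hodd' hnc in
/-- `P_t ^ r` acts trivially on `W` -/
theorem P_pow {t : Q} (ht : t ∈ E.T D') : D.sig (sg t * sg 1) ^ D'.p = 1 := by
  set P : Gh Q := sg t * sg 1 with hP
  have hm : (P ^ D'.p).1 ∈ Mlt Q := pow_mem (P_mem_mlt t) _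
  have hcen := E.central hodd hnc hm (E.P_pow_triv hodd' D' ht)
  have h1 : Jg * P ^ D'.p = (P ^ D'.p)⁻¹ * Jg := by
    have : Jg * P ^ D'.p * Jg⁻¹ = (Jg * P * Jg⁻¹) ^ D'.p := by rw [conj_pow]
    rw [hP, Jg_P, mul_inv_cancel_right, inv_pow, ← hP] at this
    rw [← this]; group
  have h2 := hcen Jg
  rw [← map_mul D.sig Jg, h1, map_mul, map_inv] at h2
  have h3 := mul_right_cancel h2
  have h4 : D.sig (P ^ D'.p * P ^ D'.p) = 1 := by
    rw [map_mul]
    nth_rewrite 1 [h3]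
    exact inv_mul_cancel _
  rw [← map_pow, sig_one_iff]
  rw [sig_one_iff] at h4
  intro a ha
  exact pow_sq_fix hodd t 1 D'.p (h4 a ha)

include hodd' in
theorem not_all_P0 : ¬ ∀ t ∈ E.T D', ∀ a ∈ D.WA, (sg t * sg 1 : Gh Q) • a = a := by
  intro h
  obtain ⟨v, hv, hv0⟩ := D'.V_ne hodd' 1
  obtain ⟨t, ht⟩ := E.surj (pm v 1)
  have h1 := h t ⟨v, hv, ht⟩
  have h2 : (sg t * sg 1 : Gh Q).1 ∈ D.P0 := (mem_P0_iff (P_mem_N t)).2 h1
  have h3 : E.f 1 = E.f (t * t) := by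
    rw [E.fib]
    exact ⟨_, h2, P_one t⟩
  rw [E.f_mul, E.f_one] at h3
  have h4 : iv (E.f t) = E.f t := (iv_unique h3.symm).symm
  have h5 := eq_one_of_iv hodd' h4
  rw [ht] at h5
  exact hv0 (free hodd' hv h5)

include E hodd hodd' hnc in
/-- the primes are different -/
theorem r_ne_p : D'.p ≠ D.p := by
  intro hrp
  apply E.not_all_P0 hodd' D'
  let S : Set (Gh Q) := {x | ∃ g : Gh Q, ∃ t ∈ E.T D', x = g * (sg t * sg 1) * g⁻¹}
  have hSπ : ∀ x ∈ S, ∃ b : D'.A, E.π x = pg b := by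
    rintro _ ⟨g, t, ⟨v, hv, hvt⟩, rfl⟩
    refine ⟨E.π g • (v + v), ?_⟩
    rw [map_mul, map_mul, map_inv, E.π_P D' hv hvt, pg_conj]
  have hSm : ∀ x ∈ S, x.1 ∈ Mlt Q := by
    rintro _ ⟨g, t, _, rfl⟩
    exact mlt_conj g.2 _ (P_mem_mlt t)
  have hSp : ∀ x ∈ S, D.sig x ^ D.p = 1 := by
    rintro _ ⟨g, t, ht, rfl⟩
    rw [map_mul, map_mul, map_inv, conj_pow, ← hrp, E.P_pow hodd hodd' hnc D' ht]
    group
  have hmain := fix_all hodd (D := D) S ?_ hSp ?_
  · intro t ht a ha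
    have := hmain (sg t * sg 1) ⟨1, t, ht, by group⟩ a ha
    exact this
  · intro x hx y hy
    obtain ⟨b, hb⟩ := hSπ x hx
    obtain ⟨b', hb'⟩ := hSπ y hy
    let z : Gh Q := x * y * x⁻¹ * y⁻¹
    have hπz : E.π z = 1 := by
      have : E.π z = E.π x * E.π y * (E.π x)⁻¹ * (E.π y)⁻¹ := by
        change E.π (x * y * x⁻¹ * y⁻¹) = _
        rw [map_mul, map_mul, map_mul, map_inv, map_inv]
      rw [this, hb, hb']
      have h1 : (pg b : Gh Q') * pg b' = pg b' * pg b := by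
        rw [← pg_add, ← pg_add, add_comm]
      rw [h1]; group
    have hzm : z.1 ∈ Mlt Q :=
      mul_mem (mul_mem (mul_mem (hSm x hx) (hSm y hy)) (inv_mem (hSm x hx))) (inv_mem (hSm y hy))
    have hcen := E.central hodd hnc hzm (fun q => by
      rw [← E.π_f, hπz]; rfl)
    have hz : D.sig z = D.sig x * D.sig y * (D.sig x)⁻¹ * (D.sig y)⁻¹ := by
      change D.sig (x * y * x⁻¹ * y⁻¹) = _
      rw [map_mul, map_mul, map_mul, map_inv, map_inv]
    have hzp : D.sig z ^ D.p = 1 := by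
      have h1 : D.sig x * D.sig y * (D.sig x)⁻¹ = D.sig z * D.sig y := by
        rw [hz]; group
      have h2 : (D.sig x * D.sig y * (D.sig x)⁻¹) ^ D.p = D.sig z ^ D.p * D.sig y ^ D.p := by
        rw [h1]
        have : Commute (D.sig z) (D.sig y) := hcen y
        exact this.mul_pow _
      rw [conj_pow, hSp y hy] at h2
      rw [mul_one, mul_one, mul_inv_cancel] at h2
      exact h2.symm
    have h3 := central_p hodd hcen hzp
    rw [hz] at h3
    have h4 : D.sig x * D.sig y = D.sig y * D.sig x := by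
      have : D.sig x * D.sig y = (D.sig x * D.sig y * (D.sig x)⁻¹ * (D.sig y)⁻¹) *
          (D.sig y * D.sig x) := by group
      rw [this, h3, one_mul]
    exact h4
  · intro g a ha h x hx
    obtain ⟨g', t, ht, rfl⟩ := hx
    have h1 := h (g⁻¹ * g' * (sg t * sg 1) * (g⁻¹ * g')⁻¹) ⟨g⁻¹ * g', t, ht, rfl⟩
    rw [← mul_smul]
    have e : g' * (sg t * sg 1) * g'⁻¹ * g = g * (g⁻¹ * g' * (sg t * sg 1) * (g⁻¹ * g')⁻¹) := by
      group
    rw [e, mul_smul, h1]

end T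

end QD

end Dat

end Pool.Agent.W328.OD
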