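import Pool.Agent.W328.OD.Main1

/-!
The commutators `kap X t`, `t ∈ T`, act trivially on `V`.
-/

set_option autoImplicit false
set_option linter.unusedSectionVars false

namespace Pool.Agent.W328.OD

open H361AL

universe u

variable {Q : Type u} [Loop Q] [Automorphic Q]

namespace Dat

theorem Rg_one : (Rg (1 : Q) : Gh Q) = 1 := by
  apply Subtype.ext
  apply Equiv.ext
  intro x
  exact Loop.mul_one' x

theorem kap_one_right (X : Q) : kap X (1 : Q) = 1 := by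
  rw [kap, Rg_one]; group

variable {D : Dat Q}

/-- the action of an element fixing `1` on `V` -/
noncomputable def eV (D : Dat Q) (g : Gh Q) (h : g.1 1 = 1) : AddMonoid.End (D.Vy 1) where
  toFun v := ⟨g • v.1, smul_V g h v.2⟩
  map_zero' := Subtype.ext (smul_zero g)
  map_add' v w := Subtype.ext (smul_add g v.1 w.1)

theorem eV_apply (g : Gh Q) (h : g.1 1 = 1) (v : D.Vy 1) : (D.eV g h v).1 = g • v.1 := rfl

theorem inv_fix {g : Gh Q} (h : g.1 1 = 1) : (g⁻¹).1 1 = 1 := by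
  change g.1⁻¹ 1 = 1
  rw [Equiv.Perm.inv_eq_iff_eq, h]

theorem eV_pow (g : Gh Q) (h : g.1 1 = 1) (n : ℕ) (v : D.Vy 1) :
    (((D.eV g h) ^ n : AddMonoid.End (D.Vy 1)) v).1 = g ^ n • v.1 := by
  induction n with
  | zero => rw [pow_zero, pow_zero, one_smul]; rfl
  | succ n ih =>
    rw [pow_succ', pow_succ', mul_smul, ← ih]; rfl

namespace QD

variable {Q' : Type u} [Loop Q'] [Automorphic Q'] (E : QD D Q')
  [Finite Q] [Finite Q'] (hodd : Odd (Nat.card Q)) (hodd' : Odd (Nat.card Q'))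
  (hnc : ∀ a : D.A, (∀ g : Gh Q, g • a ∈ D.Vy 1) → a = 0) (D' : Dat Q')
  (ih : ∀ v ∈ D'.Vy 1, ∀ x y : Q', (x * pm v 1) * y = x * (pm v 1 * y))

include ih in
theorem T_nuc {t : Q} (ht : t ∈ E.T D') (x y : Q') :
    (x * E.f t) * y = x * (E.f t * y) := by
  obtain ⟨v, hv, hvt⟩ := ht
  rw [hvt]
  exact ih v hv x y

include ih in
theorem kap_fix {t : Q} (ht : t ∈ E.T D') (X Y : Q) : E.f ((kap X Y).1 t) = E.f t := by
  rw [← E.π_f, E.π_kap]
  change (L (E.f X))⁻¹ ((R (E.f Y))⁻¹ (E.f X * (E.f t * E.f Y))) = E.f t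
  rw [← E.T_nuc D' ih ht, Equiv.Perm.inv_eq_iff_eq, Equiv.Perm.inv_eq_iff_eq]
  rfl

include hodd hnc ih in
theorem kap_L {t : Q} (ht : t ∈ E.T D') (X Y : Q) :
    D.sig (kap X Y) * D.sig (Lg t) = D.sig (Lg t) * D.sig (kap X Y) := by
  rw [← map_mul, mul_Lg (kap_mlt X Y) (kap_one X Y), map_mul,
    E.sig_Lg hodd hnc (E.kap_fix D' ih ht X Y)]

include hodd hnc ih in
theorem kap_R {t : Q} (ht : t ∈ E.T D') (X Y : Q) :
    D.sig (kap X Y) * D.sig (Rg t) = D.sig (Rg t) * D.sig (kap X Y) := by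
  rw [← map_mul, mul_Rg (kap_mlt X Y) (kap_one X Y), map_mul,
    E.sig_Rg hodd hnc (E.kap_fix D' ih ht X Y)]

include hodd hnc ih in
theorem kap_T {t : Q} (ht : t ∈ E.T D') (X Y : Q) :
    D.sig (kap X Y) * D.sig (Tg t) = D.sig (Tg t) * D.sig (kap X Y) := by
  have h1 : Commute (D.sig (kap X Y)) (D.sig (Lg t)) := E.kap_L hodd hnc D' ih ht X Y
  have h2 : Commute (D.sig (kap X Y)) (D.sig (Rg t)) := E.kap_R hodd hnc D' ih ht X Y
  have h3 : D.sig (Tg t) = (D.sig (Rg t))⁻¹ * D.sig (Lg t) := by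
    rw [Tg, map_mul, map_inv]
  rw [h3]
  exact (h2.inv_right).mul_right h1

include hodd hnc ih in
theorem kap_mul {t t' : Q} (ht' : t' ∈ E.T D') (X : Q) :
    D.sig (kap X (t' * t)) = D.sig (kap X t') * D.sig (kap X t) := by
  let z : Gh Q := (Rg (t' * t))⁻¹ * Rg t * Rg t'
  have hzm : z.1 ∈ Mlt Q := mul_mem (mul_mem (inv_mem (R_mem _)) (R_mem _)) (R_mem _)
  have hz : ∀ x, E.f (z.1 x) = E.f x := by
    intro x
    rw [← E.π_f]
    have : E.π z = (Rg (E.f t' * E.f t))⁻¹ * Rg (E.f t) * Rg (E.f t') := by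
      change E.π ((Rg (t' * t))⁻¹ * Rg t * Rg t') = _
      rw [map_mul, map_mul, map_inv, E.π_Rg, E.π_Rg, E.π_Rg, E.f_mul]
    rw [this]
    change (R (E.f t' * E.f t))⁻¹ ((E.f x * E.f t') * E.f t) = E.f x
    rw [Equiv.Perm.inv_eq_iff_eq, E.T_nuc D' ih ht']
    rfl
  have hcen := E.central hodd hnc hzm hz
  set A := D.sig (Lg X) with hA
  set B := D.sig (Rg t) with hB
  set B' := D.sig (Rg t') with hB'
  set C := D.sig (Rg (t' * t)) with hC
  set Z := D.sig z with hZ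
  have hZ' : Z = C⁻¹ * B * B' := by
    rw [hZ]
    change D.sig ((Rg (t' * t))⁻¹ * Rg t * Rg t') = _
    rw [map_mul, map_mul, map_inv]
  have hC' : C = B * B' * Z⁻¹ := by rw [hZ']; group
  have hk : ∀ Y, D.sig (kap X Y) = A⁻¹ * (D.sig (Rg Y))⁻¹ * A * D.sig (Rg Y) := by
    intro Y
    rw [kap, map_mul, map_mul, map_mul, map_inv, map_inv]
  have h1 := E.kap_R hodd hnc D' ih ht' X t
  rw [hk] at h1
  rw [hk, hk, hk, ← hC, ← hB, ← hB', hC']
  rw [← hB, ← hB'] at h1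
  have hM := hcen ((Lg X)⁻¹ * (Rg t')⁻¹ * (Rg t)⁻¹ * Lg X * Rg t * Rg t')
  have hA' := hcen (Lg X)
  simp only [map_mul, map_inv] at hM
  rw [← hA, ← hB, ← hB'] at hM
  rw [← hA] at hA'
  have e1 : A⁻¹ * (B * B' * Z⁻¹)⁻¹ * A * (B * B' * Z⁻¹) =
      (A⁻¹ * (Z * A)) * (A⁻¹ * B'⁻¹ * B⁻¹ * A * B * B') * Z⁻¹ := by group
  have e2 : (A⁻¹ * (A * Z)) * (A⁻¹ * B'⁻¹ * B⁻¹ * A * B * B') * Z⁻¹ =
      (Z * (A⁻¹ * B'⁻¹ * B⁻¹ * A * B * B')) * Z⁻¹ := by group
  rw [e1, hA', e2, hM]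
  have e3 : A⁻¹ * B'⁻¹ * B⁻¹ * A * B * B' * Z * Z⁻¹ =
      A⁻¹ * B'⁻¹ * A * ((A⁻¹ * B⁻¹ * A * B) * B') := by group
  rw [e3, h1]; group

include hodd hnc ih in
theorem kap_ivT {t : Q} (ht : t ∈ E.T D') (X : Q) :
    D.sig (kap X (iv t)) = (D.sig (kap X t))⁻¹ := by
  have h := E.kap_mul hodd hnc D' ih (t := t) (E.T_iv D' ht) X
  rw [iv_mul, kap_one_right, map_one] at h
  exact eq_inv_of_mul_eq_one_left h.symm

include hodd hodd' hnc ih in
theorem kap_pow {t : Q} (ht : t ∈ E.T D') (X : Q) : D.sig (kap X t) ^ D'.p = 1 := by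
  obtain ⟨v, hv, hvt⟩ := id ht
  have h1 : ∀ n : ℕ, (((L t) ^ n) 1 ∈ E.T D' ∧ D.sig (kap X (((L t) ^ n) 1)) =
      D.sig (kap X t) ^ n) ∧ E.f (((L t) ^ n) 1) = pm (n • v) 1 := by
    intro n
    induction n with
    | zero =>
      refine ⟨⟨E.T_one' D', ?_⟩, ?_⟩
      · rw [pow_zero, pow_zero]
        change D.sig (kap X 1) = 1
        rw [kap_one_right, map_one]
      · rw [pow_zero, zero_smul]
        exact E.f_one
    | succ n ihn =>
      obtain ⟨⟨ih1, ih2⟩, ih3⟩ := ihn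
      have e : ((L t) ^ (n + 1)) 1 = t * ((L t) ^ n) 1 := by
        rw [pow_succ', Equiv.Perm.mul_apply]; rfl
      refine ⟨⟨?_, ?_⟩, ?_⟩
      · rw [e]; exact E.T_mul hodd' D' ht ih1
      · rw [e, E.kap_mul hodd hnc D' ih ht, ih2, pow_succ']
      · rw [e, E.f_mul, ih3, hvt, V_mul hodd' hv (nsmul_mem hv n), succ_nsmul]
  obtain ⟨⟨_, h2⟩, h3⟩ := h1 D'.p
  rw [p_smul hodd'] at h3
  have h4 : E.f (((L t) ^ D'.p) 1) = E.f 1 := by
    rw [h3, E.f_one]; rfl
  have h5 := E.sig_Rg hodd hnc h4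
  rw [Rg_one, map_one D.sig] at h5
  rw [← h2, kap, map_mul, map_mul, map_mul, map_inv, map_inv, h5]
  group

include E hodd hodd' hnc ih in
/-- the commutators `kap X t` act trivially on `V` -/
theorem kap_triv {t : Q} (ht : t ∈ E.T D') (X : Q) {v : D.A} (hv : v ∈ D.Vy 1) :
    kap X t • v = v := by
  have hk1 := kap_one X t
  have hk3 := kap_one (iv X) t
  have hθ := Tg_one t
  have hτ := Tg_one X
  have sigk : ∀ g h : Gh Q, D.sig g * D.sig h = D.sig h * D.sig g →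
      ∀ a ∈ D.WA, g • h • a = h • g • a := by
    intro g h e a ha
    rw [← map_mul, ← map_mul, sig_eq_iff] at e
    have := e a ha
    rwa [mul_smul, mul_smul] at this
  have a1 : ∀ X, ∀ w ∈ D.Vy 1, kap X t • Tg t • (kap X t • w - w) = kap X t • w - w := by
    intro X w hw
    have h1 := relA hodd X t hw
    have h2 : (kap X (iv t))⁻¹ • w = kap X t • w := by
      have h3 := E.kap_ivT hodd hnc D' ih ht X
      have h4 : D.sig (kap X (iv t))⁻¹ = D.sig (kap X t) := by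
        rw [map_inv, h3, inv_inv]
      exact (sig_eq_iff.1 h4) w hw.1
    rw [h2] at h1
    have h3 : kap X t • w - w = (Tg t)⁻¹ • (w - (kap X t)⁻¹ • w) := by
      rw [← neg_inj, neg_sub, h1]
    rw [h3, smul_inv_smul, smul_sub, smul_inv_smul, ← h3]
  have hcube := ring_key (E := AddMonoid.End (D.Vy 1))
    (fun e he => by
      refine DFunLike.ext _ _ fun v => Subtype.ext ?_
      have := congrArg (fun k : AddMonoid.End (D.Vy 1) => (k v).1) he
      exact two hodd this)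
    (k := D.eV _ hk1) (k' := D.eV _ (inv_fix hk1)) (k3 := D.eV _ hk3)
    (k3' := D.eV _ (inv_fix hk3)) (θ := D.eV _ hθ) (θ' := D.eV _ (inv_fix hθ))
    (τ := D.eV _ hτ) (τ' := D.eV _ (inv_fix hτ))
    (by
      refine DFunLike.ext _ _ fun v => Subtype.ext ?_
      exact inv_smul_smul _ _)
    (by
      refine DFunLike.ext _ _ fun v => Subtype.ext ?_
      exact inv_smul_smul _ _)
    (by
      refine DFunLike.ext _ _ fun v => Subtype.ext ?_
      exact inv_smul_smul _ _)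
    (by
      refine DFunLike.ext _ _ fun v => Subtype.ext ?_
      exact inv_smul_smul _ _)
    (by
      refine DFunLike.ext _ _ fun v => Subtype.ext ?_
      exact sigk _ _ (E.kap_T hodd hnc D' ih ht X t) v.1 v.2.1)
    (by
      refine DFunLike.ext _ _ fun v => Subtype.ext ?_
      exact sigk _ _ (E.kap_T hodd hnc D' ih ht (iv X) t) v.1 v.2.1)
    (by
      refine DFunLike.ext _ _ fun v => Subtype.ext ?_
      exact a1 X v.1 v.2)
    (by
      refine DFunLike.ext _ _ fun v => Subtype.ext ?_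
      exact a1 (iv X) v.1 v.2)
    (by
      refine DFunLike.ext _ _ fun v => Subtype.ext ?_
      have h1 := relB hodd X t v.2
      change kap (iv X) t • v.1 - v.1 = -(Tg X • (kap X t • v.1 - v.1))
      rw [← neg_inj, neg_sub, h1, ← smul_neg, neg_sub]
      simp only [smul_sub, neg_sub])
    (by
      refine DFunLike.ext _ _ fun v => Subtype.ext ?_
      set w := Tg X • v.1 - v.1 with hw
      have hwV : w ∈ D.Vy 1 := sub_mem (smul_V _ hτ v.2) v.2
      change (w - (kap X t)⁻¹ • w) + (w - (kap (iv X) t)⁻¹ • w) = 0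
      have h1 := congrArg (eta t) (relC hodd X v.2)
      rw [eta_add, ← hw, eta_lam hodd X hwV, eta_lam hodd (iv X) hwV, eta_zero, ← smul_add,
        smul_eq_zero_iff_eq] at h1
      apply two hodd
      rw [← h1]; abel)
  have hp3 : 3 ≤ D.p := by
    have h1 := D.p_odd hodd
    have h2 := D.hp.two_le
    rcases h1 with ⟨m, hm⟩
    omega
  have hpE : ((D.p : ℕ) : AddMonoid.End (D.Vy 1)) = 0 := by
    refine DFunLike.ext _ _ fun a => ?_
    rw [AddMonoid.End.natCast_apply]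
    apply Subtype.ext
    rw [AddSubgroup.coe_nsmul]
    exact p_smul hodd a.1
  have h1 := pow_eq_one_of_cube D.hp hp3 hpE hcube
  have h2 : (D.eV _ hk1) ^ D'.p = 1 := by
    refine DFunLike.ext _ _ fun v => Subtype.ext ?_
    rw [eV_pow]
    have h3 := E.kap_pow hodd hodd' hnc D' ih ht X
    rw [← map_pow, sig_one_iff] at h3
    exact h3 v.1 v.2.1
  have h3 := (pow_gcd_eq_one (a := D.eV _ hk1) (m := D.p) (n := D'.p)).2 ⟨h1, h2⟩
  have h4 : Nat.gcd D.p D'.p = 1 := by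
    rw [← Nat.coprime_iff_gcd_eq_one, Nat.coprime_primes D.hp D'.hp]
    exact (E.r_ne_p hodd hodd' hnc D').symm
  rw [h4, pow_one] at h3
  have := congrArg (fun k : AddMonoid.End (D.Vy 1) => (k ⟨v, hv⟩).1) h3
  exact this

end QD

end Dat

end Pool.Agent.W328.OD
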