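import Pool.Agent.W328.OD.Nc

/-!
Quotients of automorphic loops by the orbits of normal subgroups.
-/

set_option autoImplicit false

namespace Pool.Agent.W328.OD

open H361AL

universe u

variable {Q : Type u} [Loop Q] [Automorphic Q]

/-- subgroups of the multiplication group normalised by `Gh Q` -/
structure NK (K : Subgroup (Equiv.Perm Q)) : Prop where
  le : K ≤ Mlt Q
  conj : ∀ g ∈ Gh Q, ∀ k ∈ K, g * k * g⁻¹ ∈ K

/-- the orbit equivalence relation -/
def orbS (K : Subgroup (Equiv.Perm Q)) : Setoid Q where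
  r x y := ∃ k ∈ K, k x = y
  iseqv :=
    { refl := fun x => ⟨1, one_mem _, rfl⟩
      symm := by
        rintro x y ⟨k, hk, rfl⟩
        exact ⟨k⁻¹, inv_mem hk, k.symm_apply_apply x⟩
      trans := by
        rintro x y z ⟨k, hk, rfl⟩ ⟨k', hk', rfl⟩
        exact ⟨k' * k, mul_mem hk' hk, rfl⟩ }

variable {K : Subgroup (Equiv.Perm Q)}

/-- the quotient -/
def QT (_ : NK K) : Type u := Quotient (orbS K)

variable (h : NK K)

/-- the projection -/
def qm (x : Q) : QT h := Quotient.mk (orbS K) x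

theorem qm_surj : Function.Surjective (qm h) := Quotient.mk_surjective

theorem qm_eq {x y : Q} : qm h x = qm h y ↔ ∃ k ∈ K, k x = y := Quotient.eq (r := orbS K)

include h in
theorem mul_orb {x x' y y' : Q} (hx : ∃ k ∈ K, k x = x') (hy : ∃ k ∈ K, k y = y') :
    ∃ k ∈ K, k (x * y) = x' * y' := by
  obtain ⟨k, hk, rfl⟩ := hx
  obtain ⟨k', hk', rfl⟩ := hy
  refine ⟨(L (k x) * k' * (L (k x))⁻¹) * (R y * k * (R y)⁻¹),
    mul_mem (h.conj _ (mlt_le (L_mem _)) _ hk') (h.conj _ (mlt_le (R_mem _)) _ hk), ?_⟩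
  simp only [Equiv.Perm.mul_apply]
  have e1 : (R y)⁻¹ (x * y) = x := (R y).symm_apply_apply x
  rw [e1]
  have e2 : (L (k x))⁻¹ (R y (k x)) = y := (L (k x)).symm_apply_apply y
  rw [e2]; rfl

instance : Mul (QT h) := ⟨Quotient.map₂ (fun x y => x * y)
  (fun _ _ hx _ _ hy => mul_orb h hx hy)⟩

instance : One (QT h) := ⟨qm h 1⟩

theorem qm_mul (x y : Q) : qm h (x * y) = qm h x * qm h y := rfl
theorem qm_one : qm h (1 : Q) = 1 := rfl

instance : Loop (QT h) where
  one_mul' a := by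
    obtain ⟨x, rfl⟩ := qm_surj h a
    rw [← qm_one, ← qm_mul, Loop.one_mul']
  mul_one' a := by
    obtain ⟨x, rfl⟩ := qm_surj h a
    rw [← qm_one, ← qm_mul, Loop.mul_one']
  left_div a b := by
    obtain ⟨x, rfl⟩ := qm_surj h a
    obtain ⟨y, rfl⟩ := qm_surj h b
    refine ⟨qm h ((L x)⁻¹ y), ?_, ?_⟩
    · simp only
      rw [← qm_mul]
      congr 1
      exact (L x).apply_symm_apply y
    · intro z hz
      obtain ⟨z, rfl⟩ := qm_surj h z
      rw [← qm_mul, qm_eq] at hz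
      obtain ⟨k, hk, hk'⟩ := hz
      rw [qm_eq]
      refine ⟨(L x)⁻¹ * k * (L x)⁻¹⁻¹, h.conj _ (mlt_le (inv_mem (L_mem _))) _ hk, ?_⟩
      rw [inv_inv]
      change (L x)⁻¹ (k (x * z)) = _
      rw [hk']
  right_div a b := by
    obtain ⟨x, rfl⟩ := qm_surj h a
    obtain ⟨y, rfl⟩ := qm_surj h b
    refine ⟨qm h ((R x)⁻¹ y), ?_, ?_⟩
    · simp only
      rw [← qm_mul]
      congr 1
      exact (R x).apply_symm_apply y
    · intro z hz
      obtain ⟨z, rfl⟩ := qm_surj h z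
      rw [← qm_mul, qm_eq] at hz
      obtain ⟨k, hk, hk'⟩ := hz
      rw [qm_eq]
      refine ⟨(R x)⁻¹ * k * (R x)⁻¹⁻¹, h.conj _ (mlt_le (inv_mem (R_mem _))) _ hk, ?_⟩
      rw [inv_inv]
      change (R x)⁻¹ (k (z * x)) = _
      rw [hk']

theorem lift_mlt {g : Equiv.Perm (QT h)} (hg : g ∈ Mlt (QT h)) :
    ∃ g' ∈ Mlt Q, ∀ x, g (qm h x) = qm h (g' x) := by
  induction hg using Subgroup.closure_induction with
  | mem g hg =>
    rcases hg with ⟨a, rfl⟩ | ⟨a, rfl⟩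
    · obtain ⟨y, rfl⟩ := qm_surj h a
      exact ⟨L y, L_mem y, fun x => rfl⟩
    · obtain ⟨y, rfl⟩ := qm_surj h a
      exact ⟨R y, R_mem y, fun x => rfl⟩
  | one => exact ⟨1, one_mem _, fun x => rfl⟩
  | mul a b _ _ iha ihb =>
    obtain ⟨a', ha', ha⟩ := iha
    obtain ⟨b', hb', hb⟩ := ihb
    refine ⟨a' * b', mul_mem ha' hb', fun x => ?_⟩
    rw [Equiv.Perm.mul_apply, hb, ha]; rfl
  | inv a _ ih =>
    obtain ⟨a', ha', ha⟩ := ih
    refine ⟨a'⁻¹, inv_mem ha', fun x => ?_⟩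
    rw [Equiv.Perm.inv_eq_iff_eq, ha]
    congr 1
    exact (a'.apply_symm_apply x).symm

instance : Automorphic (QT h) where
  aut := by
    intro g hg hg1 a b
    obtain ⟨g', hg', hgg⟩ := lift_mlt h hg
    rw [← qm_one, hgg, qm_eq] at hg1
    obtain ⟨k, hk, hk'⟩ := hg1
    have h1 : (k * g') 1 = 1 := hk'
    have hm : k * g' ∈ Mlt Q := mul_mem (h.le hk) hg'
    have hgg' : ∀ x, g (qm h x) = qm h ((k * g') x) := by
      intro x
      rw [hgg, qm_eq]
      exact ⟨k, hk, rfl⟩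
    obtain ⟨x, rfl⟩ := qm_surj h a
    obtain ⟨y, rfl⟩ := qm_surj h b
    rw [← qm_mul, hgg', hgg', hgg', aut hm h1, qm_mul]

theorem qm_iv (x : Q) : qm h (iv x) = iv (qm h x) := by
  apply iv_unique
  rw [← qm_mul, mul_iv, qm_one]

theorem qm_gh {g : Equiv.Perm Q} (hg : g ∈ Gh Q) {x y : Q} :
    qm h x = qm h y ↔ qm h (g x) = qm h (g y) := by
  have key : ∀ g ∈ Gh Q, ∀ x y, qm h x = qm h y → qm h (g x) = qm h (g y) := by
    intro g hg x y hxy
    rw [qm_eq] at hxy ⊢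
    obtain ⟨k, hk, rfl⟩ := hxy
    refine ⟨g * k * g⁻¹, h.conj g hg k hk, ?_⟩
    simp only [Equiv.Perm.mul_apply]
    have : g⁻¹ (g x) = x := g.symm_apply_apply x
    rw [this]
  refine ⟨key g hg x y, fun h1 => ?_⟩
  have h2 := key g⁻¹ (inv_mem hg) _ _ h1
  have e : ∀ z, g⁻¹ (g z) = z := fun z => g.symm_apply_apply z
  rwa [e, e] at h2

/-- the induced permutation -/
def qp (g : Gh Q) : Equiv.Perm (QT h) :=
  Quotient.congr (ra := orbS K) (rb := orbS K) g.1 (fun x y => by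
    have := qm_gh h g.2 (x := x) (y := y)
    rw [qm_eq, qm_eq] at this
    exact this)

theorem qp_qm (g : Gh Q) (x : Q) : qp h g (qm h x) = qm h (g.1 x) := rfl

theorem push_gh {g : Equiv.Perm Q} (hg : g ∈ Gh Q) :
    ∃ g' ∈ Gh (QT h), ∀ x, g' (qm h x) = qm h (g x) := by
  have hm : ∀ g ∈ Mlt Q, ∃ g' ∈ Gh (QT h), ∀ x, g' (qm h x) = qm h (g x) := by
    intro g hg
    induction hg using Subgroup.closure_induction with
    | mem g hg =>
      rcases hg with ⟨a, rfl⟩ | ⟨a, rfl⟩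
      · exact ⟨L (qm h a), mlt_le (L_mem _), fun x => rfl⟩
      · exact ⟨R (qm h a), mlt_le (R_mem _), fun x => rfl⟩
    | one => exact ⟨1, one_mem _, fun x => rfl⟩
    | mul a b _ _ iha ihb =>
      obtain ⟨a', ha', ha⟩ := iha
      obtain ⟨b', hb', hb⟩ := ihb
      refine ⟨a' * b', mul_mem ha' hb', fun x => ?_⟩
      rw [Equiv.Perm.mul_apply, hb, ha]; rfl
    | inv a _ ih =>
      obtain ⟨a', ha', ha⟩ := ih
      refine ⟨a'⁻¹, inv_mem ha', fun x => ?_⟩
      rw [Equiv.Perm.inv_eq_iff_eq, ha]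
      congr 1
      exact (a.apply_symm_apply x).symm
  induction hg using Subgroup.closure_induction with
  | mem g hg =>
    rcases hg with hg | hg
    · exact hm g hg
    · rw [Set.mem_singleton_iff] at hg
      rw [hg]
      refine ⟨J, J_mem, fun x => ?_⟩
      rw [J_apply, J_apply, qm_iv]
  | one => exact ⟨1, one_mem _, fun x => rfl⟩
  | mul a b _ _ iha ihb =>
    obtain ⟨a', ha', ha⟩ := iha
    obtain ⟨b', hb', hb⟩ := ihb
    refine ⟨a' * b', mul_mem ha' hb', fun x => ?_⟩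
    rw [Equiv.Perm.mul_apply, hb, ha]; rfl
  | inv a _ ih =>
    obtain ⟨a', ha', ha⟩ := ih
    refine ⟨a'⁻¹, inv_mem ha', fun x => ?_⟩
    rw [Equiv.Perm.inv_eq_iff_eq, ha]
    congr 1
    exact (a.apply_symm_apply x).symm

theorem qp_mem (g : Gh Q) : qp h g ∈ Gh (QT h) := by
  obtain ⟨g', hg', hgg⟩ := push_gh h g.2
  have : qp h g = g' := by
    apply Equiv.ext
    intro a
    obtain ⟨x, rfl⟩ := qm_surj h a
    rw [hgg]; rfl
  rw [this]; exact hg'

/-- the induced homomorphism -/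
def qpi : Gh Q →* Gh (QT h) where
  toFun g := ⟨qp h g, qp_mem h g⟩
  map_one' := by
    apply Subtype.ext
    apply Equiv.ext
    intro a
    obtain ⟨x, rfl⟩ := qm_surj h a
    rfl
  map_mul' a b := by
    apply Subtype.ext
    apply Equiv.ext
    intro a
    obtain ⟨x, rfl⟩ := qm_surj h a
    rfl

theorem qpi_qm (g : Gh Q) (x : Q) : (qpi h g).1 (qm h x) = qm h (g.1 x) := rfl

theorem qm_s (x y : Q) : s (qm h x) (qm h y) = qm h (s x y) := by
  rw [s, s]
  simp only [Equiv.Perm.mul_apply]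
  have : (L (qm h x))⁻¹ (qm h y) = qm h ((L x)⁻¹ y) := by
    rw [Equiv.Perm.inv_eq_iff_eq, H361AL.L_apply, ← qm_mul]
    congr 1
    exact ((L x).apply_symm_apply y).symm
  rw [this, J_apply, ← qm_iv]; rfl

theorem solv_QT (hs : Group.IsSolvable (N Q)) : Group.IsSolvable (N (QT h)) := by
  let ι : N Q →* Equiv.Perm (QT h) :=
    ((Gh (QT h)).subtype.comp (qpi h)).comp
      (Subgroup.inclusion (N_le_mlt.trans mlt_le : N Q ≤ Gh Q))
  have h1 : N (QT h) ≤ ι.range := by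
    rw [N, Subgroup.closure_le]
    rintro _ ⟨a, rfl⟩
    obtain ⟨x, rfl⟩ := qm_surj h a
    refine ⟨⟨s x * s 1, P_mem_N x⟩, ?_⟩
    apply Equiv.ext
    intro b
    obtain ⟨y, rfl⟩ := qm_surj h b
    change qm h (s x (s 1 y)) = s (qm h x) (s 1 (qm h y))
    rw [← qm_one, qm_s, qm_s]
  have h2 : Group.IsSolvable ι.range := Group.isSolvable_of_surjective ι.rangeRestrict_surjective
  exact Group.isSolvable_of_isSolvable_injective (Subgroup.inclusion_injective h1)

end Pool.Agent.W328.OD
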