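import Pool.Agent.W328.OD.Main2
import Pool.Agent.W328.OD.Quot

/-!
The non-central case and the central case.
-/

set_option autoImplicit false
set_option linter.unusedSectionVars false

namespace Pool.Agent.W328.OD

open H361AL

universe u

variable {Q : Type u} [Loop Q] [Automorphic Q]

namespace Dat

variable {D : Dat Q}

theorem Lg_inv_self (x : Q) : ((Lg x)⁻¹ : Gh Q).1 x = 1 := by
  change (L x)⁻¹ x = 1
  rw [Equiv.Perm.inv_eq_iff_eq, L_one']

/-- the points of the `W`-orbit of `x` are the products `x (v 1)` -/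
theorem orb_mul [Finite Q] (hodd : Odd (Nat.card Q)) (x : Q) (b : D.A) :
    ∃ v ∈ D.Vy 1, pm b x = x * pm v 1 := by
  obtain ⟨v, hv, hvb, _⟩ := exists_Vy hodd x b
  refine ⟨(Lg x)⁻¹ • v, ?_, ?_⟩
  · have h := smul_Vy (Lg x)⁻¹ hv
    rwa [Lg_inv_self] at h
  · rw [mul_pm_one, smul_inv_smul, hvb]

theorem Vmu_dich [Finite Q] (D : Dat Q) (hodd : Odd (Nat.card Q)) :
    (∀ w ∈ D.Vy 1, ∀ X, lam X w = 0) ∨
      (∀ w ∈ D.Vy 1, (∀ X, lam X w = 0) → w = 0) := by
  by_cases h : ∀ w ∈ D.Vy 1, (∀ X, lam X w = 0) → w = 0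
  · exact Or.inr h
  · left
    push Not at h
    obtain ⟨w0, hw0, hw0', hne⟩ := h
    let U : AddSubgroup D.A :=
      { carrier := {w | w ∈ D.Vy 1 ∧ ∀ X, lam X w = 0}
        zero_mem' := ⟨zero_mem _, fun X => lam_zero hodd X⟩
        add_mem' := by
          rintro a b ⟨ha, ha'⟩ ⟨hb, hb'⟩
          refine ⟨add_mem ha hb, fun X => ?_⟩
          rw [lam_add hodd X ha hb, ha', hb', add_zero]
        neg_mem' := by
          rintro a ⟨ha, ha'⟩
          refine ⟨neg_mem ha, fun X => ?_⟩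
          rw [lam_neg hodd X ha, ha', neg_zero] }
    have h1 : D.Vy 1 ≤ U := by
      apply irr hodd U
      · exact fun w hw => hw.1
      · rintro g hg hg1 w ⟨hw, hw'⟩
        refine ⟨smul_V g hg1 hw, fun X => ?_⟩
        have h2 := smul_lam hodd hg hg1 ((g⁻¹).1 X) hw
        rw [hw', smul_zero] at h2
        have e : g.1 ((g⁻¹).1 X) = X := g.1.apply_symm_apply X
        rw [e] at h2
        exact h2.symm
      · exact ⟨w0, ⟨hw0, hw0'⟩, hne⟩
    intro w hw
    exact (h1 hw).2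

/-- `P_z⁻¹ L_{z z}` -/
noncomputable def psi (z : Q) : Gh Q := (sg z * sg 1)⁻¹ * Lg (z * z)

theorem psi_mlt (z : Q) : (psi z).1 ∈ Mlt Q := mul_mem (inv_mem (P_mem_mlt z)) (L_mem _)

theorem psi_one (z : Q) : (psi z).1 1 = 1 := by
  change ((s z * s 1)⁻¹ * L (z * z)) 1 = 1
  rw [Equiv.Perm.mul_apply, L_one', Equiv.Perm.inv_eq_iff_eq]
  exact (P_one z).symm

theorem Lg_sq (z : Q) : Lg (z * z) = sg z * sg 1 * psi z := by
  rw [psi]; group

theorem smul_nsm (g : Gh Q) (n : ℕ) (a : D.A) : g • (n • a) = n • (g • a) := by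
  induction n with
  | zero => rw [zero_smul, zero_smul, smul_zero]
  | succ n ih => rw [succ_nsmul, succ_nsmul, smul_add, ih]

theorem coprime_smul [Finite Q] (hodd : Odd (Nat.card Q)) {r : ℕ} (hr : r.Prime) (hne : r ≠ D.p)
    {a : D.A} (h : r • a = 0) : a = 0 := by
  have h1 := p_smul hodd a
  rw [← addOrderOf_dvd_iff_nsmul_eq_zero] at h h1
  have h2 : Nat.gcd r D.p = 1 := by
    rw [← Nat.coprime_iff_gcd_eq_one, Nat.coprime_primes hr D.hp]
    exact hne
  have h3 := Nat.dvd_gcd h h1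
  rw [h2, Nat.dvd_one] at h3
  rwa [AddMonoid.addOrderOf_eq_one_iff] at h3

namespace QD

variable {Q' : Type u} [Loop Q'] [Automorphic Q'] (E : QD D Q')
  [Finite Q] [Finite Q'] (hodd : Odd (Nat.card Q)) (hodd' : Odd (Nat.card Q'))
  (hnc : ∀ a : D.A, (∀ g : Gh Q, g • a ∈ D.Vy 1) → a = 0) (D' : Dat Q')
  (ih : ∀ v ∈ D'.Vy 1, ∀ x y : Q', (x * pm v 1) * y = x * (pm v 1 * y))

include E hodd hodd' hnc ih in
theorem kap_left {t : Q} (ht : t ∈ E.T D') (Y : Q) {v : D.A} (hv : v ∈ D.Vy 1) :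
    kap t Y • v = v := by
  have h1 := kap_iv (iv Y) (iv t)
  rw [iv_iv, iv_iv] at h1
  rw [h1, inv_smul_eq_iff, E.kap_triv hodd hodd' hnc D' ih (E.T_iv D' ht) (iv Y) hv]

include E hodd hodd' hnc ih in
theorem kap_mulT {t : Q} (ht : t ∈ E.T D') (X Y : Q) {v : D.A} (hv : v ∈ D.Vy 1) :
    kap (X * t) Y • v = kap X Y • v := by
  let z : Gh Q := (Lg (X * t))⁻¹ * Lg X * Lg t
  have hzm : z.1 ∈ Mlt Q := mul_mem (mul_mem (inv_mem (L_mem _)) (L_mem _)) (L_mem _)
  have hz : ∀ x, E.f (z.1 x) = E.f x := by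
    intro x
    rw [← E.π_f]
    have : E.π z = (Lg (E.f X * E.f t))⁻¹ * Lg (E.f X) * Lg (E.f t) := by
      change E.π ((Lg (X * t))⁻¹ * Lg X * Lg t) = _
      rw [_root_.map_mul, _root_.map_mul, map_inv, E.π_Lg, E.π_Lg, E.π_Lg, E.f_mul]
    rw [this]
    change (L (E.f X * E.f t))⁻¹ (E.f X * (E.f t * E.f x)) = E.f x
    rw [Equiv.Perm.inv_eq_iff_eq, ← E.T_nuc D' ih ht]
    rfl
  have hcen := E.central hodd hnc hzm hz
  have hkL := E.kap_L hodd hnc D' ih ht X Y
  set A := D.sig (Lg X) with hA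
  set B := D.sig (Lg t) with hB
  set C := D.sig (Lg (X * t)) with hC
  set R' := D.sig (Rg Y) with hR
  set Z := D.sig z with hZ
  have hZ' : Z = C⁻¹ * A * B := by
    rw [hZ]
    change D.sig ((Lg (X * t))⁻¹ * Lg X * Lg t) = _
    rw [_root_.map_mul, _root_.map_mul, map_inv]
  have hC' : C = A * B * Z⁻¹ := by rw [hZ']; group
  have hk1 : D.sig (kap (X * t) Y) = C⁻¹ * R'⁻¹ * C * R' := by
    rw [kap, _root_.map_mul, _root_.map_mul, _root_.map_mul, map_inv, map_inv]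
  have hk2 : D.sig (kap X Y) = A⁻¹ * R'⁻¹ * A * R' := by
    rw [kap, _root_.map_mul, _root_.map_mul, _root_.map_mul, map_inv, map_inv]
  have hk3 : D.sig (kap t Y) = B⁻¹ * R'⁻¹ * B * R' := by
    rw [kap, _root_.map_mul, _root_.map_mul, _root_.map_mul, map_inv, map_inv]
  have hM := hcen ((Lg t)⁻¹ * (Lg X)⁻¹ * (Rg Y)⁻¹ * Lg X * Lg t)
  simp only [_root_.map_mul, map_inv] at hM
  rw [← hA, ← hB, ← hR] at hM
  have key : D.sig (kap (X * t) Y) = D.sig (kap X Y) * D.sig (kap t Y) := by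
    have e1 : C⁻¹ * R'⁻¹ * C * R' = Z * (B⁻¹ * A⁻¹ * R'⁻¹ * A * B) * Z⁻¹ * R' := by
      rw [hC']; group
    have e2 : B⁻¹ * A⁻¹ * R'⁻¹ * A * B * Z * Z⁻¹ * R' =
        B⁻¹ * ((A⁻¹ * R'⁻¹ * A * R') * B) * (B⁻¹ * R'⁻¹ * B * R') := by group
    rw [hk1, e1, hM, e2, ← hk2, hkL, ← hk3]; group
  rw [← _root_.map_mul, sig_eq_iff] at key
  rw [key v hv.1, mul_smul, E.kap_left hodd hodd' hnc D' ih ht Y hv]

include E hodd hodd' hnc ih in
theorem lam_mulT {t : Q} (ht : t ∈ E.T D') (X : Q) {w : D.A} (hw : w ∈ D.Vy 1) :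
    lam (X * t) w = lam X w := by
  apply eta_ext hodd
  intro Y
  rw [eta_lam hodd _ hw, eta_lam hodd _ hw]
  have hv : (kap X Y)⁻¹ • w ∈ D.Vy 1 := smul_V _ (inv_fix (kap_one X Y)) hw
  have h1 : (kap (X * t) Y)⁻¹ • w = (kap X Y)⁻¹ • w := by
    rw [inv_smul_eq_iff, E.kap_mulT hodd hodd' hnc D' ih ht X Y hv, smul_inv_smul]
  rw [h1]

include E hodd hnc in
theorem lam_cong {X X' : Q} (h : E.f X = E.f X') {w : D.A} (hw : w ∈ D.Vy 1) :
    lam X w = lam X' w := by
  apply eta_ext hodd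
  intro Y
  rw [eta_lam hodd _ hw, eta_lam hodd _ hw]
  have h1 : D.sig (kap X Y)⁻¹ = D.sig (kap X' Y)⁻¹ := by
    rw [map_inv, map_inv, kap, kap, _root_.map_mul, _root_.map_mul, _root_.map_mul,
      _root_.map_mul, _root_.map_mul, _root_.map_mul, map_inv, map_inv, map_inv,
      E.sig_Lg hodd hnc h]
  rw [(sig_eq_iff.1 h1) w hw.1]

include E hodd hodd' hnc ih in
theorem psi_lam {z : Q} (hz : z ∈ E.T D') (X : Q) {w : D.A} (hw : w ∈ D.Vy 1) :
    psi z • lam X w = lam X w := by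
  have hv : (kap X z)⁻¹ • w = w := by
    rw [inv_smul_eq_iff, E.kap_triv hodd hodd' hnc D' ih hz X hw]
  have h1 : eta z (lam X w) = 0 := by
    rw [eta_lam hodd _ hw, hv, sub_self, add_zero, smul_zero]
  rw [eta_pt_zero hodd] at h1
  have h2 := lam_one hodd X hw
  have e1 : (pg (lam X w) : Gh Q) * (sg z * sg 1) = (sg z * sg 1) * pg (lam X w) := by
    have a1 : (pg (lam X w) : Gh Q).1 z = z := h1
    have a2 : (pg (lam X w) : Gh Q).1 1 = 1 := h2
    have b1 : Commute (pg (lam X w) : Gh Q) (sg z) := by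
      change _ = _
      rw [mul_sg, a1]
    have b2 : Commute (pg (lam X w) : Gh Q) (sg 1) := by
      change _ = _
      rw [mul_sg, a2]
    exact b1.mul_right b2
  have e2 : (pg (lam X w) : Gh Q) * Lg (z * z) = Lg (z * z) * pg (lam X w) := by
    have a1 : (pg (lam X w) : Gh Q).1 (z * z) = z * z := by
      change pm (lam X w) (z * z) = z * z
      rw [aut (pm_mlt _) h2, h1]
    rw [mul_Lg (pm_mlt _) h2, a1]
  have e3 : (pg (lam X w) : Gh Q) * psi z = psi z * pg (lam X w) := by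
    have c1 : Commute (pg (lam X w) : Gh Q) (sg z * sg 1) := e1
    have c2 : Commute (pg (lam X w) : Gh Q) (Lg (z * z)) := e2
    exact (c1.inv_right).mul_right c2
  apply pm_inj
  rw [pm_smul]
  have h3 := congrArg Subtype.val e3
  change pm (lam X w) * (psi z).1 = (psi z).1 * pm (lam X w) at h3
  rw [← h3]; group

include hodd' in
theorem psi_orbit {z : Q} (hz : z ∈ E.T D') (X : Q) :
    ∃ t ∈ E.T D', E.f ((psi z).1 X) = E.f (X * t) := by
  obtain ⟨v, hv, hvt⟩ := hz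
  have h1 : E.π (psi z) = (pg (v + v))⁻¹ * Lg (E.f z * E.f z) := by
    rw [psi, _root_.map_mul, map_inv, E.π_P D' hv hvt, E.π_Lg, E.f_mul]
  have h2 : E.f ((psi z).1 X) = pm (-(v + v) + Rg (E.f X) • (v + v)) (E.f X) := by
    rw [← E.π_f, h1]
    change (pm (v + v))⁻¹ ((E.f z * E.f z) * E.f X) = _
    rw [hvt, V_mul hodd' hv hv, pm_mul, Loop.one_mul']
    rfl
  obtain ⟨v1, hv1, hv1'⟩ := orb_mul hodd' (E.f X) (-(v + v) + Rg (E.f X) • (v + v))
  obtain ⟨t, ht⟩ := E.surj (pm v1 1)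
  refine ⟨t, ⟨v1, hv1, ht⟩, ?_⟩
  rw [h2, hv1', E.f_mul, ht]

include E hodd hodd' hnc ih in
theorem psi_V {z : Q} (hz : z ∈ E.T D') {w : D.A} (hw : w ∈ D.Vy 1) (X : Q) :
    lam X (psi z • w - w) = 0 := by
  have hψw : psi z • w ∈ D.Vy 1 := smul_V _ (psi_one z) hw
  have h1 := smul_lam hodd (psi_mlt z) (psi_one z) X hw
  rw [E.psi_lam hodd hodd' hnc D' ih hz X hw] at h1
  obtain ⟨t, ht, hft⟩ := E.psi_orbit hodd' D' hz X
  rw [E.lam_cong hodd hnc hft hψw, E.lam_mulT hodd hodd' hnc D' ih ht X hψw] at h1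
  rw [sub_eq_add_neg, lam_add hodd X hψw (neg_mem hw), lam_neg hodd X hw, ← h1, add_neg_cancel]

include E hodd hodd' hnc in
theorem P_triv (hψ : ∀ z ∈ E.T D', ∀ w ∈ D.Vy 1, psi z • w = w) :
    ∀ z ∈ E.T D', ∀ a ∈ D.WA, (sg z * sg 1 : Gh Q) • a = a := by
  intro z hz
  set P : Gh Q := sg z * sg 1 with hP
  have hr : ∀ a ∈ D.WA, P ^ D'.p • a = a := by
    have := E.P_pow hodd hodd' hnc D' hz
    rwa [← _root_.map_pow, sig_one_iff] at this
  have hne := E.r_ne_p hodd hodd' hnc D'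
  have hcosh : ∀ w ∈ D.Vy 1, P • P • w - P • w = P • w - w := by
    intro w hw
    have hJw : (Jg : Gh Q) • w = -w := Jg_V hw
    have h1 := eqE hodd hw (z * z)
    have h2 : P • P • w = - (sg (z * z) • w) := by
      rw [sg_sq, hP]
      have : (sg z * sg (1 : Q)) • (sg z * sg (1 : Q)) • w =
          (sg z * sg (1 : Q) * sg z) • sg (1 : Q) • w := by
        rw [← mul_smul, ← mul_smul]
        congr 1
      rw [this, sg_one, hJw, smul_neg]
    have h3 : Lg (z * z) • w = P • w := by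
      rw [Lg_sq, mul_smul, hψ z hz w hw]
    have h4 : Rg (z * z) • w = P • w := by
      rw [Rg_eq, aaip, mul_smul, mul_smul, hJw, Lg_sq, mul_smul,
        hψ (iv z) (E.T_iv D' hz) (-w) (neg_mem hw)]
      have e : (sg (iv z) : Gh Q) * sg 1 = Jg * sg z := by
        have h5 := conj_sg (Jg : Gh Q) z
        have h6 : (Jg : Gh Q).1 z = iv z := rfl
        rw [h6] at h5
        rw [← h5, sg_one]; group
      rw [e, ← mul_smul, ← mul_assoc, Jg_mul_Jg, one_mul, hP, mul_smul, sg_one, hJw]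
    rw [h3, h4] at h1
    rw [h2]
    have : -(sg (z * z) • w) - P • w = (w - sg (z * z) • w) - P • w - w := by abel
    rw [this, h1]; abel
  have hV : ∀ w ∈ D.Vy 1, P • w = w := by
    intro w hw
    have h1 : ∀ n : ℕ, P ^ n • w = w + n • (P • w - w) := by
      intro n
      induction n with
      | zero => rw [pow_zero, one_smul, zero_smul, add_zero]
      | succ n ihn =>
        rw [pow_succ', mul_smul, ihn, smul_add, smul_nsm, smul_sub, hcosh w hw, succ_nsmul]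
        abel
    have h2 := h1 D'.p
    rw [hr w hw.1] at h2
    have h3 := coprime_smul hodd D'.hp hne (left_eq_add.1 h2)
    exact sub_eq_zero.1 h3
  have hplus : ∀ c ∈ D.WA, (Jg : Gh Q) • c = c → P • c = c := by
    intro c hc hJc
    have hJP : (Jg : Gh Q) • P • c = P⁻¹ • c := by
      rw [← mul_smul, hP, Jg_P, mul_smul, hJc]
    have hJP' : (Jg : Gh Q) • P⁻¹ • c = P • c := by
      rw [← hJP, ← mul_smul, Jg_mul_Jg, one_smul]
    have hd : P • c - P⁻¹ • c ∈ D.Vy 1 := by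
      refine ⟨sub_mem (smul_WA _ hc) (smul_WA _ hc), ?_⟩
      rw [sg_one, smul_sub, hJP, hJP', neg_sub]
    have h1 := hV _ hd
    rw [smul_sub, smul_inv_smul] at h1
    set e := P • P • c - c with he
    have hPe : P • e = e := by rw [h1]; exact hV _ hd
    have h2 : ∀ n : ℕ, (P * P) ^ n • c = c + n • e := by
      intro n
      induction n with
      | zero => rw [pow_zero, one_smul, zero_smul, add_zero]
      | succ n ihn =>
        rw [pow_succ', mul_smul, ihn, mul_smul, smul_add, smul_add, smul_nsm, smul_nsm,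
          hPe, hPe, succ_nsmul, he]
        abel
    have h3 := h2 D'.p
    have h4 : (P * P) ^ D'.p • c = c := by
      rw [(Commute.refl P).mul_pow, mul_smul, hr c hc, hr c hc]
    rw [h4] at h3
    have h5 := coprime_smul hodd D'.hp hne (left_eq_add.1 h3)
    rw [he, sub_eq_zero] at h5
    exact sq_fix hodd z 1 h5
  intro a ha
  apply two_inj hodd
  have h1 : eta 1 a ∈ D.Vy 1 := eta_mem hodd 1 a
  have h2 := hV _ h1
  rw [eta, sg_one] at h2
  have h3 := hplus (a + (Jg : Gh Q) • a) (add_mem ha (smul_WA _ ha)) (by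
    rw [smul_add, ← mul_smul, Jg_mul_Jg, one_smul, add_comm])
  have e : P • a + P • a = P • (a - (Jg : Gh Q) • a) + P • (a + (Jg : Gh Q) • a) := by
    rw [← smul_add, ← smul_add]
    congr 1
    abel
  rw [e, h2, h3]; abel

include E hodd hodd' hnc ih in
theorem nc_main : ∀ w ∈ D.Vy 1, ∀ X, lam X w = 0 := by
  rcases D.Vmu_dich hodd with h | h
  · exact h
  · exfalso
    apply E.not_all_P0 hodd' D'
    apply E.P_triv hodd hodd' hnc D'
    intro z hz w hw
    have h1 := h (psi z • w - w) (sub_mem (smul_V _ (psi_one z) hw) hw)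
      (fun X => E.psi_V hodd hodd' hnc D' ih hz hw X)
    exact sub_eq_zero.1 h1

end QD

open Pool.Agent.H687R3.ALG in
/-- the central case -/
theorem c_main [Finite Q] (hodd : Odd (Nat.card Q)) (hc : ∀ a ∈ D.WA, ∀ y, a ∈ D.Vy y) :
    ∀ w ∈ D.Vy 1, ∀ X, lam X w = 0 := by
  rcases D.Vmu_dich hodd with h | h
  · exact h
  · exfalso
    let M : Set Q := {x | ∃ w ∈ D.Vy 1, x = pm w 1}
    have hinv : ∀ u ∈ D.Vy 1, ((Lg (pm u 1))⁻¹ : Gh Q).1 1 = pm (-u) 1 := by
      intro u hu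
      rw [← iv_V hu]; rfl
    have hM : IsNormalSubloop M :=
      { one_mem := ⟨0, zero_mem _, rfl⟩
        mul_mem := by
          rintro _ ⟨u, hu, rfl⟩ _ ⟨v, hv, rfl⟩
          exact ⟨v + u, add_mem hv hu, QD.V_mul hodd hu hv⟩
        left_div := by
          rintro _ ⟨u, hu, rfl⟩ y ⟨v, hv, hy⟩
          refine ⟨v - u, sub_mem hv hu, ?_⟩
          apply (bij_left (pm u 1)).1
          change pm u 1 * y = pm u 1 * pm (v - u) 1
          rw [hy, QD.V_mul hodd hu (sub_mem hv hu), sub_add_cancel]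
        right_div := by
          rintro _ ⟨u, hu, rfl⟩ y ⟨v, hv, hy⟩
          refine ⟨v - u, sub_mem hv hu, ?_⟩
          apply (bij_right (pm u 1)).1
          change y * pm u 1 = pm (v - u) 1 * pm u 1
          rw [hy, QD.V_mul hodd (sub_mem hv hu) hu, add_sub_cancel]
        inn_mem := by
          rintro g hg hg1 _ ⟨u, hu, rfl⟩
          refine ⟨(⟨g, mlt_le hg⟩ : Gh Q) • u, smul_V _ hg1 hu, ?_⟩
          have := ap_pm (⟨g, mlt_le hg⟩ : Gh Q) u 1
          change g (pm u 1) = pm _ (g 1) at this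
          rw [hg1] at this
          exact this }
    obtain ⟨u, hu, hu0⟩ := D.V_ne hodd 1
    have haM : pm u 1 ∈ M := ⟨u, hu, rfl⟩
    have ha : pm u 1 ≠ 1 := fun h => hu0 (free hodd hu h)
    have hcomm : ∀ x : Q, P (pm u 1) * P x = P x * P (pm u 1) := by
      intro x
      have h1 : P (pm u 1) = pm (u + u) := by rw [P_eq', ← eta_of_Vy hu, pm_eta]
      have h2 : (sg x * sg 1 : Gh Q) • (u + u) = u + u := by
        have hWA : u + u ∈ D.WA := add_mem hu.1 hu.1
        rw [mul_smul, (hc _ hWA 1).2, smul_neg, (hc _ hWA x).2, neg_neg]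
      have h3 := congrArg pm h2
      rw [pm_smul, mul_inv_eq_iff_eq_mul] at h3
      rw [h1, P_eq']
      exact h3.symm
    obtain ⟨b, ⟨w, hw, rfl⟩, hb1, hb, _⟩ := final hodd hM haM ha hcomm
    have h1 := h w hw ((lam_iff hodd hw).2 hb)
    apply hb1
    rw [h1]; rfl

end Dat

end Pool.Agent.W328.OD
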