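import Pool.Agent.W328.OD.Rel

/-!
The non-central case: the kernel `P0` of the action of `N Q` on `W` and the homomorphism `sig`.
-/

set_option autoImplicit false

namespace Pool.Agent.W328.OD

open H361AL

universe u

variable {Q : Type u} [Loop Q] [Automorphic Q]

namespace Dat

/-- the elements of `N Q` centralising `W` -/
def P0 (D : Dat Q) : Subgroup (Equiv.Perm Q) where
  carrier := {g | g ∈ N Q ∧ ∀ w ∈ D.W, g * w = w * g}
  one_mem' := ⟨one_mem _, fun w _ => by rw [mul_one, one_mul]⟩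
  mul_mem' := by
    rintro g h ⟨hg1, hg3⟩ ⟨hh1, hh3⟩
    refine ⟨mul_mem hg1 hh1, ?_⟩
    intro w hw
    rw [mul_assoc, hh3 w hw, ← mul_assoc, hg3 w hw, mul_assoc]
  inv_mem' := by
    rintro g ⟨hg1, hg3⟩
    refine ⟨inv_mem hg1, ?_⟩
    intro w hw
    have : Commute g w := hg3 w hw
    exact this.inv_left

variable {D : Dat Q}

theorem P0_conj {g : Equiv.Perm Q} (hg : g ∈ Gh Q) {c : Equiv.Perm Q} (hc : c ∈ D.P0) :
    g * c * g⁻¹ ∈ D.P0 := by
  obtain ⟨hc1, hc2⟩ := hc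
  refine ⟨N_conj hg hc1, ?_⟩
  intro w hw
  have h1 : g⁻¹ * w * g ∈ D.W := by
    have := D.conj g⁻¹ (inv_mem hg) w hw
    rwa [inv_inv] at this
  have h2 := hc2 _ h1
  have e1 : g * c * g⁻¹ * w = g * (c * (g⁻¹ * w * g)) * g⁻¹ := by group
  have e2 : w * (g * c * g⁻¹) = g * ((g⁻¹ * w * g) * c) * g⁻¹ := by group
  rw [e1, e2, h2]

theorem P0_mlt {c : Equiv.Perm Q} (hc : c ∈ D.P0) : c ∈ Mlt Q := N_le_mlt hc.1
theorem P0_gh {c : Equiv.Perm Q} (hc : c ∈ D.P0) : c ∈ Gh Q := mlt_le (P0_mlt hc)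

theorem P0_smul {c : Gh Q} (hc : c.1 ∈ D.P0) {a : D.A} (ha : a ∈ D.WA) : c • a = a := by
  apply pm_inj
  rw [pm_smul, hc.2 _ ha]; group

theorem mem_P0_iff {c : Gh Q} (hc : c.1 ∈ N Q) : c.1 ∈ D.P0 ↔ ∀ a ∈ D.WA, c • a = a := by
  refine ⟨fun h a ha => P0_smul h ha, fun h => ⟨hc, fun w hw => ?_⟩⟩
  have h1 : D.el w (D.W_le_F hw) ∈ D.WA := hw
  have h2 := congrArg pm (h _ h1)
  rw [pm_smul, pm_el, mul_inv_eq_iff_eq_mul] at h2
  exact h2

theorem W_le_P0 (D : Dat Q) : D.W ≤ D.P0 := fun w hw => ⟨D.le_N hw, fun v hv => D.comm w hw v hv⟩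

theorem sg_P0 {c : Equiv.Perm Q} (hc : c ∈ D.P0) (y : Q) {a : D.A} (ha : a ∈ D.WA) :
    sg (c y) • a = sg y • a := by
  let cg : Gh Q := ⟨c, P0_gh hc⟩
  have hcg : cg.1 ∈ D.P0 := hc
  have hcg' : (cg⁻¹).1 ∈ D.P0 := inv_mem hc
  have h : sg (c y) = cg * sg y * cg⁻¹ := (conj_sg cg y).symm
  rw [h, mul_smul, mul_smul, P0_smul hcg' ha, P0_smul hcg (smul_WA _ ha)]

/-- `N Q` acts trivially on `A` modulo `W` -/
theorem N_mod [Finite Q] (hodd : Odd (Nat.card Q)) {g : Equiv.Perm Q} (hg : g ∈ N Q) :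
    ∀ h : g ∈ Gh Q, ∀ a : D.A, (⟨g, h⟩ : Gh Q) • a - a ∈ D.WA := by
  induction hg using Subgroup.closure_induction with
  | mem g hg =>
    obtain ⟨x, rfl⟩ := hg
    intro h a
    have e : (⟨s x * s (1 : Q), h⟩ : Gh Q) = sg x * sg (1 : Q) := rfl
    have e' : (⟨(fun a : Q => s a * s 1) x, h⟩ : Gh Q) = sg x * sg (1 : Q) := e
    rw [e', mul_smul]
    have e2 : sg x • sg (1 : Q) • a - a = -(eta x (sg (1 : Q) • a) + eta (1 : Q) a) := by
      rw [eta, eta]; abel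
    rw [e2]
    exact neg_mem (add_mem (eta_mem hodd _ _).1 (eta_mem hodd _ _).1)
  | one =>
    intro h a
    have e : (⟨1, h⟩ : Gh Q) = 1 := rfl
    rw [e, one_smul, sub_self]; exact zero_mem _
  | mul g g' hg hg' ihg ihg' =>
    intro h a
    have hg1 : g ∈ Gh Q := mlt_le (N_le_mlt hg)
    have hg1' : g' ∈ Gh Q := mlt_le (N_le_mlt hg')
    have e : (⟨g * g', h⟩ : Gh Q) = ⟨g, hg1⟩ * ⟨g', hg1'⟩ := rfl
    rw [e, mul_smul]
    have := add_mem (ihg hg1 ((⟨g', hg1'⟩ : Gh Q) • a)) (ihg' hg1' a)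
    rwa [sub_add_sub_cancel] at this
  | inv g hg ih =>
    intro h a
    have hg1 : g ∈ Gh Q := mlt_le (N_le_mlt hg)
    have e : (⟨g⁻¹, h⟩ : Gh Q) = (⟨g, hg1⟩ : Gh Q)⁻¹ := rfl
    rw [e]
    have := neg_mem (ih hg1 ((⟨g, hg1⟩ : Gh Q)⁻¹ • a))
    rwa [smul_inv_smul, neg_sub] at this

section
variable [Finite Q] (hodd : Odd (Nat.card Q))
include hodd

theorem pow_sq_fix (y x : Q) (n : ℕ) {a : D.A}
    (h : ((sg y * sg x) ^ n * (sg y * sg x) ^ n) • a = a) : ((sg y * sg x) ^ n) • a = a := by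
  obtain ⟨m, hm⟩ := odd_order hodd y x
  set b : Gh Q := (sg y * sg x) ^ n with hb
  have h1 : (sg y * sg x) ^ (2 * m + 1) = 1 := by
    rw [← hm]
    apply Subtype.ext
    have : ((sg y * sg x : Gh Q) ^ (orderOf (s y * s x))).1 = (s y * s x) ^ orderOf (s y * s x) :=
      rfl
    rw [this, pow_orderOf_eq_one]; rfl
  have h2 : b ^ (2 * m + 1) = 1 := by
    rw [hb, ← pow_mul, mul_comm, pow_mul, h1, one_pow]
  have h3 : ∀ j : ℕ, (b * b) ^ j • a = a := by
    intro j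
    induction j with
    | zero => rw [pow_zero, one_smul]
    | succ j ih => rw [pow_succ, mul_smul, h, ih]
  have h4 : b = (b * b) ^ (m + 1) := by
    have : (b * b) ^ (m + 1) = b ^ (2 * m + 1) * b := by
      rw [← pow_two, ← pow_mul, ← pow_succ]
      congr 1
    rw [this, h2, one_mul]
  rw [h4, h3]

/-- `P_x ^ 2` fixes `a` implies `P_x` fixes `a` -/
theorem sq_fix (y x : Q) {a : D.A} (h : (sg y * sg x) • (sg y * sg x) • a = a) :
    (sg y * sg x) • a = a := by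
  have := pow_sq_fix hodd y x 1 (a := a) (by rw [pow_one, mul_smul]; exact h)
  rwa [pow_one] at this

omit [Finite Q] hodd in
theorem sg_sq (z : Q) : sg (z * z) = sg z * sg 1 * sg z := by
  have h : (sg z * sg 1).1 1 = z * z := P_one z
  rw [← h, ← conj_sg (sg z * sg 1) 1, mul_inv_rev, sg_inv, sg_inv]
  have e : sg z * sg 1 * sg 1 * (sg 1 * sg z) = sg z * (sg 1 * sg 1) * sg 1 * sg z := by group
  rw [e, sg_mul_sg, mul_one]

/-- for `c ∈ P0` and `z z = c 1` the element `P_z` centralises `W` -/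
theorem P0_root {c : Equiv.Perm Q} (hc : c ∈ D.P0) {z : Q} (hz : z * z = c 1) {a : D.A}
    (ha : a ∈ D.WA) : (sg z * sg 1) • a = a := by
  apply sq_fix hodd
  have h1 := sg_P0 hc 1 (smul_WA (sg 1) ha)
  rw [← hz, sg_sq, sg_smul_smul] at h1
  rw [mul_smul, mul_smul] at h1
  rw [mul_smul, mul_smul]
  exact h1

omit [Finite Q] hodd in
/-- Every element of `Gh Q` is the product of an element fixing `1` and an element of `N Q`. -/
theorem exists_fac [Finite Q] (hodd : Odd (Nat.card Q)) (g : Gh Q) :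
    ∃ φ n : Gh Q, φ.1 1 = 1 ∧ n.1 ∈ N Q ∧ g = φ * n := by
  obtain ⟨m, hm, hm1⟩ := N_trans hodd ((g⁻¹).1 1)
  let mg : Gh Q := ⟨m, mlt_le (N_le_mlt hm)⟩
  refine ⟨g * mg, mg⁻¹, ?_, inv_mem hm, ?_⟩
  · change g.1 (m 1) = 1
    rw [hm1]
    exact g.1.apply_symm_apply 1
  · group

/-- the key lemma of the non-central case -/
theorem P0_t (hnc : ∀ a : D.A, (∀ g : Gh Q, g • a ∈ D.Vy 1) → a = 0) {c : Gh Q}
    (hc : c.1 ∈ D.P0) {u : D.A} (hu : u ∈ D.Vy 1) : c • t u = t u := by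
  have key : ∀ c : Gh Q, c.1 ∈ D.P0 → c • t u - t u ∈ D.Vy 1 := by
    intro c hc
    obtain ⟨z, hz⟩ := sq_surj hodd (c.1 1)
    have hPz : ∀ a ∈ D.WA, (sg z * sg 1) • a = a := fun a ha => P0_root hodd hc hz ha
    let ψ : Gh Q := (sg z * sg 1)⁻¹ * c
    have hψm : ψ.1 ∈ Mlt Q := mul_mem (inv_mem (P_mem_mlt z)) (P0_mlt hc)
    have hψ1 : ψ.1 1 = 1 := by
      change ((s z * s 1)⁻¹ * c.1) 1 = 1
      rw [Equiv.Perm.mul_apply, Equiv.Perm.inv_eq_iff_eq, ← hz]
      exact (P_one z).symm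
    have hψu : ψ • u = u := by
      change ((sg z * sg 1)⁻¹ * c) • u = u
      rw [mul_smul, P0_smul hc hu.1, inv_smul_eq_iff, hPz u hu.1]
    have hc' : c = sg z * sg 1 * ψ := by
      change c = sg z * sg 1 * ((sg z * sg 1)⁻¹ * c)
      group
    have h1 : c • t u - t u = - eta z (t u) := by
      rw [hc', mul_smul, smul_t hodd hψm hψ1 hu, hψu, mul_smul, sg_one, Jfix (t_one hodd hu), eta]
      abel
    rw [h1]
    have h2 := eta_mem hodd z (t u)
    refine neg_mem ⟨h2.1, ?_⟩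
    have h3 := hPz _ (smul_WA (sg 1) h2.1)
    rw [mul_smul, sg_smul_smul, h2.2] at h3
    exact h3.symm
  have h0 : c • t u - t u = 0 := by
    apply hnc
    intro g
    obtain ⟨φ, n, hφ, hn, rfl⟩ := exists_fac hodd g
    rw [mul_smul]
    apply smul_V φ hφ
    set c' : Gh Q := n * c * n⁻¹ with hc'def
    have hc' : c'.1 ∈ D.P0 := P0_conj n.2 hc
    have h1 := N_mod hodd hn n.2 (t u)
    have h2 : n • (c • t u - t u) = (c' • (n • t u - t u) - (n • t u - t u)) +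
        (c' • t u - t u) := by
      rw [smul_sub, smul_sub, ← mul_smul c' n, hc'def]
      have : n * c * n⁻¹ * n = n * c := by group
      rw [this, mul_smul]; abel
    have h3 : c' • (n • t u - t u) = n • t u - t u := P0_smul hc' h1
    rw [h2, h3, sub_self, zero_add]
    exact key c' hc'
  exact sub_eq_zero.1 h0

/-- `L` is constant on `P0`-orbits modulo the centraliser of `W` -/
theorem Lg_P0 (hnc : ∀ a : D.A, (∀ g : Gh Q, g • a ∈ D.Vy 1) → a = 0) {c : Equiv.Perm Q}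
    (hc : c ∈ D.P0) (x : Q) {a : D.A} (ha : a ∈ D.WA) : Lg (c x) • a = Lg x • a := by
  let cg : Gh Q := ⟨c, P0_gh hc⟩
  have hcg : cg.1 ∈ D.P0 := hc
  have h := fact2 hodd (D := D) ((Lg x)⁻¹ * Lg (c x)) 1 ?_ ?_ a ha
  · rw [mul_smul, inv_smul_eq_iff] at h
    exact h
  · intro u hu
    rw [mul_smul, inv_smul_eq_iff]
    have h1 : eta x (t u) = eta (c x) (t u) := by
      have h2 := smul_eta cg x (t u)
      rw [P0_t hodd hnc hcg hu, P0_smul hcg (eta_mem hodd _ _).1] at h2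
      exact h2
    rw [t, eta_sub, eta_sub, eta_l hodd hu, eta_l hodd hu, eta_r hodd hu, eta_r hodd hu] at h1
    have h3 : Rg x • u - Lg x • u = Rg (c x) • u - Lg (c x) • u := by
      apply two_inj hodd
      have e1 : Rg x • u - Lg x • u + (Rg x • u - Lg x • u) =
        Rg x • u + Rg x • u - (Lg x • u + Lg x • u) := by abel
      have e2 : Rg (c x) • u - Lg (c x) • u + (Rg (c x) • u - Lg (c x) • u) =
        Rg (c x) • u + Rg (c x) • u - (Lg (c x) • u + Lg (c x) • u) := by abel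
      rw [e1, e2, h1]
    have h4 := eqE hodd hu x
    have h5 := eqE hodd hu (c x)
    rw [sg_P0 hc x hu.1, h4] at h5
    apply two_inj hodd
    have e1 : Lg (c x) • u + Lg (c x) • u = (Rg (c x) • u + Lg (c x) • u) -
      (Rg (c x) • u - Lg (c x) • u) := by abel
    have e2 : Lg x • u + Lg x • u = (Rg x • u + Lg x • u) -
      (Rg x • u - Lg x • u) := by abel
    rw [e1, e2, ← h5, ← h3]
  · intro y a ha
    let g : Gh Q := (Lg x)⁻¹ * Rg y
    have hc'' : (g * cg * g⁻¹).1 ∈ D.P0 := P0_conj g.2 hc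
    have h1 : ((Lg x)⁻¹ * Lg (c x)).1 y = (g * cg * g⁻¹).1 y := by
      have e1 : (g⁻¹).1 y = x := by
        have e2 : g.1 x = y := by
          change (L x)⁻¹ (x * y) = y
          exact (L x).symm_apply_apply y
        rw [← e2]
        exact g.1.symm_apply_apply x
      change (L x)⁻¹ (c x * y) = g.1 (c ((g⁻¹).1 y))
      rw [e1]; rfl
    rw [h1]
    exact sg_P0 hc'' y ha

theorem Rg_P0 (hnc : ∀ a : D.A, (∀ g : Gh Q, g • a ∈ D.Vy 1) → a = 0) {c : Equiv.Perm Q}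
    (hc : c ∈ D.P0) (x : Q) {a : D.A} (ha : a ∈ D.WA) : Rg (c x) • a = Rg x • a := by
  have hc' : J * c * J⁻¹ ∈ D.P0 := P0_conj J_mem hc
  have h1 : iv (c x) = (J * c * J⁻¹ : Equiv.Perm Q) (iv x) := by
    rw [J_inv]
    change iv (c x) = iv (c (iv (iv x)))
    rw [iv_iv]
  rw [Rg_eq, Rg_eq, h1, mul_smul, mul_smul, mul_smul, mul_smul,
    Lg_P0 hodd hnc hc' _ (smul_WA _ ha)]

end

noncomputable instance : SMul (Gh Q) D.WA where
  smul g a := ⟨g • a.1, smul_WA g a.2⟩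

theorem coe_smul (g : Gh Q) (a : D.WA) : (g • a).1 = g • a.1 := rfl

noncomputable instance : DistribMulAction (Gh Q) D.WA where
  one_smul a := Subtype.ext (one_smul _ a.1)
  mul_smul g h a := Subtype.ext (mul_smul g h a.1)
  smul_zero g := Subtype.ext (smul_zero g)
  smul_add g a b := Subtype.ext (smul_add g a.1 b.1)

/-- the action on `W` as a homomorphism -/
noncomputable def sig (D : Dat Q) : Gh Q →* Equiv.Perm D.WA :=
  MulAction.toPermHom (Gh Q) D.WA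

theorem sig_apply (g : Gh Q) (a : D.WA) : (D.sig g a).1 = g • a.1 := rfl

theorem sig_eq_iff {g h : Gh Q} : D.sig g = D.sig h ↔ ∀ a ∈ D.WA, g • a = h • a := by
  constructor
  · intro e a ha
    have := congrArg (fun k : Equiv.Perm D.WA => (k ⟨a, ha⟩).1) e
    exact this
  · intro e
    apply Equiv.ext
    intro a
    exact Subtype.ext (e a.1 a.2)

theorem sig_one_iff {g : Gh Q} : D.sig g = 1 ↔ ∀ a ∈ D.WA, g • a = a := by
  rw [← map_one D.sig, sig_eq_iff]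
  simp only [one_smul]

end Dat

end Pool.Agent.W328.OD
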