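import Pool.Agent.W328.OD.Irr

/-!
The elements `l u = L_{u 1}`, `r u = R_{u 1}`, `t u`, the inner mappings `lam X w` and the
relations between the commutators `kap X Y`.
-/

set_option autoImplicit false

namespace Pool.Agent.W328.OD

open H361AL

universe u

variable {Q : Type u} [Loop Q] [Automorphic Q]

namespace Dat

variable {D : Dat Q}

theorem Jfix {a : D.A} (h : pm a 1 = 1) : (Jg : Gh Q) • a = a := by
  apply pm_inj
  rw [pm_smul]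
  change J * pm a * J⁻¹ = pm a
  rw [← autJ (pm_mlt a) h]; group

theorem mul_Lg {φ : Gh Q} (hm : φ.1 ∈ Mlt Q) (h1 : φ.1 1 = 1) (x : Q) :
    φ * Lg x = Lg (φ.1 x) * φ := Subtype.ext (autL hm h1 x)

theorem mul_Rg {φ : Gh Q} (hm : φ.1 ∈ Mlt Q) (h1 : φ.1 1 = 1) (x : Q) :
    φ * Rg x = Rg (φ.1 x) * φ := Subtype.ext (autR hm h1 x)

theorem mul_Jg {φ : Gh Q} (hm : φ.1 ∈ Mlt Q) (h1 : φ.1 1 = 1) :
    φ * Jg = Jg * φ := Subtype.ext (autJ hm h1)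

theorem Jg_Lg (x : Q) : (Jg : Gh Q) * Lg x = Rg (iv x) * Jg := by
  rw [Rg_eq, iv_iv, mul_assoc, Jg_mul_Jg, mul_one]

theorem Jg_Rg (x : Q) : (Jg : Gh Q) * Rg x = Lg (iv x) * Jg := by
  rw [Lg_eq, iv_iv, mul_assoc, Jg_mul_Jg, mul_one]

theorem Jg_inv : (Jg : Gh Q)⁻¹ = Jg := by
  rw [inv_eq_iff_mul_eq_one]; exact Jg_mul_Jg

theorem Jg_Lg_inv (x : Q) : (Jg : Gh Q) * (Lg x)⁻¹ = (Rg (iv x))⁻¹ * Jg := by
  have h := Jg_Lg x
  have : (Rg (iv x))⁻¹ * (Jg * Lg x) * (Lg x)⁻¹ = (Rg (iv x))⁻¹ * (Rg (iv x) * Jg) * (Lg x)⁻¹ := by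
    rw [h]
  have e1 : (Rg (iv x))⁻¹ * (Jg * Lg x) * (Lg x)⁻¹ = (Rg (iv x))⁻¹ * Jg := by group
  have e2 : (Rg (iv x))⁻¹ * (Rg (iv x) * Jg) * (Lg x)⁻¹ = Jg * (Lg x)⁻¹ := by group
  rw [e1, e2] at this
  exact this.symm

theorem Jg_Rg_inv (x : Q) : (Jg : Gh Q) * (Rg x)⁻¹ = (Lg (iv x))⁻¹ * Jg := by
  have h := Jg_Rg x
  have : (Lg (iv x))⁻¹ * (Jg * Rg x) * (Rg x)⁻¹ = (Lg (iv x))⁻¹ * (Lg (iv x) * Jg) * (Rg x)⁻¹ := by
    rw [h]
  have e1 : (Lg (iv x))⁻¹ * (Jg * Rg x) * (Rg x)⁻¹ = (Lg (iv x))⁻¹ * Jg := by group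
  have e2 : (Lg (iv x))⁻¹ * (Lg (iv x) * Jg) * (Rg x)⁻¹ = Jg * (Rg x)⁻¹ := by group
  rw [e1, e2] at this
  exact this.symm

/-- `T_x = R_x⁻¹ L_x` -/
noncomputable def Tg (x : Q) : Gh Q := (Rg x)⁻¹ * Lg x

theorem Tg_one (x : Q) : (Tg x).1 1 = 1 := T_one x
theorem Tg_mlt (x : Q) : (Tg x).1 ∈ Mlt Q := T_mem x

theorem Tg_self (x : Q) : (Tg x).1 x = x := by
  change ((R x)⁻¹ * L x) x = x
  rw [Equiv.Perm.mul_apply, Equiv.Perm.inv_eq_iff_eq, H361AL.L_apply, H361AL.R_apply]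

theorem Tg_iv_self (x : Q) : (Tg x).1 (iv x) = iv x := by
  rw [aut_iv (Tg_mlt x) (Tg_one x), Tg_self]

theorem Tg_iv (x : Q) : Tg (iv x) = (Tg x)⁻¹ := by
  have h := mul_Jg (Tg_mlt x) (Tg_one x)
  have h2 : Jg * Tg x = (Tg (iv x))⁻¹ * Jg := by
    rw [Tg, ← mul_assoc, Jg_Rg_inv, mul_assoc, Jg_Lg, Tg]; group
  rw [h2] at h
  have h3 := mul_right_cancel h
  rw [h3, inv_inv]

/-- `κ_{x;y} = L_x⁻¹ R_y⁻¹ L_x R_y` -/
noncomputable def kap (x y : Q) : Gh Q := (Lg x)⁻¹ * (Rg y)⁻¹ * Lg x * Rg y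

theorem kap_mlt (x y : Q) : (kap x y).1 ∈ Mlt Q :=
  mul_mem (mul_mem (mul_mem (inv_mem (L_mem x)) (inv_mem (R_mem y))) (L_mem x)) (R_mem y)

theorem kap_one (x y : Q) : (kap x y).1 1 = 1 := by
  change ((L x)⁻¹ * (R y)⁻¹ * L x * R y) 1 = 1
  simp only [Equiv.Perm.mul_apply]
  rw [R_one', Equiv.Perm.inv_eq_iff_eq, L_one', Equiv.Perm.inv_eq_iff_eq, H361AL.L_apply,
    H361AL.R_apply]

theorem kap_iv (x y : Q) : kap (iv y) (iv x) = (kap x y)⁻¹ := by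
  have h := mul_Jg (kap_mlt x y) (kap_one x y)
  have h2 : Jg * kap x y = (kap (iv y) (iv x))⁻¹ * Jg := by
    have e1 : Jg * kap x y = (Jg * (Lg x)⁻¹) * (Rg y)⁻¹ * Lg x * Rg y := by
      rw [kap]; group
    have e2 : (Jg * (Lg x)⁻¹) * (Rg y)⁻¹ * Lg x * Rg y =
        (Rg (iv x))⁻¹ * (Jg * (Rg y)⁻¹) * Lg x * Rg y := by
      rw [Jg_Lg_inv]; group
    have e3 : (Rg (iv x))⁻¹ * (Jg * (Rg y)⁻¹) * Lg x * Rg y =
        (Rg (iv x))⁻¹ * (Lg (iv y))⁻¹ * (Jg * Lg x) * Rg y := by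
      rw [Jg_Rg_inv]; group
    have e4 : (Rg (iv x))⁻¹ * (Lg (iv y))⁻¹ * (Jg * Lg x) * Rg y =
        (Rg (iv x))⁻¹ * (Lg (iv y))⁻¹ * Rg (iv x) * (Jg * Rg y) := by
      rw [Jg_Lg]; group
    rw [e1, e2, e3, e4, Jg_Rg, kap]; group
  rw [h2] at h
  have h3 := mul_right_cancel h
  rw [h3, inv_inv]

section
variable [Finite Q]

/-- `L_{u 1}` as an element of `A` -/
noncomputable def l (u : D.A) : D.A := D.toA (L (pm u 1))
/-- `R_{u 1}` as an element of `A` -/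
noncomputable def r (u : D.A) : D.A := D.toA (R (pm u 1))
/-- `l u - r u` -/
noncomputable def t (u : D.A) : D.A := l u - r u

variable (hodd : Odd (Nat.card Q))
include hodd

theorem pm_l {u : D.A} (hu : u ∈ D.Vy 1) : pm (l u) = L (pm u 1) := pm_toA (L_mem_F hodd hu)
theorem pm_r {u : D.A} (hu : u ∈ D.Vy 1) : pm (r u) = R (pm u 1) := pm_toA (R_mem_F hodd hu)

omit [Finite Q] hodd in
theorem Lg_Vy (y : Q) {u : D.A} (hu : u ∈ D.Vy 1) : Lg y • u ∈ D.Vy y := by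
  have h := smul_Vy (Lg y) hu
  have e : (Lg y).1 1 = y := L_one' y
  rwa [e] at h

omit [Finite Q] hodd in
theorem Rg_Vy (y : Q) {u : D.A} (hu : u ∈ D.Vy 1) : Rg y • u ∈ D.Vy y := by
  have h := smul_Vy (Rg y) hu
  have e : (Rg y).1 1 = y := R_one' y
  rwa [e] at h

theorem eta_l {u : D.A} (hu : u ∈ D.Vy 1) (y : Q) : eta y (l u) = Rg y • u + Rg y • u := by
  rw [← eta_of_Vy (Rg_Vy y hu), eta_pt hodd, pm_l hodd hu, H361AL.L_apply, pm_mul, Loop.one_mul']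

theorem eta_r {u : D.A} (hu : u ∈ D.Vy 1) (y : Q) : eta y (r u) = Lg y • u + Lg y • u := by
  rw [← eta_of_Vy (Lg_Vy y hu), eta_pt hodd, pm_r hodd hu, H361AL.R_apply, mul_pm, Loop.mul_one']

theorem l_add {u v : D.A} (hu : u ∈ D.Vy 1) (hv : v ∈ D.Vy 1) : l (u + v) = l u + l v := by
  apply eta_ext hodd
  intro y
  rw [eta_l hodd (add_mem hu hv), eta_add, eta_l hodd hu, eta_l hodd hv, smul_add]; abel

theorem r_add {u v : D.A} (hu : u ∈ D.Vy 1) (hv : v ∈ D.Vy 1) : r (u + v) = r u + r v := by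
  apply eta_ext hodd
  intro y
  rw [eta_r hodd (add_mem hu hv), eta_add, eta_r hodd hu, eta_r hodd hv, smul_add]; abel

theorem l_neg {u : D.A} (hu : u ∈ D.Vy 1) : l (-u) = - l u := by
  apply eta_ext hodd
  intro y
  rw [eta_l hodd (neg_mem hu), eta_neg, eta_l hodd hu, smul_neg]; abel

theorem r_neg {u : D.A} (hu : u ∈ D.Vy 1) : r (-u) = - r u := by
  apply eta_ext hodd
  intro y
  rw [eta_r hodd (neg_mem hu), eta_neg, eta_r hodd hu, smul_neg]; abel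

theorem t_add {u v : D.A} (hu : u ∈ D.Vy 1) (hv : v ∈ D.Vy 1) : t (u + v) = t u + t v := by
  rw [t, l_add hodd hu hv, r_add hodd hu hv, t, t]; abel

theorem l_add_r {u : D.A} (hu : u ∈ D.Vy 1) : l u + r u = u + u := by
  have h1 : u + u = l u - r (-u) := by
    apply pm_inj
    rw [← eta_of_Vy hu, pm_eta, P_eq, pm_sub, pm_l hodd hu, pm_r hodd (neg_mem hu), iv_V hu]
  rw [h1, r_neg hodd hu]; abel

/-- the formula (E) -/
theorem eqE {u : D.A} (hu : u ∈ D.Vy 1) (y : Q) : u - sg y • u = Rg y • u + Lg y • u := by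
  apply two_inj hodd
  have h := congrArg (eta y) (l_add_r hodd hu)
  rw [eta_add, eta_add, eta_l hodd hu, eta_r hodd hu] at h
  change _ = (u - sg y • u) + (u - sg y • u) at h
  rw [← h]; abel

theorem t_one {u : D.A} (hu : u ∈ D.Vy 1) : pm (t u) 1 = 1 := by
  rw [t, pm_sub, Equiv.Perm.mul_apply, pm_l hodd hu, pm_r hodd hu]
  have h : (R (pm u 1))⁻¹ 1 = iv (pm u 1) := by
    rw [Equiv.Perm.inv_eq_iff_eq, H361AL.R_apply, iv_mul]
  rw [h, H361AL.L_apply, mul_iv]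

theorem smul_l {φ : Gh Q} (hm : φ.1 ∈ Mlt Q) (h1 : φ.1 1 = 1) {u : D.A} (hu : u ∈ D.Vy 1) :
    φ • l u = l (φ • u) := by
  apply pm_inj
  rw [pm_smul, pm_l hodd hu, pm_l hodd (smul_V φ h1 hu), autL hm h1, ap_pm, h1]; group

theorem smul_r {φ : Gh Q} (hm : φ.1 ∈ Mlt Q) (h1 : φ.1 1 = 1) {u : D.A} (hu : u ∈ D.Vy 1) :
    φ • r u = r (φ • u) := by
  apply pm_inj
  rw [pm_smul, pm_r hodd hu, pm_r hodd (smul_V φ h1 hu), autR hm h1, ap_pm, h1]; group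

theorem smul_t {φ : Gh Q} (hm : φ.1 ∈ Mlt Q) (h1 : φ.1 1 = 1) {u : D.A} (hu : u ∈ D.Vy 1) :
    φ • t u = t (φ • u) := by
  rw [t, smul_sub, smul_l hodd hm h1 hu, smul_r hodd hm h1 hu, t]

theorem Jg_l {u : D.A} (hu : u ∈ D.Vy 1) : (Jg : Gh Q) • l u = - r u := by
  rw [← r_neg hodd hu]
  apply pm_inj
  rw [pm_smul, pm_l hodd hu, pm_r hodd (neg_mem hu), ← iv_V hu]
  change J * L (pm u 1) * J⁻¹ = _
  rw [J_inv, JLJ]

/-- `L` acts in the same way at points of the same orbit -/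
theorem Lg_orb (x : Q) (b : D.A) {a : D.A} (ha : a ∈ D.WA) : Lg (pm b x) • a = Lg x • a := by
  obtain ⟨v, hv, hvb, _⟩ := exists_Vy hodd x b
  rw [← hvb]
  have h := fact2 hodd (D := D) ((Lg x)⁻¹ * Lg (pm v x)) 1 ?_ ?_ a ha
  · rw [mul_smul, inv_smul_eq_iff] at h
    exact h
  · intro w hw
    rw [mul_smul, inv_smul_eq_iff]
    have h1 : pm v x * pm w 1 = pm (Lg (pm v x) • w + v) x := by
      rw [mul_pm, Loop.mul_one', pm_add, Equiv.Perm.mul_apply]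
    have h2 : pm v x * pm w 1 = pm (Lg x • w + v) x := by
      have e : Rg (pm w 1) • v = v := smul_F (g := Rg (pm w 1)) (R_mem_F hodd hw) v
      rw [pm_mul, e, mul_pm, Loop.mul_one', add_comm, pm_add, Equiv.Perm.mul_apply]
    rw [h1] at h2
    have h3 : Lg (pm v x) • w ∈ D.Vy x := by
      rw [← Vy_orbit x v]; exact Lg_Vy _ hw
    have h4 := free2 hodd (add_mem h3 hv) (add_mem (Lg_Vy x hw) hv) h2
    exact add_right_cancel h4
  · intro y a _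
    have h1 : ((Lg x)⁻¹ * Lg (pm v x)).1 y = pm ((Lg x)⁻¹ • Rg y • v) y := by
      change (Lg x)⁻¹.1 (pm v x * y) = _
      rw [pm_mul, ap_pm]
      have : (Lg x)⁻¹.1 (x * y) = y := (L x).symm_apply_apply y
      rw [this]
    rw [h1, sg_orbit]

theorem Lam_mem (x : Q) (b : D.A) : (L x)⁻¹ * L (pm b x) ∈ D.F := by
  obtain ⟨v, hv, hvb, _⟩ := exists_Vy hodd x b
  refine ⟨mul_mem (inv_mem (L_mem _)) (L_mem _), ?_, ?_⟩
  · intro y
    rw [← hvb]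
    refine ⟨pm ((Lg x)⁻¹ • Rg y • v), smul_WA _ (smul_WA _ hv.1), ?_⟩
    change (Lg x)⁻¹.1 (pm v x * y) = _
    rw [pm_mul, ap_pm]
    have : (Lg x)⁻¹.1 (x * y) = y := (L x).symm_apply_apply y
    rw [this]
  · intro w hw
    have h1 : D.el w (D.W_le_F hw) ∈ D.WA := hw
    have h2 := Lg_orb hodd x b h1
    rw [← inv_smul_eq_iff, ← mul_smul] at h2
    have h3 := congrArg pm h2
    rw [pm_smul, pm_el, mul_inv_eq_iff_eq_mul] at h3
    exact h3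

omit hodd in
/-- `L_x⁻¹ L_{b x}` -/
noncomputable def Lam (x : Q) (b : D.A) : D.A := D.toA ((L x)⁻¹ * L (pm b x))

theorem pm_Lam (x : Q) (b : D.A) : pm (Lam x b) = (L x)⁻¹ * L (pm b x) :=
  pm_toA (Lam_mem hodd x b)

theorem eta_Lam (x : Q) {b : D.A} (hb : b ∈ D.Vy x) (y : Q) :
    eta y (Lam x b) = (Lg x)⁻¹ • Rg y • b + (Lg x)⁻¹ • Rg y • b := by
  have h0 : (Lg x)⁻¹ • Rg y • b ∈ D.Vy y := by
    have h := smul_Vy (Lg x)⁻¹ (smul_Vy (Rg y) hb)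
    have : (Lg x)⁻¹.1 ((Rg y).1 x) = y := (L x).symm_apply_apply y
    rwa [this] at h
  rw [← eta_of_Vy h0, eta_pt hodd, pm_Lam hodd]
  change (Lg x)⁻¹.1 (pm b x * y) = _
  rw [pm_mul, ap_pm]
  have : (Lg x)⁻¹.1 (x * y) = y := (L x).symm_apply_apply y
  rw [this]

omit hodd in
/-- `L_{X (w 1)}⁻¹ L_X L_{w 1}` -/
noncomputable def lam (X : Q) (w : D.A) : D.A := - Lam X (Lg X • w) + l w

omit [Finite Q] hodd in
theorem mul_pm_one (X : Q) (w : D.A) : X * pm w 1 = pm (Lg X • w) X := by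
  rw [mul_pm, Loop.mul_one']

theorem pm_lam (X : Q) {w : D.A} (hw : w ∈ D.Vy 1) :
    pm (lam X w) = (L (X * pm w 1))⁻¹ * L X * L (pm w 1) := by
  rw [lam, pm_add, pm_neg, pm_Lam hodd, pm_l hodd hw, mul_pm_one]; group

theorem lam_one (X : Q) {w : D.A} (hw : w ∈ D.Vy 1) : pm (lam X w) 1 = 1 := by
  rw [pm_lam hodd X hw, Equiv.Perm.mul_apply, Equiv.Perm.mul_apply, L_one', 
    Equiv.Perm.inv_eq_iff_eq, L_one', H361AL.L_apply]

theorem eta_lam (X : Q) {w : D.A} (hw : w ∈ D.Vy 1) (Y : Q) :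
    eta Y (lam X w) = Rg Y • ((w - (kap X Y)⁻¹ • w) + (w - (kap X Y)⁻¹ • w)) := by
  rw [lam, eta_add, eta_neg, eta_Lam hodd X (Lg_Vy X hw), eta_l hodd hw]
  have e : (Lg X)⁻¹ • Rg Y • Lg X • w = Rg Y • (kap X Y)⁻¹ • w := by
    rw [← mul_smul, ← mul_smul, ← mul_smul]
    congr 1
    rw [kap]; group
  rw [e]
  simp only [smul_add, smul_sub]; abel

theorem lam_add (X : Q) {v w : D.A} (hv : v ∈ D.Vy 1) (hw : w ∈ D.Vy 1) :
    lam X (v + w) = lam X v + lam X w := by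
  apply eta_ext hodd
  intro y
  rw [eta_lam hodd X (add_mem hv hw), eta_add, eta_lam hodd X hv, eta_lam hodd X hw]
  simp only [smul_add, smul_sub]; abel

theorem lam_neg (X : Q) {w : D.A} (hw : w ∈ D.Vy 1) : lam X (-w) = - lam X w := by
  apply eta_ext hodd
  intro y
  rw [eta_lam hodd X (neg_mem hw), eta_neg, eta_lam hodd X hw]
  simp only [smul_add, smul_sub, smul_neg]; abel

theorem lam_zero (X : Q) : lam X (0 : D.A) = 0 := by
  have h := lam_add hodd X (D := D) (zero_mem _) (zero_mem _)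
  rw [add_zero] at h
  exact left_eq_add.1 h

theorem smul_lam {φ : Gh Q} (hm : φ.1 ∈ Mlt Q) (h1 : φ.1 1 = 1) (X : Q) {w : D.A}
    (hw : w ∈ D.Vy 1) : φ • lam X w = lam (φ.1 X) (φ • w) := by
  apply pm_inj
  have e0 : φ.1 (pm w 1) = pm (φ • w) 1 := by rw [ap_pm, h1]
  have e1 := autL hm h1 X
  have e2 := autL hm h1 (pm w 1)
  have e3 := autL hm h1 (X * pm w 1)
  rw [aut hm h1, e0] at e3
  rw [e0] at e2
  rw [pm_smul, pm_lam hodd X hw, pm_lam hodd _ (smul_V φ h1 hw)]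
  have e4 : L (φ.1 X * pm (φ • w) 1) = φ.1 * L (X * pm w 1) * φ.1⁻¹ := by rw [e3]; group
  have e5 : L (φ.1 X) = φ.1 * L X * φ.1⁻¹ := by rw [e1]; group
  have e6 : L (pm (φ • w) 1) = φ.1 * L (pm w 1) * φ.1⁻¹ := by rw [e2]; group
  rw [e4, e5, e6]; group

/-- the relation (A) -/
theorem relA (X Y : Q) {w : D.A} (hw : w ∈ D.Vy 1) :
    w - (kap X (iv Y))⁻¹ • w = - ((Tg Y)⁻¹ • (w - (kap X Y)⁻¹ • w)) := by
  set c := w - (kap X Y)⁻¹ • w with hc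
  set c' := w - (kap X (iv Y))⁻¹ • w with hc'
  have hkV : (kap X Y)⁻¹ • w ∈ D.Vy 1 :=
    smul_V _ (by
      change (kap X Y).1⁻¹ 1 = 1
      rw [Equiv.Perm.inv_eq_iff_eq, kap_one]) hw
  have hcV : c ∈ D.Vy 1 := sub_mem hw hkV
  have h1 : (Jg : Gh Q) • eta Y (lam X w) = eta (iv Y) (lam X w) := by
    rw [smul_eta, Jfix (lam_one hodd X hw)]; rfl
  rw [eta_lam hodd X hw, eta_lam hodd X hw, ← hc, ← hc', ← mul_smul, Jg_Rg, mul_smul,
    Jg_V (add_mem hcV hcV), ← inv_smul_eq_iff] at h1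
  have h2 : (Rg (iv Y))⁻¹ • Lg (iv Y) • (-(c + c)) = -((Tg Y)⁻¹ • (c + c)) := by
    rw [← mul_smul, smul_neg, ← Tg_iv, Tg]
  rw [h2] at h1
  apply two_inj hodd
  rw [← h1, smul_add]; abel

/-- the relation (B) -/
theorem relB (X Y : Q) {w : D.A} (hw : w ∈ D.Vy 1) :
    w - kap (iv X) Y • w = - (Tg X • (w - kap X Y • w)) := by
  have h := relA hodd (iv Y) (iv X) hw
  have e1 : kap (iv Y) (iv (iv X)) = (kap (iv X) Y)⁻¹ := kap_iv (iv X) Y
  rw [e1, kap_iv, Tg_iv, inv_inv, inv_inv, inv_inv] at h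
  exact h

/-- the relation (e2) -/
theorem rel_e2 (X : Q) {u : D.A} (hu : u ∈ D.Vy 1) :
    (Lg X)⁻¹ • t u = t u + l ((Tg X)⁻¹ • u - u) - lam X ((Tg X)⁻¹ • u - u) := by
  set w := (Tg X)⁻¹ • u - u with hwdef
  have hw : w ∈ D.Vy 1 :=
    sub_mem (smul_V _ (by
      change (Tg X).1⁻¹ 1 = 1
      rw [Equiv.Perm.inv_eq_iff_eq, Tg_one]) hu) hu
  have hb : Lg X • w = Rg X • u - Lg X • u := by
    rw [hwdef, smul_sub, ← mul_smul, Tg]
    congr 2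
    group
  have hpt : pm (t u) X = pm (Lg X • w) X := by
    rw [← eta_pt hodd, eta_of_Vy (Lg_Vy X hw), hb, t, eta_sub, eta_l hodd hu, eta_r hodd hu]
    abel
  have h1 : (Lg X)⁻¹ • t u = Lam X (Lg X • w) + t u := by
    apply pm_inj
    rw [pm_smul, pm_add, pm_Lam hodd, ← hpt]
    have h2 := autL (pm_mlt (t u)) (t_one hodd hu) X
    change (L X)⁻¹ * pm (t u) * (L X)⁻¹⁻¹ = _
    rw [inv_inv, mul_assoc, h2]; group
  rw [h1, lam]; abel

/-- the relation (C) -/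
theorem relC (X : Q) {u : D.A} (hu : u ∈ D.Vy 1) :
    lam X (Tg X • u - u) + lam (iv X) (Tg X • u - u) = 0 := by
  have main : ∀ u ∈ D.Vy 1, lam X ((Tg X)⁻¹ • u - u) + lam (iv X) ((Tg X)⁻¹ • u - u) = 0 := by
    intro u hu
    have hT1 : (Tg X)⁻¹.1 1 = 1 := by
      change (Tg X).1⁻¹ 1 = 1
      rw [Equiv.Perm.inv_eq_iff_eq, Tg_one]
    have hTm : (Tg X)⁻¹.1 ∈ Mlt Q := inv_mem (Tg_mlt X)
    have hTu : (Tg X)⁻¹ • u ∈ D.Vy 1 := smul_V _ hT1 hu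
    set w := (Tg X)⁻¹ • u - u with hwdef
    have hw : w ∈ D.Vy 1 := sub_mem hTu hu
    have e2 := rel_e2 hodd X hu
    have e2' := rel_e2 hodd (iv X) hu
    rw [Tg_iv, inv_inv] at e2'
    have hT1' : (Tg X).1 1 = 1 := Tg_one X
    set w' := Tg X • u - u with hwdef'
    have hw' : w' ∈ D.Vy 1 := sub_mem (smul_V _ hT1' hu) hu
    have j2 : (Rg X)⁻¹ • t u = t u - r w' - lam (iv X) w' := by
      have h := congrArg (fun a => (Jg : Gh Q) • a) e2'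
      simp only [smul_sub, smul_add] at h
      rw [← mul_smul, Jg_Lg_inv, iv_iv, mul_smul, Jfix (t_one hodd hu), Jg_l hodd hw',
        Jfix (lam_one hodd _ hw')] at h
      rw [h]; abel
    have h3 : (Lg X)⁻¹ • t u = (Tg X)⁻¹ • (Rg X)⁻¹ • t u := by
      rw [← mul_smul]
      congr 1
      rw [Tg]; group
    have hww : (Tg X)⁻¹ • w' = - w := by
      rw [hwdef', hwdef, smul_sub, inv_smul_smul]; abel
    have hiv : (Tg X)⁻¹.1 (iv X) = iv X := by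
      change (Tg X).1⁻¹ (iv X) = iv X
      rw [Equiv.Perm.inv_eq_iff_eq, Tg_iv_self]
    have htw : t ((Tg X)⁻¹ • u) = t u + t w := by
      rw [← t_add hodd hu hw]
      congr 1
      rw [hwdef]; abel
    rw [j2, smul_sub, smul_sub, smul_t hodd hTm hT1 hu, smul_r hodd hTm hT1 hw',
      smul_lam hodd hTm hT1 (iv X) hw', hww, hiv, r_neg hodd hw, lam_neg hodd _ hw, htw] at h3
    rw [e2, ← hwdef] at h3
    have htw' : t w = l w - r w := rfl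
    have h4 : lam X w + lam (iv X) w =
        (t u + (l w - r w) - -r w - -lam (iv X) w) - (t u + l w - lam X w) := by abel
    rw [h4, h3, htw']; abel
  have h := main (-(Tg X • u)) (neg_mem (smul_V _ (Tg_one X) hu))
  have e : (Tg X)⁻¹ • (-(Tg X • u)) - -(Tg X • u) = Tg X • u - u := by
    rw [smul_neg, inv_smul_smul]; abel
  rwa [e] at h

/-- `w 1` lies in the middle nucleus iff all `lam X w` vanish -/
theorem lam_iff {w : D.A} (hw : w ∈ D.Vy 1) :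
    (∀ X, lam X w = 0) ↔ ∀ x y : Q, (x * pm w 1) * y = x * (pm w 1 * y) := by
  constructor
  · intro h x y
    have h1 := congrArg pm (h x)
    rw [pm_lam hodd x hw, pm_zero, mul_assoc, inv_mul_eq_one] at h1
    have := congrArg (fun f : Equiv.Perm Q => f y) h1
    exact this
  · intro h X
    apply pm_inj
    rw [pm_lam hodd X hw, pm_zero, mul_assoc, inv_mul_eq_one]
    ext y
    exact h X y

end

end Dat

end Pool.Agent.W328.OD
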