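import Pool.Agent.W328.OD.Final

/-!
A nontrivial abelian normal subloop gives a minimal elementary abelian subgroup of the core group.
-/

set_option autoImplicit false
set_option linter.unusedSectionVars false

namespace Pool.Agent.W328.OD

open H361AL
open scoped commutatorElement
open Pool.Agent.H687R3.ALG (IsNormalSubloop iv_memM)

universe u

variable {Q : Type u} [Loop Q] [Automorphic Q]

theorem exists_Dat' [Finite Q] (H : Subgroup (Equiv.Perm Q)) (hHN : H ≤ N Q)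
    (hHs : Group.IsSolvable H) (hH2 : ∃ g ∈ H, g ≠ 1)
    (hH3 : ∀ g ∈ Gh Q, ∀ k ∈ H, g * k * g⁻¹ ∈ H) : Nonempty (Dat Q) := by
  let S : Set (Subgroup (Equiv.Perm Q)) :=
    {K | K ≤ H ∧ (∃ g ∈ K, g ≠ 1) ∧ ∀ g ∈ Gh Q, ∀ k ∈ K, g * k * g⁻¹ ∈ K}
  have hS : S.Nonempty := ⟨H, le_rfl, hH2, hH3⟩
  obtain ⟨W, ⟨hW1, hW2, hW3⟩, hmin⟩ := Set.exists_min_image S
    (fun H => Nat.card H) (Set.toFinite _) hS
  have hmin' : ∀ U : Subgroup (Equiv.Perm Q), U ≤ W →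
      (∀ g ∈ Gh Q, ∀ w ∈ U, g * w * g⁻¹ ∈ U) → (∃ w ∈ U, w ≠ 1) → W ≤ U := by
    intro U hU hinv hne
    have h1 := hmin U ⟨hU.trans hW1, hne, hinv⟩
    exact (Subgroup.eq_of_le_of_card_ge hU h1).ge
  have hcomm : ∀ v ∈ W, ∀ w ∈ W, v * w = w * v := by
    by_contra hcon
    push Not at hcon
    obtain ⟨v, hv, w, hw, hvw⟩ := hcon
    have h1 : W ≤ ⁅W, W⁆ := by
      apply hmin'
      · rw [Subgroup.commutator_le]
        intro a ha b hb
        rw [commutatorElement_def]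
        exact mul_mem (mul_mem (mul_mem ha hb) (inv_mem ha)) (inv_mem hb)
      · intro g hg k hk
        have hle : (⁅W, W⁆).map (MulAut.conj g).toMonoidHom ≤ ⁅W, W⁆ := by
          rw [Subgroup.map_commutator]
          have hWg : W.map (MulAut.conj g).toMonoidHom ≤ W := by
            rintro _ ⟨x, hx, rfl⟩
            exact hW3 g hg x hx
          exact Subgroup.commutator_mono hWg hWg
        exact hle ⟨k, hk, rfl⟩
      · refine ⟨⁅v, w⁆, Subgroup.commutator_mem_commutator hv hw, fun h => hvw ?_⟩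
        rwa [commutatorElement_eq_one_iff_mul_comm] at h
    have hsW : Group.IsSolvable W :=
      Group.isSolvable_of_isSolvable_injective (Subgroup.inclusion_injective hW1)
    have hntW : Nontrivial W := by
      obtain ⟨g, hg, hg1⟩ := hW2
      exact ⟨⟨g, hg⟩, 1, fun h => hg1 (congrArg Subtype.val h)⟩
    have h2 := Group.IsSolvable.commutator_lt_top_of_nontrivial W
    apply h2.ne
    rw [eq_top_iff]
    intro x _
    have h3 : x.1 ∈ (commutator W).map W.subtype := by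
      rw [Subgroup.map_subtype_commutator]
      exact h1 x.2
    obtain ⟨y, hy, hyx⟩ := h3
    have : y = x := Subtype.ext hyx
    rwa [← this]
  have hcW : 1 < Nat.card W := by
    rw [Finite.one_lt_card_iff_nontrivial]
    obtain ⟨g, hg, hg1⟩ := hW2
    exact ⟨⟨g, hg⟩, 1, fun h => hg1 (congrArg Subtype.val h)⟩
  obtain ⟨p, hp, hpW⟩ := Nat.exists_prime_and_dvd hcW.ne'
  have hfp : Fact p.Prime := ⟨hp⟩
  obtain ⟨c, hc⟩ := exists_prime_orderOf_dvd_card' p hpW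
  let U : Subgroup (Equiv.Perm Q) :=
    { carrier := {w | w ∈ W ∧ w ^ p = 1}
      one_mem' := ⟨one_mem _, one_pow _⟩
      mul_mem' := by
        rintro a b ⟨ha, ha'⟩ ⟨hb, hb'⟩
        refine ⟨mul_mem ha hb, ?_⟩
        have : Commute a b := hcomm a ha b hb
        rw [this.mul_pow, ha', hb', one_mul]
      inv_mem' := by
        rintro a ⟨ha, ha'⟩
        exact ⟨inv_mem ha, by rw [inv_pow, ha', inv_one]⟩ }
  have hU : W ≤ U := by
    apply hmin' U (fun w hw => hw.1)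
    · rintro g hg w ⟨hw, hw'⟩
      refine ⟨hW3 g hg w hw, ?_⟩
      rw [conj_pow, hw']; group
    · refine ⟨c.1, ⟨c.2, ?_⟩, ?_⟩
      · have : c ^ p = 1 := by rw [← hc]; exact pow_orderOf_eq_one c
        exact congrArg Subtype.val this
      · intro h
        have : c = 1 := Subtype.ext h
        rw [this, orderOf_one] at hc
        exact hp.one_lt.ne hc
  exact ⟨{ W := W, p := p, hp := hp, le_N := hW1.trans hHN, comm := hcomm,
           exp := fun w hw => (hU hw).2, conj := hW3, ne := hW2, min := hmin' }⟩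

/-- the congruence of a normal subloop -/
def rl (M : Set Q) (y z : Q) : Prop := ∃ m ∈ M, z = y * m

section

variable {M : Set Q} (hM : IsNormalSubloop M)
include hM

theorem rl_refl (y : Q) : rl M y y := ⟨1, hM.one_mem, (Loop.mul_one' y).symm⟩

theorem rl_mlt {g : Gh Q} (hg : g.1 ∈ Mlt Q) {y z : Q} (h : rl M y z) :
    rl M (g.1 y) (g.1 z) := by
  obtain ⟨m, hm, rfl⟩ := h
  exact ⟨(Dat.inn g y).1 m, hM.inn_mem _ (Dat.inn_mlt hg y) (Dat.inn_one g y) m hm,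
    Dat.inn_eq g y m⟩

theorem rl_mul {m : Q} (hm : m ∈ M) (y : Q) : rl M y (m * y) := by
  have h1 : rl M 1 m := ⟨m, hm, (Loop.one_mul' _).symm⟩
  have h2 := rl_mlt hM (g := Rg y) (R_mem y) h1
  change rl M (1 * y) (m * y) at h2
  rwa [Loop.one_mul'] at h2

theorem rl_symm {y z : Q} (h : rl M y z) : rl M z y := by
  obtain ⟨m, hm, rfl⟩ := h
  have h1 : rl M m 1 := ⟨iv m, iv_memM hM hm, (mul_iv m).symm⟩
  have h2 := rl_mlt hM (g := Lg y) (L_mem y) h1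
  change rl M (y * m) (y * 1) at h2
  rwa [Loop.mul_one'] at h2

theorem rl_trans {x y z : Q} (hxy : rl M x y) (hyz : rl M y z) : rl M x z := by
  obtain ⟨m, hm, rfl⟩ := hxy
  obtain ⟨n, hn, rfl⟩ := hyz
  let g : Gh Q := (Lg x)⁻¹ * Lg (x * m)
  have hg1 : g.1 1 = m := by
    change (L x)⁻¹ (L (x * m) 1) = m
    rw [L_one', Equiv.Perm.inv_eq_iff_eq, H361AL.L_apply]
  have hgm : g.1 ∈ Mlt Q := mul_mem (inv_mem (L_mem _)) (L_mem _)
  have h1 := Dat.inn_eq g 1 n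
  rw [hg1, Loop.one_mul'] at h1
  refine ⟨g.1 n, ?_, ?_⟩
  · rw [h1]
    exact hM.mul_mem _ hm _ (hM.inn_mem _ (Dat.inn_mlt hgm 1) (Dat.inn_one g 1) n hn)
  · change x * m * n = L x ((L x)⁻¹ (L (x * m) n))
    exact ((L x).apply_symm_apply _).symm

theorem rl_iv {y z : Q} (h : rl M y z) : rl M (iv y) (iv z) := by
  obtain ⟨m, hm, rfl⟩ := h
  rw [aaip]
  exact rl_mul hM (iv_memM hM hm) _

theorem rl_gh {g : Equiv.Perm Q} (hg : g ∈ Gh Q) : ∀ y z : Q, rl M y z ↔ rl M (g y) (g z) := by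
  induction hg using Subgroup.closure_induction with
  | mem g hg =>
    intro y z
    rcases hg with hg | hg
    · refine ⟨fun h => rl_mlt hM (g := ⟨g, mlt_le hg⟩) hg h, fun h => ?_⟩
      have h2 := rl_mlt hM (g := ⟨g⁻¹, mlt_le (inv_mem hg)⟩) (inv_mem hg) h
      change rl M (g⁻¹ (g y)) (g⁻¹ (g z)) at h2
      have e : ∀ x, g⁻¹ (g x) = x := fun x => g.symm_apply_apply x
      rwa [e, e] at h2
    · rw [Set.mem_singleton_iff] at hg
      rw [hg, J_apply, J_apply]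
      refine ⟨rl_iv hM, fun h => ?_⟩
      have := rl_iv hM h
      rwa [iv_iv, iv_iv] at this
  | one => intro y z; exact Iff.rfl
  | mul g h _ _ ihg ihh =>
    intro y z
    rw [Equiv.Perm.mul_apply, Equiv.Perm.mul_apply, ← ihg, ← ihh]
  | inv g _ ih =>
    intro y z
    rw [ih (g⁻¹ y) (g⁻¹ z)]
    have e : ∀ x, g (g⁻¹ x) = x := fun x => g.apply_symm_apply x
    rw [e, e]

theorem rl_one {x : Q} : rl M 1 x ↔ x ∈ M := by
  constructor
  · rintro ⟨m, hm, rfl⟩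
    rwa [Loop.one_mul']
  · intro hx
    exact ⟨x, hx, (Loop.one_mul' x).symm⟩

theorem rl_memM {m x : Q} (hm : m ∈ M) (h : rl M m x) : x ∈ M := by
  obtain ⟨n, hn, rfl⟩ := h
  exact hM.mul_mem _ hm _ hn

/-- the elements of `N Q` preserving all cosets of `M` -/
def KM : Subgroup (Equiv.Perm Q) where
  carrier := {g | g ∈ N Q ∧ ∀ x, rl M x (g x)}
  one_mem' := ⟨one_mem _, fun x => rl_refl hM x⟩
  mul_mem' := by
    rintro g h ⟨hg, hg'⟩ ⟨hh, hh'⟩
    exact ⟨mul_mem hg hh, fun x => rl_trans hM (hh' x) (hg' (h x))⟩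
  inv_mem' := by
    rintro g ⟨hg, hg'⟩
    refine ⟨inv_mem hg, fun x => ?_⟩
    have h := hg' (g⁻¹ x)
    have e : g (g⁻¹ x) = x := g.apply_symm_apply x
    rw [e] at h
    exact rl_symm hM h

theorem KM_conj {g : Equiv.Perm Q} (hg : g ∈ Gh Q) {k : Equiv.Perm Q} (hk : k ∈ KM hM) :
    g * k * g⁻¹ ∈ KM hM := by
  refine ⟨N_conj hg hk.1, fun x => ?_⟩
  have h := (rl_gh hM hg _ _).1 (hk.2 (g⁻¹ x))
  have e : g (g⁻¹ x) = x := g.apply_symm_apply x
  rwa [e] at h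

theorem KM_pres {k : Equiv.Perm Q} (hk : k ∈ KM hM) {m : Q} (hm : m ∈ M) : k m ∈ M :=
  rl_memM hM hm (hk.2 m)

end

/-- abelian normal subloops -/
structure AbM (M : Set Q) : Prop where
  nrm : IsNormalSubloop M
  comm : ∀ a ∈ M, ∀ b ∈ M, a * b = b * a
  assoc : ∀ a ∈ M, ∀ b ∈ M, ∀ c ∈ M, (a * b) * c = a * (b * c)

/-- the group structure -/
@[reducible] noncomputable def AbM.grp {M : Set Q} (h : AbM M) : CommGroup M where
  mul a b := ⟨a.1 * b.1, h.nrm.mul_mem _ a.2 _ b.2⟩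
  mul_assoc a b c := Subtype.ext (h.assoc _ a.2 _ b.2 _ c.2)
  one := ⟨1, h.nrm.one_mem⟩
  one_mul a := Subtype.ext (Loop.one_mul' a.1)
  mul_one a := Subtype.ext (Loop.mul_one' a.1)
  inv a := ⟨iv a.1, iv_memM h.nrm a.2⟩
  inv_mul_cancel a := Subtype.ext (iv_mul a.1)
  mul_comm a b := Subtype.ext (h.comm _ a.2 _ b.2)

theorem AbM.pow_mul {M : Set Q} (h : AbM M) (a b : M) (n : ℕ) :
    (letI := h.grp; (a ^ n * b : M).1) = ((L a.1) ^ n) b.1 := by
  let _ := h.grp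
  induction n with
  | zero =>
    rw [pow_zero, pow_zero, one_mul]; rfl
  | succ n ih =>
    rw [pow_succ', pow_succ', Equiv.Perm.mul_apply, ← ih, mul_assoc]
    rfl

/-- a prime power normal subloop inside an abelian normal subloop -/
theorem AbM.exists_prime [Finite Q] {M : Set Q} (h : AbM M) (hne : ∃ a ∈ M, a ≠ 1) :
    ∃ p : ℕ, p.Prime ∧ ∃ M' : Set Q, AbM M' ∧ (∃ a ∈ M', a ≠ 1) ∧
      ∀ a ∈ M', ((L a) ^ p) 1 = 1 := by
  let _ := h.grp
  have hnt : Nontrivial M := by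
    obtain ⟨a, ha, ha1⟩ := hne
    exact ⟨⟨a, ha⟩, 1, fun h => ha1 (congrArg Subtype.val h)⟩
  have hc1 : 1 < Nat.card M := Finite.one_lt_card
  obtain ⟨p, hp, hpM⟩ := Nat.exists_prime_and_dvd hc1.ne'
  have hfp : Fact p.Prime := ⟨hp⟩
  obtain ⟨c, hc⟩ := exists_prime_orderOf_dvd_card' p hpM
  have key : ∀ a : M, a ^ p = 1 ↔ ((L a.1) ^ p) 1 = 1 := by
    intro a
    have h1 := h.pow_mul a 1 p
    constructor
    · intro h2
      rw [h2] at h1
      rw [one_mul] at h1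
      exact h1.symm
    · intro h2
      apply Subtype.ext
      have h3 : ((L a.1) ^ p) (1 : M).1 = 1 := h2
      rw [mul_one, h3] at h1
      exact h1
  refine ⟨p, hp, {a | a ∈ M ∧ ((L a) ^ p) 1 = 1}, ⟨⟨?_, ?_, ?_, ?_, ?_⟩, ?_, ?_⟩, ?_, ?_⟩
  · exact ⟨h.nrm.one_mem, (key 1).1 (one_pow p)⟩
  · rintro a ⟨ha, ha'⟩ b ⟨hb, hb'⟩
    refine ⟨h.nrm.mul_mem _ ha _ hb, ?_⟩
    have h1 := (key ⟨a, ha⟩).2 ha'
    have h2 := (key ⟨b, hb⟩).2 hb'
    have h3 : ((⟨a, ha⟩ * ⟨b, hb⟩ : M)) ^ p = 1 := by rw [_root_.mul_pow, h1, h2, one_mul]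
    exact (key _).1 h3
  · rintro a ⟨ha, ha'⟩ b ⟨hb, hb'⟩
    have hbM := h.nrm.left_div _ ha _ hb
    refine ⟨hbM, ?_⟩
    have h1 := (key ⟨a, ha⟩).2 ha'
    have h2 : ((⟨a, ha⟩ * ⟨b, hbM⟩ : M)) ^ p = 1 := (key _).2 hb'
    rw [_root_.mul_pow, h1, one_mul] at h2
    exact (key ⟨b, hbM⟩).1 h2
  · rintro a ⟨ha, ha'⟩ b ⟨hb, hb'⟩
    have hbM := h.nrm.right_div _ ha _ hb
    refine ⟨hbM, ?_⟩
    have h1 := (key ⟨a, ha⟩).2 ha'
    have h2 : ((⟨b, hbM⟩ * ⟨a, ha⟩ : M)) ^ p = 1 := (key _).2 hb'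
    rw [_root_.mul_pow, h1, mul_one] at h2
    exact (key ⟨b, hbM⟩).1 h2
  · rintro g hg hg1 a ⟨ha, ha'⟩
    refine ⟨h.nrm.inn_mem g hg hg1 a ha, ?_⟩
    have e : L (g a) = g * L a * g⁻¹ := by
      rw [autL hg hg1]; group
    have e1 : g⁻¹ 1 = 1 := by rw [Equiv.Perm.inv_eq_iff_eq, hg1]
    rw [e, conj_pow, Equiv.Perm.mul_apply, Equiv.Perm.mul_apply, e1, ha', hg1]
  · rintro a ⟨ha, _⟩ b ⟨hb, _⟩
    exact h.comm a ha b hb
  · rintro a ⟨ha, _⟩ b ⟨hb, _⟩ c ⟨hc, _⟩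
    exact h.assoc a ha b hb c hc
  · refine ⟨c.1, ⟨c.2, ?_⟩, ?_⟩
    · rw [← key]
      rw [← hc]; exact pow_orderOf_eq_one c
    · intro h1
      have : c = 1 := Subtype.ext h1
      rw [this, orderOf_one] at hc
      exact hp.one_lt.ne hc
  · rintro a ⟨_, ha⟩
    exact ha

section P

variable {M : Set Q} (h : AbM M) {p : ℕ} (hp : p.Prime) (hMp : ∀ a ∈ M, ((L a) ^ p) 1 = 1)

include h hp hMp in
theorem AbM.card [Finite Q] : ∃ k : ℕ, Nat.card M = p ^ k := by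
  let _ := h.grp
  have hfp : Fact p.Prime := ⟨hp⟩
  have h1 : IsPGroup p M := by
    intro a
    refine ⟨1, ?_⟩
    rw [pow_one]
    apply Subtype.ext
    have h2 := h.pow_mul a 1 p
    rw [mul_one] at h2
    rw [h2]
    exact hMp a.1 a.2
  exact IsPGroup.iff_card.1 h1

include h hMp in
theorem AbM.Lp {a m : Q} (ha : a ∈ M) (hm : m ∈ M) : ((L a) ^ p) m = m := by
  let _ := h.grp
  have h2 := h.pow_mul ⟨a, ha⟩ ⟨m, hm⟩ p
  have h3 := h.pow_mul ⟨a, ha⟩ 1 p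
  rw [mul_one] at h3
  have h4 : (⟨a, ha⟩ : M) ^ p = 1 := Subtype.ext (h3.trans (hMp a ha))
  rw [h4, one_mul] at h2
  exact h2.symm

/-- the elements of `K` acting on `M` as translations -/
def TM : Subgroup (Equiv.Perm Q) where
  carrier := {d | d ∈ KM h.nrm ∧ ∃ a ∈ M, ∀ m ∈ M, d m = a * m}
  one_mem' := ⟨one_mem _, 1, h.nrm.one_mem, fun m _ => (Loop.one_mul' m).symm⟩
  mul_mem' := by
    rintro d d' ⟨hd, a, ha, hda⟩ ⟨hd', a', ha', hda'⟩
    refine ⟨mul_mem hd hd', a * a', h.nrm.mul_mem _ ha _ ha', fun m hm => ?_⟩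
    rw [Equiv.Perm.mul_apply, hda' m hm, hda _ (h.nrm.mul_mem _ ha' _ hm), h.assoc a ha a' ha' m hm]
  inv_mem' := by
    rintro d ⟨hd, a, ha, hda⟩
    refine ⟨inv_mem hd, iv a, iv_memM h.nrm ha, fun m hm => ?_⟩
    rw [Equiv.Perm.inv_eq_iff_eq, hda _ (h.nrm.mul_mem _ (iv_memM h.nrm ha) _ hm),
      ← h.assoc a ha _ (iv_memM h.nrm ha) m hm, mul_iv, Loop.one_mul']

/-- elements of `N Q` trivial on `M` and preserving the cosets, of prime order `q ≠ p` -/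
theorem AbM.fix [Finite Q] {s' : Equiv.Perm Q} (hs : s' ∈ KM h.nrm) (hsM : ∀ m ∈ M, s' m = m)
    {q k : ℕ} (hq : q.Prime) (hk : Nat.card M = p ^ k) (hpp : p.Prime) (hqp : q ≠ p)
    (hsq : s' ^ q = 1) : s' = 1 := by
  have hfq : Fact q.Prime := ⟨hq⟩
  have hs1 : s' 1 = 1 := hsM 1 h.nrm.one_mem
  apply Equiv.ext
  intro y
  classical
  have : Fintype Q := Fintype.ofFinite Q
  let C := {z : Q // rl M y z}
  let e : M ≃ C :=
    Equiv.ofBijective (fun m => ⟨y * m.1, m.1, m.2, rfl⟩) (by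
      constructor
      · intro m n hmn
        exact Subtype.ext ((bij_left y).1 (congrArg Subtype.val hmn))
      · rintro ⟨z, m, hm, rfl⟩
        exact ⟨⟨m, hm⟩, rfl⟩)
  have hcard : Fintype.card C = p ^ k := by
    rw [← hk, Nat.card_congr e, Nat.card_eq_fintype_card]
  have hiff : ∀ x, rl M y (s' x) ↔ rl M y x := by
    intro x
    exact ⟨fun h1 => rl_trans h.nrm h1 (rl_symm h.nrm (hs.2 x)),
      fun h1 => rl_trans h.nrm h1 (hs.2 x)⟩
  let σ : Equiv.Perm C := s'.subtypePerm hiff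
  have hσ : σ ^ q ^ 1 = 1 := by
    rw [pow_one]
    apply Equiv.ext
    intro x
    apply Subtype.ext
    have h1 : ∀ n : ℕ, ((σ ^ n) x).1 = (s' ^ n) x.1 := by
      intro n
      induction n with
      | zero => rfl
      | succ n ih => rw [pow_succ', pow_succ', Equiv.Perm.mul_apply, Equiv.Perm.mul_apply, ← ih]; rfl
    rw [h1, hsq]; rfl
  have hnd : ¬ q ∣ Fintype.card C := by
    rw [hcard]
    intro hd
    have := hq.dvd_of_dvd_pow hd
    rw [Nat.prime_dvd_prime_iff_eq hq hpp] at this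
    exact hqp this
  obtain ⟨⟨z, hz⟩, hzf⟩ := Equiv.Perm.exists_fixed_point_of_prime hnd hσ
  have hz' : s' z = z := congrArg Subtype.val hzf
  obtain ⟨m, hm, hym⟩ := rl_symm h.nrm hz
  rw [hym, aut (N_le_mlt hs.1) hs1, hz', hsM m hm]; rfl

include hp hMp in
theorem TM_pgroup [Finite Q] : IsPGroup p (TM h) := by
  obtain ⟨k, hk⟩ := h.card hp hMp
  rintro ⟨d, hd, a, ha, hda⟩
  -- `s' = d ^ p` acts trivially on `M`
  have hpow : ∀ n : ℕ, ∀ m ∈ M, (d ^ n) m = ((L a) ^ n) m ∧ (d ^ n) m ∈ M := by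
    intro n
    induction n with
    | zero => intro m hm; exact ⟨rfl, hm⟩
    | succ n ih =>
      intro m hm
      obtain ⟨h1, h2⟩ := ih m hm
      rw [pow_succ', pow_succ', Equiv.Perm.mul_apply, Equiv.Perm.mul_apply, hda _ h2, h1]
      exact ⟨rfl, h.nrm.mul_mem _ ha _ (h1 ▸ h2)⟩
  have hs : ∀ m ∈ M, (d ^ p) m = m := by
    intro m hm
    rw [(hpow p m hm).1, h.Lp hMp ha hm]
  have hsK : d ^ p ∈ KM h.nrm := pow_mem hd p
  have hord : orderOf (d ^ p) = p ^ (orderOf (d ^ p)).primeFactorsList.length := by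
    have hpos : 0 < orderOf (d ^ p) := orderOf_pos _
    apply Nat.eq_prime_pow_of_unique_prime_dvd hpos.ne'
    intro q hq hqd
    by_contra hne
    obtain ⟨m, hm⟩ := hqd
    have hmpos : 0 < m := by
      rcases Nat.eq_zero_or_pos m with h0 | h0
      · rw [h0] at hm; omega
      · exact h0
    have hfixm : ∀ n : ℕ, ∀ x ∈ M, ((d ^ p) ^ n) x = x := by
      intro n x hx
      induction n with
      | zero => rfl
      | succ n ih => rw [pow_succ', Equiv.Perm.mul_apply, ih, hs x hx]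
    have h1 := h.fix (pow_mem hsK m) (hfixm m) hq hk hp hne (by
      rw [← pow_mul, mul_comm, ← hm, pow_orderOf_eq_one])
    have h2 := Nat.le_of_dvd hmpos (orderOf_dvd_of_pow_eq_one h1)
    rw [hm] at h2
    have := hq.two_le
    nlinarith
  refine ⟨(orderOf (d ^ p)).primeFactorsList.length + 1, Subtype.ext ?_⟩
  change d ^ (p ^ (_ + 1)) = 1
  rw [pow_succ', pow_mul, ← hord, pow_orderOf_eq_one]

/-- `T` is normal in `K` -/
theorem TM_conj {g : Equiv.Perm Q} (hg : g ∈ KM h.nrm) {d : Equiv.Perm Q} (hd : d ∈ TM h) :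
    g * d * g⁻¹ ∈ TM h := by
  obtain ⟨hdK, a, ha, hda⟩ := hd
  have hgm : g ∈ Mlt Q := N_le_mlt hg.1
  let gg : Gh Q := ⟨g, mlt_le hgm⟩
  have hb : g 1 ∈ M := (rl_one h.nrm).1 (hg.2 1)
  have hφM : ∀ m ∈ M, (Dat.inn gg 1).1 m ∈ M := fun m hm =>
    h.nrm.inn_mem _ (Dat.inn_mlt (g := gg) hgm 1) (Dat.inn_one gg 1) m hm
  have hgφ : ∀ m, g m = g 1 * (Dat.inn gg 1).1 m := by
    intro m
    have := Dat.inn_eq gg 1 m
    rwa [Loop.one_mul'] at this
  refine ⟨mul_mem (mul_mem hg hdK) (inv_mem hg), (Dat.inn gg 1).1 a, hφM a ha, fun m' hm' => ?_⟩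
  have hm : g⁻¹ m' ∈ M := KM_pres h.nrm (inv_mem hg) hm'
  rw [Equiv.Perm.mul_apply, Equiv.Perm.mul_apply, hda _ hm, hgφ,
    aut (Dat.inn_mlt (g := gg) hgm 1) (Dat.inn_one gg 1)]
  have e : g 1 * (Dat.inn gg 1).1 (g⁻¹ m') = m' := by
    rw [← hgφ]; exact g.apply_symm_apply m'
  rw [← h.assoc _ hb _ (hφM a ha) _ (hφM _ hm), h.comm _ hb _ (hφM a ha),
    h.assoc _ (hφM a ha) _ hb _ (hφM _ hm), e]

theorem P_mem_TM {a : Q} (ha : a ∈ M) : s a * s 1 ∈ TM h := by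
  refine ⟨⟨P_mem_N a, fun x => ?_⟩, a * a, h.nrm.mul_mem _ ha _ ha, fun m hm => ?_⟩
  · rw [P_eq]
    set z := (R (iv a))⁻¹ x with hz
    have h1 : x = z * iv a := ((R (iv a)).apply_symm_apply x).symm
    have h2 : (L a * (R (iv a))⁻¹) x = a * z := rfl
    rw [h2]
    exact rl_trans h.nrm (rl_symm h.nrm ⟨iv a, iv_memM h.nrm ha, h1⟩) (rl_mul h.nrm ha z)
  · have h1 : (R (iv a))⁻¹ m = m * a := by
      rw [Equiv.Perm.inv_eq_iff_eq, H361AL.R_apply, h.assoc m hm a ha _ (iv_memM h.nrm ha), mul_iv,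
        Loop.mul_one']
    rw [P_eq, Equiv.Perm.mul_apply, h1, H361AL.L_apply, h.comm m hm a ha, h.assoc a ha a ha m hm]

include h hp hMp in
theorem Dat_of_AbM [Finite Q] (hodd : Odd (Nat.card Q)) (hne : ∃ a ∈ M, a ≠ 1) :
    Nonempty (Dat Q) := by
  have hfp : Fact p.Prime := ⟨hp⟩
  let S : Set (Subgroup (Equiv.Perm Q)) :=
    {H | H ≤ KM h.nrm ∧ IsPGroup p H ∧ ∀ a ∈ KM h.nrm, ∀ b ∈ H, a * b * a⁻¹ ∈ H}
  have hT : TM h ∈ S := ⟨fun d hd => hd.1, TM_pgroup h hp hMp, fun a ha b hb => TM_conj h ha hb⟩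
  obtain ⟨H, ⟨hH1, hH2, hH3⟩, hmax⟩ := Set.exists_max_image S
    (fun H => Nat.card H) (Set.toFinite _) ⟨_, hT⟩
  have hle : ∀ H' ∈ S, H' ≤ H := by
    rintro H' ⟨h1, h2, h3⟩
    have h4 : H ⊔ H' ∈ S := by
      refine ⟨sup_le hH1 h1, sup_isPGroup hH2 h2 (fun a ha b hb => h3 a (hH1 ha) b hb), ?_⟩
      intro a ha b hb
      have h5 : (H ⊔ H').map (MulAut.conj a).toMonoidHom ≤ H ⊔ H' := by
        rw [Subgroup.map_sup]
        apply sup_le
        · rintro _ ⟨x, hx, rfl⟩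
          exact (le_sup_left : H ≤ H ⊔ H') (hH3 a ha x hx)
        · rintro _ ⟨x, hx, rfl⟩
          exact (le_sup_right : H' ≤ H ⊔ H') (h3 a ha x hx)
      exact h5 ⟨b, hb, rfl⟩
    have h5 := hmax _ h4
    have h6 := Subgroup.eq_of_le_of_card_ge (le_sup_left : H ≤ H ⊔ H') h5
    rw [h6]; exact le_sup_right
  have hsol : Group.IsSolvable H := by
    have : Group.IsNilpotent H := hH2.isNilpotent
    infer_instance
  refine exists_Dat' H (hH1.trans fun g hg => hg.1) hsol ?_ ?_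
  · obtain ⟨a, ha, ha1⟩ := hne
    refine ⟨s a * s 1, hle _ hT (P_mem_TM h ha), fun h1 => ha1 ?_⟩
    rw [mul_eq_one_iff_eq_inv, s_inv] at h1
    exact s_inj hodd h1
  · intro g hg k hk
    have h1 : H.map (MulAut.conj g).toMonoidHom ∈ S := by
      refine ⟨?_, hH2.map _, ?_⟩
      · rintro _ ⟨x, hx, rfl⟩
        exact KM_conj h.nrm hg (hH1 hx)
      · rintro a ha _ ⟨x, hx, rfl⟩
        have h2 : g⁻¹ * a * g ∈ KM h.nrm := by
          have := KM_conj h.nrm (inv_mem hg) ha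
          rwa [inv_inv] at this
        refine ⟨(g⁻¹ * a * g) * x * (g⁻¹ * a * g)⁻¹, hH3 _ h2 x hx, ?_⟩
        change g * ((g⁻¹ * a * g) * x * (g⁻¹ * a * g)⁻¹) * g⁻¹ = a * (g * x * g⁻¹) * a⁻¹
        group
    exact hle _ h1 ⟨k, hk, rfl⟩

end P

end Pool.Agent.W328.OD
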