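import Pool.Agent.W328.OD.Ser

/-!
Solvable automorphic loops of odd order.
-/

set_option autoImplicit false
set_option linter.unusedSectionVars false

namespace Pool.Agent.W328.OD

open H361AL
open Pool.Agent.H687R3.ALG (IsNormalSubloop iv_memM)

universe u

/-- a normal series whose factors are abelian groups -/
structure NSer (Q : Type u) [Loop Q] (k : ℕ) (M : ℕ → Set Q) : Prop where
  zero : M 0 = {1}
  top : M k = Set.univ
  nrm : ∀ i ≤ k, IsNormalSubloop (M i)
  comm : ∀ i < k, ∀ a ∈ M (i + 1), ∀ b ∈ M (i + 1), rl (M i) (a * b) (b * a)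
  assoc : ∀ i < k, ∀ a ∈ M (i + 1), ∀ b ∈ M (i + 1), ∀ c ∈ M (i + 1),
    rl (M i) (a * (b * c)) ((a * b) * c)

variable {Q : Type u} [Loop Q] [Automorphic Q]

theorem rl_single {x y : Q} (h : rl {(1 : Q)} x y) : y = x := by
  obtain ⟨m, hm, rfl⟩ := h
  rw [Set.mem_singleton_iff] at hm
  rw [hm, Loop.mul_one']

theorem NSer.exists_Ab {k : ℕ} {M : ℕ → Set Q} (h : NSer Q k M) (hne : ∃ x : Q, x ≠ 1) :
    ∃ M' : Set Q, AbM M' ∧ ∃ a ∈ M', a ≠ 1 := by
  classical
  have hex : ∃ i, M i ≠ {1} := by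
    refine ⟨k, fun h1 => ?_⟩
    obtain ⟨x, hx⟩ := hne
    rw [h.top] at h1
    apply hx
    have : x ∈ (Set.univ : Set Q) := Set.mem_univ x
    rw [h1] at this
    exact this
  set j := Nat.find hex with hj
  have hj1 : M j ≠ {1} := Nat.find_spec hex
  have hj0 : j ≠ 0 := by
    intro h0
    rw [h0] at hj1
    exact hj1 h.zero
  obtain ⟨i, hi⟩ := Nat.exists_eq_succ_of_ne_zero hj0
  have hM1 : M i = {1} := by
    have := Nat.find_min hex (m := i) (by omega)
    push Not at this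
    exact this
  have hjk : j ≤ k := by
    apply Nat.find_min' hex
    intro h1
    obtain ⟨x, hx⟩ := hne
    rw [h.top] at h1
    apply hx
    have : x ∈ (Set.univ : Set Q) := Set.mem_univ x
    rw [h1] at this
    exact this
  have hik : i < k := by omega
  rw [hi] at hj1 hjk
  refine ⟨M (i + 1), ⟨h.nrm _ hjk, ?_, ?_⟩, ?_⟩
  · intro a ha b hb
    have h1 := h.comm i hik a ha b hb
    rw [hM1] at h1
    exact (rl_single h1).symm
  · intro a ha b hb c hc
    have h1 := h.assoc i hik a ha b hb c hc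
    rw [hM1] at h1
    exact rl_single h1
  · by_contra hcon
    push Not at hcon
    apply hj1
    ext x
    rw [Set.mem_singleton_iff]
    exact ⟨fun hx => hcon x hx, fun hx => hx ▸ (h.nrm _ hjk).one_mem⟩

section quot

variable {K : Subgroup (Equiv.Perm Q)} (h : NK K)

theorem nrm_image {M : Set Q} (hM : IsNormalSubloop M) : IsNormalSubloop (qm h '' M) where
  one_mem := ⟨1, hM.one_mem, rfl⟩
  mul_mem := by
    rintro _ ⟨x, hx, rfl⟩ _ ⟨y, hy, rfl⟩
    exact ⟨x * y, hM.mul_mem _ hx _ hy, rfl⟩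
  left_div := by
    rintro _ ⟨x, hx, rfl⟩ b ⟨z, hz, hz'⟩
    have e : x * (L x)⁻¹ z = z := (L x).apply_symm_apply z
    refine ⟨(L x)⁻¹ z, hM.left_div x hx _ (by rw [e]; exact hz), ?_⟩
    apply (bij_left (qm h x)).1
    change qm h (x * (L x)⁻¹ z) = qm h x * b
    rw [e, hz']
  right_div := by
    rintro _ ⟨x, hx, rfl⟩ b ⟨z, hz, hz'⟩
    have e : (R x)⁻¹ z * x = z := (R x).apply_symm_apply z
    refine ⟨(R x)⁻¹ z, hM.right_div x hx _ (by rw [e]; exact hz), ?_⟩
    apply (bij_right (qm h x)).1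
    change qm h ((R x)⁻¹ z * x) = b * qm h x
    rw [e, hz']
  inn_mem := by
    rintro g hg hg1 _ ⟨x, hx, rfl⟩
    obtain ⟨g', hg', hgg⟩ := lift_mlt h hg
    rw [← qm_one, hgg, qm_eq] at hg1
    obtain ⟨k, hk, hk'⟩ := hg1
    have h1 : (k * g') 1 = 1 := hk'
    have hm : k * g' ∈ Mlt Q := mul_mem (h.le hk) hg'
    refine ⟨(k * g') x, hM.inn_mem _ hm h1 x hx, ?_⟩
    rw [hgg, qm_eq]
    exact ⟨k⁻¹, inv_mem hk, k.symm_apply_apply _⟩

theorem rl_image {M : Set Q} {x y : Q} (hxy : rl M x y) : rl (qm h '' M) (qm h x) (qm h y) := by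
  obtain ⟨m, hm, rfl⟩ := hxy
  exact ⟨qm h m, ⟨m, hm, rfl⟩, rfl⟩

theorem NSer.quot {k : ℕ} {M : ℕ → Set Q} (hs : NSer Q k M) :
    NSer (QT h) k (fun i => qm h '' M i) where
  zero := by rw [hs.zero, Set.image_singleton]; rfl
  top := by rw [hs.top, Set.image_univ]; exact (qm_surj h).range_eq
  nrm := fun i hi => nrm_image h (hs.nrm i hi)
  comm := by
    rintro i hi _ ⟨a, ha, rfl⟩ _ ⟨b, hb, rfl⟩
    exact rl_image h (hs.comm i hi a ha b hb)
  assoc := by
    rintro i hi _ ⟨a, ha, rfl⟩ _ ⟨b, hb, rfl⟩ _ ⟨c, hc, rfl⟩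
    exact rl_image h (hs.assoc i hi a ha b hb c hc)

end quot

theorem NSer.exists_Dat [Finite Q] {k : ℕ} {M : ℕ → Set Q} (hs : NSer Q k M)
    (hodd : Odd (Nat.card Q)) (hcard : 1 < Nat.card Q) : Nonempty (Dat Q) := by
  rw [Finite.one_lt_card_iff_nontrivial] at hcard
  obtain ⟨M', hM', hne⟩ := hs.exists_Ab (exists_ne (1 : Q))
  obtain ⟨p, hp, M2, hM2, hne2, hMp⟩ := hM'.exists_prime hne
  exact Dat_of_AbM hM2 hp hMp hodd hne2

namespace Dat

theorem main2 (n : ℕ) : ∀ (Q : Type u) [Loop Q] [Automorphic Q] [Finite Q], Nat.card Q ≤ n →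
    Odd (Nat.card Q) → (∃ k M, NSer Q k M) →
    ∀ D : Dat Q, ∀ w ∈ D.Vy 1, ∀ X, lam X w = 0 := by
  induction n with
  | zero =>
    intro Q _ _ _ h0 hodd
    have : Nat.card Q = 0 := by omega
    rw [this] at hodd
    exact absurd hodd (by decide)
  | succ n ihn =>
    intro Q _ _ _ hcard hodd hs D
    by_cases hnc : ∀ a : D.A, (∀ g : Gh Q, g • a ∈ D.Vy 1) → a = 0
    · have hcq := card_QT D.NK_P0
      set k := Nat.card {y : Q // qm D.NK_P0 y = 1} with hk
      have hodd' : Odd (Nat.card (QT D.NK_P0)) := by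
        rw [hcq] at hodd
        exact Nat.Odd.of_mul_left hodd
      obtain ⟨v, hv, hv0⟩ := D.V_ne hodd 1
      have hk2 : 2 ≤ k := by
        have : Nontrivial {y : Q // qm D.NK_P0 y = 1} := by
          refine ⟨⟨pm v 1, ?_⟩, ⟨1, rfl⟩, ?_⟩
          · rw [← qm_one, qm_eq]
            exact ⟨(pm v)⁻¹, inv_mem (D.W_le_P0 hv.1), (pm v).symm_apply_apply 1⟩
          · intro h
            exact hv0 (free hodd hv (congrArg Subtype.val h))
        exact Finite.one_lt_card_iff_nontrivial.2 this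
      have hpos : 0 < Nat.card (QT D.NK_P0) := Nat.card_pos
      have hle : Nat.card (QT D.NK_P0) ≤ n := by
        have : Nat.card (QT D.NK_P0) * 2 ≤ Nat.card (QT D.NK_P0) * k :=
          Nat.mul_le_mul_left _ hk2
        omega
      have hcq1 : 1 < Nat.card (QT D.NK_P0) := by
        by_contra hcon
        have h1 : Nat.card (QT D.NK_P0) = 1 := by omega
        have hsub : Subsingleton (QT D.NK_P0) := (Nat.card_eq_one_iff_unique.1 h1).1
        apply hv0
        apply hnc
        intro g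
        have h2 := smul_Vy g hv
        have h3 : qm D.NK_P0 1 = qm D.NK_P0 (g.1 1) := Subsingleton.elim _ _
        rw [qm_eq] at h3
        obtain ⟨c, hc, hc1⟩ := h3
        refine ⟨h2.1, ?_⟩
        rw [← hc1] at h2
        rw [← h2.2, sg_P0 hc 1 h2.1]
      obtain ⟨k', M, hM⟩ := hs
      have hs' := hM.quot D.NK_P0
      obtain ⟨D'⟩ := hs'.exists_Dat hodd' hcq1
      have h1 := ihn (QT D.NK_P0) hle hodd' ⟨_, _, hs'⟩ D'
      exact D.qd.nc_main hodd hodd' hnc D'
        (fun v hv => (lam_iff hodd' hv).1 (h1 v hv))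
    · push Not at hnc
      obtain ⟨a, ha, hne⟩ := hnc
      let U : AddSubgroup D.A :=
        { carrier := {a | ∀ g : Gh Q, g • a ∈ D.Vy 1}
          zero_mem' := fun g => by rw [smul_zero]; exact zero_mem _
          add_mem' := by
            intro a b ha hb g
            rw [smul_add]; exact add_mem (ha g) (hb g)
          neg_mem' := by
            intro a ha g
            rw [smul_neg]; exact neg_mem (ha g) }
      have hU : D.WA ≤ U := by
        apply D.min'
        · intro b hb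
          have := hb 1
          rw [one_smul] at this
          exact this.1
        · intro g b hb g'
          rw [← mul_smul]; exact hb (g' * g)
        · exact ⟨a, ha, hne⟩
      apply c_main hodd
      intro b hb y
      have h1 := hU hb (Lg y)⁻¹
      have h2 := Lg_Vy y h1
      rwa [smul_inv_smul] at h2

end Dat

/-- the main theorem for solvable loops -/
theorem middle2 (Q : Type u) [Loop Q] [Automorphic Q] [Finite Q] (hodd : Odd (Nat.card Q))
    (hcard : 1 < Nat.card Q) (hs : ∃ k M, NSer Q k M) :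
    ∃ a : Q, a ≠ 1 ∧ ∀ x y : Q, (x * a) * y = x * (a * y) := by
  obtain ⟨k, M, hM⟩ := hs
  obtain ⟨D⟩ := hM.exists_Dat hodd hcard
  obtain ⟨v, hv, hv0⟩ := D.V_ne hodd 1
  refine ⟨Dat.pm v 1, fun h => hv0 (Dat.free hodd hv h), ?_⟩
  exact (Dat.lam_iff hodd hv).1 (Dat.main2 (Nat.card Q) Q le_rfl hodd ⟨k, M, hM⟩ D v hv)

end Pool.Agent.W328.OD
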